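import Pool.Agent.U687.NO.Cyl
import Pool.Agent.U120.MF.Mt

/-!
# The matchings among the tuples of primes with bounded product
-/

set_option autoImplicit false
set_option linter.unusedSectionVars false

open scoped Classical

namespace Pool.Agent.U687.NO

open Finset Filter Topology
open Pool.Agent.U687.Q2 (av Ca)
open Pool.Agent.U687.JT (nr2 n47)
open Pool.Agent.U120.MF (Mt Spl not_fourth self_sq)

theorem nr2_zero {p q : ℕ} : nr2 p q = 0 ↔ IsSquare (q : ZMod p) := by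
  unfold nr2
  by_cases h : IsSquare (q : ZMod p)
  · rw [if_pos h]
    exact ⟨fun _ => h, fun _ => rfl⟩
  · rw [if_neg h]
    exact ⟨fun h1 => absurd h1 one_ne_zero, fun h1 => absurd h1 h⟩

theorem nr2_one {p q : ℕ} : nr2 p q = 1 ↔ ¬ IsSquare (q : ZMod p) := by
  rw [← nr2_zero]
  have : ∀ a : ZMod 2, a = 1 ↔ ¬ a = 0 := by decide
  exact this _

variable {K : ℕ}

/-- the involutions which fix the complement -/
noncomputable def Cf (S : Finset (Fin K)) : Finset (Equiv.Perm (Fin K)) :=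
  univ.filter fun σ => σ * σ = 1 ∧ ∀ i, i ∉ S → σ i = i

/-- the pairs which meet the set -/
noncomputable def Cp (S : Finset (Fin K)) : Finset (Fin K × Fin K) :=
  univ.filter fun z => z.1 < z.2 ∧ (z.1 ∈ S ∨ z.2 ∈ S)

theorem mem_Cp {S : Finset (Fin K)} {z : Fin K × Fin K} :
    z ∈ Cp S ↔ z.1 < z.2 ∧ (z.1 ∈ S ∨ z.2 ∈ S) := by
  unfold Cp
  rw [Finset.mem_filter]
  exact ⟨fun h => h.2, fun h => ⟨Finset.mem_univ z, h⟩⟩

theorem mem_Cf {S : Finset (Fin K)} {σ : Equiv.Perm (Fin K)} :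
    σ ∈ Cf S ↔ (∀ i, σ (σ i) = i) ∧ ∀ i, i ∉ S → σ i = i := by
  unfold Cf
  rw [Finset.mem_filter]
  constructor
  · rintro ⟨-, h1, h2⟩
    refine ⟨fun i => ?_, h2⟩
    have := Equiv.Perm.ext_iff.1 h1 i
    simpa using this
  · rintro ⟨h1, h2⟩
    refine ⟨Finset.mem_univ σ, Equiv.Perm.ext fun i => ?_, h2⟩
    rw [Equiv.Perm.mul_apply, h1 i]
    rfl

/-- the sign of a pair -/
noncomputable def ep (σ : Equiv.Perm (Fin K)) (z : Fin K × Fin K) : ℝ := if σ z.1 = z.2 then -1 else 1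

/-- the condition at a place -/
def Cg (S : Finset (Fin K)) (i : Fin K) (p : ℕ) : Prop :=
  (i ∈ S → Spl p ∧ ¬ ∃ y : ZMod p, y ^ 4 = -7) ∧ (i ∉ S → ¬ Spl p)

/-- the configuration -/
def Cc (S : Finset (Fin K)) (σ : Equiv.Perm (Fin K)) (x : Fin K → ℕ) : Prop :=
  (∀ i, Cg S i (x i)) ∧ ∀ z ∈ Cp S, (nr2 (x z.1) (x z.2) = 1 ↔ σ z.1 = z.2)

theorem Cc.pair {S : Finset (Fin K)} {σ : Equiv.Perm (Fin K)} {x : Fin K → ℕ} (h : Cc S σ x)
    (hσ : σ ∈ Cf S) (hx : Om K 1 x) {i j : Fin K} (hij : i ≠ j) (hS : i ∈ S ∨ j ∈ S) :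
    nr2 (x i) (x j) = 1 ↔ σ i = j := by
  rcases lt_or_gt_of_ne hij with h1 | h1
  · exact h.2 (i, j) (mem_Cp.2 ⟨h1, hS⟩)
  · have h2 := h.2 (j, i) (mem_Cp.2 ⟨h1, hS.symm⟩)
    rw [nr2_symm (hx.1 i).1 (hx.1 j).1 (hx.1 i).2.1 (hx.1 j).2.1]
    refine h2.trans ?_
    show σ j = i ↔ σ i = j
    have h3 := (mem_Cf.1 hσ).1
    constructor
    · intro h4
      rw [← h4, h3]
    · intro h4
      rw [← h4, h3]

/-- a configuration is a matching -/
theorem Cc.mt {S : Finset (Fin K)} {σ : Equiv.Perm (Fin K)} {x : Fin K → ℕ} (h : Cc S σ x)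
    (hσ : σ ∈ Cf S) (hx : Om K 1 x) : Mt (Set.range x) := by
  have hs : ∀ i, Spl (x i) → i ∈ S := fun i hi => by
    by_contra h1
    exact (h.1 i).2 h1 hi
  have hn : ∀ i, ¬ Spl (x i) → i ∉ S := fun i hi h1 => hi ((h.1 i).1 h1).1
  refine ⟨?_, ?_, ?_⟩
  · rintro _ ⟨i, rfl⟩
    by_cases hi : i ∈ S
    · exact ((h.1 i).1 hi).2
    · exact not_fourth ((h.1 i).2 hi)
  · rintro _ ⟨i, rfl⟩ hi _ ⟨j, rfl⟩ hj
    have h1 := hs i hi
    have h2 := hn j hj
    have hij : i ≠ j := fun h3 => h2 (h3 ▸ h1)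
    rw [← nr2_zero]
    by_contra h3
    have h4 : nr2 (x i) (x j) = 1 := by
      rw [nr2_one, ← nr2_zero]
      exact h3
    have h5 := (h.pair hσ hx hij (Or.inl h1)).1 h4
    have h6 := (mem_Cf.1 hσ).2 j h2
    have h7 := (mem_Cf.1 hσ).1 i
    rw [h5, h6] at h7
    exact hij h7.symm
  · rintro _ ⟨i, rfl⟩ hi _ ⟨j, rfl⟩ hj _ ⟨k, rfl⟩ hk h1 h2
    have hij : i ≠ j := fun h3 => h1 (by rw [h3]; exact self_sq _)
    have hik : i ≠ k := fun h3 => h2 (by rw [h3]; exact self_sq _)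
    have h4 := (h.pair hσ hx hij (Or.inl (hs i hi))).1 (nr2_one.2 h1)
    have h5 := (h.pair hσ hx hik (Or.inl (hs i hi))).1 (nr2_one.2 h2)
    rw [← h4, ← h5]

/-- the relation of a matching -/
def Rl (x : Fin K → ℕ) (i j : Fin K) : Prop :=
  i ≠ j ∧ Spl (x i) ∧ Spl (x j) ∧ nr2 (x i) (x j) = 1

/-- the partner -/
noncomputable def pn (x : Fin K → ℕ) (i : Fin K) : Fin K :=
  if h : ∃ j, Rl x i j then h.choose else i

theorem Rl.symm {x : Fin K → ℕ} (hx : Om K 1 x) {i j : Fin K} (h : Rl x i j) : Rl x j i :=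
  ⟨h.1.symm, h.2.2.1, h.2.1, by
    rw [nr2_symm (hx.1 j).1 (hx.1 i).1 (hx.1 j).2.1 (hx.1 i).2.1]
    exact h.2.2.2⟩

theorem pn_eq {x : Fin K → ℕ} (hx : Om K 1 x) (hM : Mt (Set.range x)) {i j : Fin K}
    (h : Rl x i j) : pn x i = j := by
  have h1 : ∃ j, Rl x i j := ⟨j, h⟩
  unfold pn
  rw [dif_pos h1]
  have h2 := h1.choose_spec
  exact hx.2 (hM.2.2 (x i) ⟨i, rfl⟩ h.2.1 (x h1.choose) ⟨_, rfl⟩ h2.2.2.1 (x j) ⟨j, rfl⟩ h.2.2.1
    (nr2_one.1 h2.2.2.2) (nr2_one.1 h.2.2.2))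

theorem pn_self {x : Fin K → ℕ} {i : Fin K} (h : ¬ ∃ j, Rl x i j) : pn x i = i := by
  unfold pn
  rw [dif_neg h]

theorem pn_inv {x : Fin K → ℕ} (hx : Om K 1 x) (hM : Mt (Set.range x)) :
    Function.Involutive (pn x) := by
  intro i
  by_cases h : ∃ j, Rl x i j
  · obtain ⟨j, hj⟩ := h
    rw [pn_eq hx hM hj, pn_eq hx hM (hj.symm hx)]
  · rw [pn_self h, pn_self h]

/-- the split places -/
noncomputable def S0 (x : Fin K → ℕ) : Finset (Fin K) := univ.filter fun i => Spl (x i)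

theorem mem_S0 {x : Fin K → ℕ} {i : Fin K} : i ∈ S0 x ↔ Spl (x i) := by
  unfold S0
  rw [Finset.mem_filter]
  exact ⟨fun h => h.2, fun h => ⟨Finset.mem_univ i, h⟩⟩

/-- a matching is a configuration -/
theorem exists_cc {x : Fin K → ℕ} (hx : Om K 1 x) (hM : Mt (Set.range x)) :
    ∃ σ ∈ Cf (S0 x), Cc (S0 x) σ x ∧ ∀ σ' ∈ Cf (S0 x), Cc (S0 x) σ' x → σ' = σ := by
  set σ : Equiv.Perm (Fin K) := (pn_inv hx hM).toPerm with hσ
  have hap : ∀ i, σ i = pn x i := fun i => rfl
  have hmem : σ ∈ Cf (S0 x) := by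
    rw [mem_Cf]
    refine ⟨fun i => pn_inv hx hM i, fun i hi => ?_⟩
    rw [hap]
    exact pn_self fun ⟨j, hj⟩ => hi (mem_S0.2 hj.2.1)
  have hsq : ∀ i j : Fin K, Spl (x i) → ¬ Spl (x j) → ¬ nr2 (x i) (x j) = 1 := by
    intro i j hi hj h1
    exact (nr2_one.1 h1) (hM.2.1 (x i) ⟨i, rfl⟩ hi (x j) ⟨j, rfl⟩ hj)
  have hcc : Cc (S0 x) σ x := by
    refine ⟨fun i => ⟨fun hi => ⟨mem_S0.1 hi, hM.1 (x i) ⟨i, rfl⟩⟩, fun hi => fun h => hi (mem_S0.2 h)⟩,
      fun z hz => ?_⟩
    obtain ⟨h1, h2⟩ := mem_Cp.1 hz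
    have hne : z.1 ≠ z.2 := ne_of_lt h1
    constructor
    · intro h3
      have h4 : Spl (x z.1) ∧ Spl (x z.2) := by
        by_cases g1 : Spl (x z.1)
        · refine ⟨g1, ?_⟩
          by_contra g2
          exact hsq _ _ g1 g2 h3
        · exfalso
          have g2 : Spl (x z.2) := by
            rcases h2 with h2 | h2
            · exact absurd (mem_S0.1 h2) g1
            · exact mem_S0.1 h2
          rw [nr2_symm (hx.1 _).1 (hx.1 _).1 (hx.1 _).2.1 (hx.1 _).2.1] at h3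
          exact hsq _ _ g2 g1 h3
      exact pn_eq hx hM ⟨hne, h4.1, h4.2, h3⟩
    · intro h3
      rw [hap] at h3
      by_cases h4 : ∃ j, Rl x z.1 j
      · obtain ⟨j, hj⟩ := h4
        rw [pn_eq hx hM hj] at h3
        rw [← h3]
        exact hj.2.2.2
      · rw [pn_self h4] at h3
        exact absurd h3 hne
  refine ⟨σ, hmem, hcc, fun σ' hσ' hc' => Equiv.Perm.ext fun i => ?_⟩
  by_cases hi : i ∈ S0 x
  · by_cases h1 : σ' i = i
    · by_contra h2
      have h3 : i ≠ σ i := fun h4 => h2 (h1.trans h4)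
      have h4 := (hcc.pair hmem hx h3 (Or.inl hi)).2 rfl
      have h5 := (hc'.pair hσ' hx h3 (Or.inl hi)).1 h4
      exact h2 h5
    · have h3 : i ≠ σ' i := fun h4 => h1 h4.symm
      have h4 := (hc'.pair hσ' hx h3 (Or.inl hi)).2 rfl
      exact ((hcc.pair hmem hx h3 (Or.inl hi)).1 h4).symm
  · rw [(mem_Cf.1 hσ').2 i hi, (mem_Cf.1 hmem).2 i hi]

theorem Cc.eq {S : Finset (Fin K)} {σ : Equiv.Perm (Fin K)} {x : Fin K → ℕ} (h : Cc S σ x) :
    S = S0 x := by
  ext i
  rw [mem_S0]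
  constructor
  · intro hi
    exact ((h.1 i).1 hi).1
  · intro hi
    by_contra h1
    exact (h.1 i).2 h1 hi

/-- **the number of the configurations** -/
theorem sum_cc {x : Fin K → ℕ} (hx : Om K 1 x) (s : ℕ) :
    ∑ S ∈ (univ : Finset (Fin K)).powersetCard s, ∑ σ ∈ Cf S, (if Cc S σ x then (1 : ℝ) else 0) =
      if Mt (Set.range x) ∧ (S0 x).card = s then 1 else 0 := by
  have h1 : ∀ S ∈ (univ : Finset (Fin K)).powersetCard s,
      ∑ σ ∈ Cf S, (if Cc S σ x then (1 : ℝ) else 0) =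
      if S = S0 x then ∑ σ ∈ Cf (S0 x), (if Cc (S0 x) σ x then (1 : ℝ) else 0) else 0 := by
    intro S _
    by_cases h : S = S0 x
    · rw [if_pos h, h]
    · rw [if_neg h]
      refine Finset.sum_eq_zero fun σ _ => ?_
      rw [if_neg fun h2 => h h2.eq]
  rw [Finset.sum_congr rfl h1, Finset.sum_ite_eq']
  have h2 : ∑ σ ∈ Cf (S0 x), (if Cc (S0 x) σ x then (1 : ℝ) else 0) =
      if Mt (Set.range x) then 1 else 0 := by
    by_cases hM : Mt (Set.range x)
    · rw [if_pos hM]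
      obtain ⟨σ, hσ, hc, hu⟩ := exists_cc hx hM
      rw [Finset.sum_eq_single σ]
      · rw [if_pos hc]
      · intro σ' hσ' hne
        rw [if_neg fun h => hne (hu σ' hσ' h)]
      · intro h
        exact absurd hσ h
    · rw [if_neg hM]
      refine Finset.sum_eq_zero fun σ hσ => ?_
      rw [if_neg fun h => hM (h.mt hσ hx)]
  rw [h2]
  by_cases h3 : (S0 x).card = s
  · rw [if_pos (Finset.mem_powersetCard.2 ⟨Finset.subset_univ _, h3⟩)]
    by_cases hM : Mt (Set.range x)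
    · rw [if_pos hM, if_pos ⟨hM, h3⟩]
    · rw [if_neg hM, if_neg fun h => hM h.1]
  · rw [if_neg fun h => h3 (Finset.mem_powersetCard.1 h).2, if_neg fun h => h3 h.2]

/-- the function of one coordinate -/
noncomputable def gS (S : Finset (Fin K)) (i : Fin K) (p : ℕ) : ℝ := if Cg S i p then 1 else 0

theorem cc_prod (S : Finset (Fin K)) (σ : Equiv.Perm (Fin K)) (x : Fin K → ℕ) :
    (∏ i, gS S i (x i)) * ∏ z ∈ Cp S, ((1 + ep σ z * sn (nr2 (x z.1) (x z.2))) / 2) =
      if Cc S σ x then 1 else 0 := by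
  have h1 : ∀ z ∈ Cp S, (1 + ep σ z * sn (nr2 (x z.1) (x z.2))) / 2 =
      if (nr2 (x z.1) (x z.2) = 1 ↔ σ z.1 = z.2) then 1 else 0 := by
    intro z _
    have h2 : ∀ a : ZMod 2, a = 0 ∨ a = 1 := by decide
    unfold ep
    rcases h2 (nr2 (x z.1) (x z.2)) with h3 | h3
    · rw [h3, sn_zero]
      by_cases h4 : σ z.1 = z.2
      · rw [if_pos h4, if_neg]
        · norm_num
        · intro h5
          exact absurd (h5.2 h4) zero_ne_one
      · rw [if_neg h4, if_pos]
        · norm_num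
        · exact ⟨fun h5 => absurd h5 zero_ne_one, fun h5 => absurd h5 h4⟩
    · rw [h3, sn_one]
      by_cases h4 : σ z.1 = z.2
      · rw [if_pos h4, if_pos]
        · norm_num
        · exact ⟨fun _ => h4, fun _ => rfl⟩
      · rw [if_neg h4, if_neg]
        · norm_num
        · intro h5
          exact h4 (h5.1 rfl)
  unfold gS
  rw [Finset.prod_congr rfl h1, Finset.prod_boole, Finset.prod_boole]
  unfold Cc
  by_cases h2 : ∀ i ∈ (univ : Finset (Fin K)), Cg S i (x i)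
  · rw [if_pos h2, one_mul]
    by_cases h3 : ∀ z ∈ Cp S, (nr2 (x z.1) (x z.2) = 1 ↔ σ z.1 = z.2)
    · rw [if_pos h3, if_pos ⟨fun i => h2 i (Finset.mem_univ i), h3⟩]
    · rw [if_neg h3, if_neg fun h => h3 h.2]
  · rw [if_neg h2, zero_mul, if_neg fun h => h2 fun i _ => h.1 i]

/-! ### the means -/

theorem mo_ft (p : ℕ) : mo ∅ false true p = sn (ty p) := by
  unfold mo
  simp

theorem mo_tf (p : ℕ) : mo ∅ true false p = sn (n47 p) := by
  unfold mo
  simp

theorem mo_tt (p : ℕ) : mo ∅ true true p = sn (n47 p) * sn (ty p) := by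
  unfold mo
  simp

theorem me_ft : me ∅ false true = 0 := by
  unfold me
  norm_num

theorem me_tf : me ∅ true false = -1 / 2 := by
  unfold me
  norm_num

theorem me_tt : me ∅ true true = 1 / 2 := by
  unfold me
  norm_num

theorem ty_spl {p : ℕ} : (Spl p → sn (ty p) = 1) ∧ (¬ Spl p → sn (ty p) = -1) := by
  unfold ty Spl
  constructor
  · intro h
    rw [if_pos h, sn_zero]
  · intro h
    rw [if_neg h, sn_one]

theorem n47_fou {p : ℕ} : ((∃ y : ZMod p, y ^ 4 = -7) → sn (n47 p) = 1) ∧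
    (¬ (∃ y : ZMod p, y ^ 4 = -7) → sn (n47 p) = -1) := by
  unfold n47
  constructor
  · intro h
    rw [if_pos h, sn_zero]
  · intro h
    rw [if_neg h, sn_one]

/-- the mean at a place -/
noncomputable def mS (S : Finset (Fin K)) (i : Fin K) : ℝ := if i ∈ S then 1 / 4 else 1 / 2

theorem gS_in {S : Finset (Fin K)} {i : Fin K} (hi : i ∈ S) (p : ℕ) : gS S i p - mS S i =
    1 / 4 * ((mo ∅ false true p - me ∅ false true) - (mo ∅ true false p - me ∅ true false) -
      (mo ∅ true true p - me ∅ true true)) := by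
  rw [mo_ft, mo_tf, mo_tt, me_ft, me_tf, me_tt]
  unfold gS mS Cg
  rw [if_pos hi]
  by_cases h1 : Spl p
  · rw [ty_spl.1 h1]
    by_cases h2 : ∃ y : ZMod p, y ^ 4 = -7
    · rw [n47_fou.1 h2, if_neg fun h => (h.1 hi).2 h2]
      norm_num
    · rw [n47_fou.2 h2, if_pos ⟨fun _ => ⟨h1, h2⟩, fun h => absurd hi h⟩]
      norm_num
  · have h2 := not_fourth h1
    rw [ty_spl.2 h1, n47_fou.2 h2, if_neg fun h => h1 (h.1 hi).1]
    norm_num

theorem gS_out {S : Finset (Fin K)} {i : Fin K} (hi : i ∉ S) (p : ℕ) : gS S i p - mS S i =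
    -1 / 2 * (mo ∅ false true p - me ∅ false true) := by
  rw [mo_ft, me_ft]
  unfold gS mS Cg
  rw [if_neg hi]
  by_cases h1 : Spl p
  · rw [ty_spl.1 h1, if_neg fun h => (h.2 hi) h1]
    norm_num
  · rw [ty_spl.2 h1, if_pos ⟨fun h => absurd h hi, fun _ => h1⟩]
    norm_num

theorem gS_mean (S : Finset (Fin K)) (i : Fin K) :
    Tendsto (fun Z : ℕ => (∑ p ∈ pr Z, (gS S i p - mS S i)) / ((pr Z).card : ℝ)) atTop (𝓝 0) := by
  have m1 := mean_pr ∅ (by simp) false true
  have m2 := mean_pr ∅ (by simp) true false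
  have m3 := mean_pr ∅ (by simp) true true
  by_cases hi : i ∈ S
  · have h := ((m1.sub m2).sub m3).const_mul (1 / 4)
    rw [sub_zero, sub_zero, mul_zero] at h
    refine h.congr fun Z => ?_
    rw [Finset.sum_congr rfl fun p _ => gS_in hi p, ← Finset.mul_sum,
      Finset.sum_sub_distrib (fun p => (mo ∅ false true p - me ∅ false true) -
        (mo ∅ true false p - me ∅ true false)) (fun p => mo ∅ true true p - me ∅ true true),
      Finset.sum_sub_distrib (fun p => mo ∅ false true p - me ∅ false true)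
        (fun p => mo ∅ true false p - me ∅ true false)]
    ring
  · have h := m1.const_mul (-1 / 2)
    rw [mul_zero] at h
    refine h.congr fun Z => ?_
    rw [Finset.sum_congr rfl fun p _ => gS_out hi p, ← Finset.mul_sum]
    ring

/-- the average of a configuration -/
theorem cc_lim (n : ℕ) (S : Finset (Fin (n + 1))) (σ : Equiv.Perm (Fin (n + 1))) :
    Tendsto (na (n + 1) fun x => if Cc S σ x then (1 : ℝ) else 0) atTop
      (𝓝 ((∏ i, mS S i) / 2 ^ (Cp S).card)) := by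
  have h := cyl_lim (fun i => gS S i) (fun i => mS S i) (fun i p => by
    unfold gS
    split_ifs <;> norm_num) (fun i => by
    unfold mS
    split_ifs <;> norm_num) (fun i => gS_mean S i) (Cp S) (fun z hz => (mem_Cp.1 hz).1) (ep σ)
    (fun z => by
      unfold ep
      split_ifs <;> norm_num)
  refine h.congr fun X => ?_
  congr 1
  funext x
  exact cc_prod S σ x

/-! ### the numbers -/

/-- the number of the involutions -/
noncomputable def Iv (s : ℕ) : ℕ :=
  ((univ : Finset (Equiv.Perm (Fin s))).filter fun σ => σ * σ = 1).card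

theorem card_Cf (S : Finset (Fin K)) : (Cf S).card = Iv S.card := by
  unfold Iv
  symm
  have e : Fin S.card ≃ {i : Fin K // i ∈ S} := (Finset.equivFin S).symm
  refine Finset.card_bij (fun τ _ => Equiv.Perm.ofSubtype (e.permCongr τ)) ?_ ?_ ?_
  · intro τ hτ
    have h1 := (Finset.mem_filter.1 hτ).2
    unfold Cf
    rw [Finset.mem_filter]
    refine ⟨Finset.mem_univ _, ?_, fun i hi => Equiv.Perm.ofSubtype_apply_of_not_mem _ hi⟩
    rw [← map_mul]
    have h2 : e.permCongr τ * e.permCongr τ = 1 := by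
      ext i
      have h3 := Equiv.Perm.ext_iff.1 h1 (e.symm i)
      rw [Equiv.Perm.mul_apply] at h3
      simp only [Equiv.Perm.mul_apply, Equiv.permCongr_apply, Equiv.symm_apply_apply]
      rw [h3]
      simp
    rw [h2, map_one]
  · intro τ _ τ' _ h
    exact e.permCongr.injective (Equiv.Perm.ofSubtype_injective h)
  · intro σ hσ
    have h1 := mem_Cf.1 hσ
    have h2 : ∀ i, σ i ∈ S ↔ i ∈ S := by
      intro i
      constructor
      · intro h3
        by_contra h4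
        rw [h1.2 i h4] at h3
        exact h4 h3
      · intro h3
        by_contra h4
        have h5 := h1.2 _ h4
        rw [h1.1 i] at h5
        rw [← h5] at h4
        exact h4 h3
    have h3 : ∀ i, σ i ≠ i → i ∈ S := fun i hi => by
      by_contra h4
      exact hi (h1.2 i h4)
    refine ⟨e.permCongr.symm (Equiv.Perm.subtypePerm σ h2), ?_, ?_⟩
    · rw [Finset.mem_filter]
      refine ⟨Finset.mem_univ _, ?_⟩
      have h4 : ∀ j : {i : Fin K // i ∈ S}, Equiv.Perm.subtypePerm σ h2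
          (Equiv.Perm.subtypePerm σ h2 j) = j := by
        intro j
        apply Subtype.ext
        simp only [Equiv.Perm.subtypePerm_apply]
        exact h1.1 j
      have h6 : ∀ i, e.permCongr.symm (Equiv.Perm.subtypePerm σ h2) i =
          e.symm (Equiv.Perm.subtypePerm σ h2 (e i)) := fun i => rfl
      refine Equiv.ext fun i => ?_
      rw [Equiv.Perm.mul_apply, h6, h6, Equiv.apply_symm_apply, h4, Equiv.symm_apply_apply]
      rfl
    · rw [Equiv.apply_symm_apply]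
      exact Equiv.Perm.ofSubtype_subtypePerm h2 h3

theorem card_lt (T : Finset (Fin K)) :
    ((univ : Finset (Fin K × Fin K)).filter fun z => z.1 < z.2 ∧ z.1 ∈ T ∧ z.2 ∈ T).card =
      T.card.choose 2 := by
  set A := (univ : Finset (Fin K × Fin K)).filter fun z => z.1 < z.2 ∧ z.1 ∈ T ∧ z.2 ∈ T with hA
  set B := (univ : Finset (Fin K × Fin K)).filter fun z => z.2 < z.1 ∧ z.1 ∈ T ∧ z.2 ∈ T with hB
  have h1 : T.offDiag = A ∪ B := by
    ext z
    rw [Finset.mem_offDiag, Finset.mem_union, hA, hB, Finset.mem_filter, Finset.mem_filter]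
    constructor
    · rintro ⟨h1, h2, h3⟩
      rcases lt_or_gt_of_ne h3 with h4 | h4
      · exact Or.inl ⟨Finset.mem_univ z, h4, h1, h2⟩
      · exact Or.inr ⟨Finset.mem_univ z, h4, h1, h2⟩
    · rintro (⟨-, h4, h1, h2⟩ | ⟨-, h4, h1, h2⟩)
      · exact ⟨h1, h2, ne_of_lt h4⟩
      · exact ⟨h1, h2, (ne_of_lt h4).symm⟩
  have h2 : Disjoint A B := by
    rw [Finset.disjoint_left]
    intro z h3 h4
    exact lt_asymm (Finset.mem_filter.1 h3).2.1 (Finset.mem_filter.1 h4).2.1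
  have h3 : A.card = B.card := by
    refine Finset.card_bij (fun z _ => z.swap) ?_ ?_ ?_
    · intro z hz
      have h4 := (Finset.mem_filter.1 hz).2
      exact Finset.mem_filter.2 ⟨Finset.mem_univ _, h4.1, h4.2.2, h4.2.1⟩
    · intro z _ z' _ h
      exact Prod.swap_injective h
    · intro z hz
      have h4 := (Finset.mem_filter.1 hz).2
      exact ⟨z.swap, Finset.mem_filter.2 ⟨Finset.mem_univ _, h4.1, h4.2.2, h4.2.1⟩, Prod.swap_swap z⟩
  have h4 := Finset.card_union_of_disjoint h2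
  rw [← h1, Finset.offDiag_card, ← h3] at h4
  rw [Nat.choose_two_right]
  have h5 : T.card * (T.card - 1) = T.card * T.card - T.card := by
    rw [Nat.mul_sub, mul_one]
  rw [h5, h4]
  omega

theorem card_Cp (S : Finset (Fin K)) :
    (Cp S).card + (K - S.card).choose 2 = K.choose 2 := by
  have h1 := card_lt (K := K) univ
  have h2 := card_lt (K := K) Sᶜ
  rw [Finset.card_univ, Fintype.card_fin] at h1
  rw [Finset.card_compl, Fintype.card_fin] at h2
  rw [← h1, ← h2, ← Finset.card_union_of_disjoint]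
  · congr 1
    ext z
    rw [Finset.mem_union, mem_Cp, Finset.mem_filter, Finset.mem_filter, Finset.mem_compl,
      Finset.mem_compl]
    constructor
    · rintro (⟨h3, -⟩ | ⟨-, h3, -⟩)
      · exact ⟨Finset.mem_univ z, h3, Finset.mem_univ _, Finset.mem_univ _⟩
      · exact ⟨Finset.mem_univ z, h3, Finset.mem_univ _, Finset.mem_univ _⟩
    · rintro ⟨-, h3, -, -⟩
      by_cases h4 : z.1 ∈ S ∨ z.2 ∈ S
      · exact Or.inl ⟨h3, h4⟩
      · rw [not_or] at h4
        exact Or.inr ⟨Finset.mem_univ z, h3, h4⟩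
  · rw [Finset.disjoint_left]
    intro z h3 h4
    have h5 := (mem_Cp.1 h3).2
    have h6 := (Finset.mem_filter.1 h4).2.2
    rw [Finset.mem_compl, Finset.mem_compl] at h6
    tauto

theorem prod_mS (S : Finset (Fin K)) : ∏ i, mS S i = 1 / 2 ^ (K + S.card) := by
  unfold mS
  rw [Finset.prod_ite, Finset.prod_const, Finset.prod_const]
  have h1 : (univ.filter fun i => i ∈ S) = S := by
    ext i
    rw [Finset.mem_filter]
    exact ⟨fun h => h.2, fun h => ⟨Finset.mem_univ i, h⟩⟩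
  have h2 : (univ.filter fun i => ¬ i ∈ S) = Sᶜ := by
    ext i
    rw [Finset.mem_filter, Finset.mem_compl]
    exact ⟨fun h => h.2, fun h => ⟨Finset.mem_univ i, h⟩⟩
  rw [h1, h2, Finset.card_compl, Fintype.card_fin]
  have h3 : S.card ≤ K := by
    have := Finset.card_le_univ S
    rwa [Fintype.card_fin] at this
  have h4 : (1 / 4 : ℝ) ^ S.card = 1 / 2 ^ (2 * S.card) := by
    rw [pow_mul, one_div, inv_pow, one_div]
    norm_num
  have h5 : (1 / 2 : ℝ) ^ (K - S.card) = 1 / 2 ^ (K - S.card) := by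
    rw [one_div, inv_pow, one_div]
  rw [h4, h5, one_div_mul_one_div, ← pow_add]
  congr 2
  omega

/-- **the average of the matchings with `s` split places** -/
theorem match_lim (n s : ℕ) (hs : s ≤ n + 1) :
    Tendsto (na (n + 1) fun x => ∑ S ∈ (univ : Finset (Fin (n + 1))).powersetCard s,
      ∑ σ ∈ Cf S, (if Cc S σ x then (1 : ℝ) else 0)) atTop
      (𝓝 (((n + 1).choose s * Iv s : ℕ) /
        2 ^ (n + 1 + s + ((n + 1).choose 2 - (n + 1 - s).choose 2)))) := by
  have h1 : (na (n + 1) fun x => ∑ S ∈ (univ : Finset (Fin (n + 1))).powersetCard s,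
      ∑ σ ∈ Cf S, (if Cc S σ x then (1 : ℝ) else 0)) = fun X =>
      ∑ S ∈ (univ : Finset (Fin (n + 1))).powersetCard s, ∑ σ ∈ Cf S,
        na (n + 1) (fun x => if Cc S σ x then (1 : ℝ) else 0) X := by
    funext X
    unfold na
    rw [Finset.sum_comm, Finset.sum_div]
    refine Finset.sum_congr rfl fun S _ => ?_
    rw [Finset.sum_comm, Finset.sum_div]
  rw [h1]
  have h2 : (((n + 1).choose s * Iv s : ℕ) : ℝ) /
      2 ^ (n + 1 + s + ((n + 1).choose 2 - (n + 1 - s).choose 2)) =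
      ∑ S ∈ (univ : Finset (Fin (n + 1))).powersetCard s, ∑ σ ∈ Cf S,
        ((∏ i, mS S i) / 2 ^ (Cp S).card) := by
    have h3 : ∀ S ∈ (univ : Finset (Fin (n + 1))).powersetCard s, ∑ σ ∈ Cf S,
        ((∏ i, mS S i) / 2 ^ (Cp S).card) = (Iv s : ℝ) *
        (1 / 2 ^ (n + 1 + s + ((n + 1).choose 2 - (n + 1 - s).choose 2))) := by
      intro S hS
      have h4 := (Finset.mem_powersetCard.1 hS).2
      rw [Finset.sum_const, card_Cf, h4, nsmul_eq_mul, prod_mS, h4]
      congr 1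
      have h5 := card_Cp S
      rw [h4] at h5
      have h6 : (n + 1).choose 2 - (n + 1 - s).choose 2 = (Cp S).card := by omega
      rw [h6, pow_add (2 : ℝ) (n + 1 + s) (Cp S).card, div_div]
    rw [Finset.sum_congr rfl h3, Finset.sum_const, Finset.card_powersetCard, Finset.card_univ,
      Fintype.card_fin, nsmul_eq_mul]
    push_cast
    ring
  rw [h2]
  exact tendsto_finsetSum _ fun S _ => tendsto_finsetSum _ fun σ _ => cc_lim n S σ

/-- the share of the numbers with `K` prime factors, `s` of them split, which are matchings -/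
noncomputable def Ps (K s : ℕ) : ℝ :=
  ((K.choose s * Iv s : ℕ) : ℝ) / 2 ^ (K + s + (K.choose 2 - (K - s).choose 2))

theorem range_pf {K D : ℕ} {x : Fin K → ℕ} (hx : Om K D x) :
    (((∏ i, x i).primeFactors : Finset ℕ) : Set ℕ) = Set.range x := by
  rw [(img_pf hx).1, Finset.coe_image, Finset.coe_univ, Set.image_univ]

/-- **the share of the matchings** -/
theorem match_m (n s : ℕ) (hs : s ≤ n + 1) :
    (∀ᶠ X : ℕ in atTop, 0 < (Ms (n + 1) 1 X).card) ∧
    Tendsto (fun X : ℕ => (∑ m ∈ Ms (n + 1) 1 X,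
      (if Mt (m.primeFactors : Set ℕ) ∧ (m.primeFactors.filter Spl).card = s then (1 : ℝ) else 0)) /
        ((Ms (n + 1) 1 X).card : ℝ)) atTop (𝓝 (Ps (n + 1) s)) := by
  refine restr_m n one_ne_zero (fun x => ∑ S ∈ (univ : Finset (Fin (n + 1))).powersetCard s,
    ∑ σ ∈ Cf S, (if Cc S σ x then (1 : ℝ) else 0)) (Ps (n + 1) s)
    (∑ S ∈ (univ : Finset (Fin (n + 1))).powersetCard s, ∑ σ ∈ Cf S, 1) (fun x => ?_)
    (match_lim n s hs) _ (fun x hx => ?_)
  · refine (Finset.abs_sum_le_sum_abs _ _).trans (Finset.sum_le_sum fun S _ => ?_)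
    refine (Finset.abs_sum_le_sum_abs _ _).trans (Finset.sum_le_sum fun σ _ => ?_)
    split_ifs <;> norm_num
  · rw [sum_cc hx s, range_pf hx]
    have h1 : ((∏ i, x i).primeFactors.filter Spl).card = (S0 x).card := by
      unfold S0
      rw [(img_pf hx).1, Finset.filter_image, Finset.card_image_of_injective _ hx.2]
    rw [h1]

end Pool.Agent.U687.NO
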