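import Pool.Agent.U687.NO.Glue
import Pool.Agent.U687.Q2.Low

/-!
# The joint law with the number of the split prime factors
-/

set_option autoImplicit false
set_option linter.unusedSectionVars false

open scoped Classical

namespace Pool.Agent.U687.NO

open Finset Filter Topology
open Pool.Agent.U687.Q2 (av av_mul Ca Ci Cs CC wt it it_main PP PP_eq PP_uw En exists_en MM cor uw pt mu nu
  TT chain chain_facts cor_zero_iff det_MM half_inert half_split lim2 MM_symm)
open Pool.Agent.U687.JT (nr2 n47 adm_mul)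
open Pool.Agent.Results.MP_4a9ea6_nt.TwoPartTwistsX49 (Adm mat)

/-- split in `ℚ(√-7)` -/
def Sp (l : ℕ) : Prop := IsSquare (-7 : ZMod l)

/-- the kind as a number -/
noncomputable def kd (s : Prop) : Fin 3 := if s then 1 else 0

theorem sum_kind (C : ℕ → Prop) (s : Prop) (hC : ∀ l, C l ↔ Ca l ∧ (Sp l ↔ s)) (D : ℕ) (g : ℕ → ℝ)
    (X : ℕ) : ∑ l ∈ (Icc 1 X).filter (fun l => l.Prime ∧ Ca l ∧ ¬ l ∣ D),
      (if (Sp l ↔ s) then (1 : ℝ) else 0) * g l =
      ∑ l ∈ (Icc 1 X).filter (fun l => l.Prime ∧ C l ∧ ¬ l ∣ D), g l := by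
  have h1 : (Icc 1 X).filter (fun l => l.Prime ∧ C l ∧ ¬ l ∣ D) =
      ((Icc 1 X).filter (fun l => l.Prime ∧ Ca l ∧ ¬ l ∣ D)).filter fun l => (Sp l ↔ s) := by
    ext l
    rw [Finset.mem_filter, Finset.mem_filter, Finset.mem_filter, hC l]
    tauto
  rw [h1, Finset.sum_filter (fun l => (Sp l ↔ s)) g]
  refine Finset.sum_congr rfl fun l _ => ?_
  split_ifs
  · rw [one_mul]
  · rw [zero_mul]

/-- the mean over the primes of one kind, among all the primes -/
theorem av_kind (s : Prop) (D : ℕ) (g : ℕ → ℝ) (L : ℝ)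
    (h : Tendsto (av (CC (kd s)) D g) atTop (𝓝 L)) :
    Tendsto (av Ca D fun l => (if (Sp l ↔ s) then (1 : ℝ) else 0) * g l) atTop (𝓝 (1 / 2 * L)) := by
  have gen : ∀ (C : ℕ → Prop), (∀ l, C l ↔ Ca l ∧ (Sp l ↔ s)) →
      Tendsto (av C D g) atTop (𝓝 L) →
      Tendsto (fun X : ℕ => (((Icc 1 X).filter fun l => l.Prime ∧ C l).card : ℝ) /
        (((Icc 1 X).filter fun l => l.Prime ∧ Ca l).card : ℝ)) atTop (𝓝 (1 / 2)) →
      Tendsto (av Ca D fun l => (if (Sp l ↔ s) then (1 : ℝ) else 0) * g l) atTop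
        (𝓝 (1 / 2 * L)) := by
    intro C hC h1 h2
    have h3 := h1.mul h2
    rw [mul_comm L] at h3
    refine h3.congr fun X => ?_
    show av C D g X * _ = av Ca D _ X
    rw [← mul_div_assoc, ← av_mul, ← sum_kind C s hC]
    rfl
  by_cases hs : s
  · refine gen Cs (fun l => ?_) ?_ half_split
    · unfold Cs Ca Sp
      tauto
    · have e : CC (kd s) = Cs := by
        unfold kd CC
        rw [if_pos hs]
        rfl
      rwa [e] at h
  · refine gen Ci (fun l => ?_) ?_ half_inert
    · unfold Ci Ca Sp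
      tauto
    · have e : CC (kd s) = Ci := by
        unfold kd CC
        rw [if_neg hs]
        rfl
      rwa [e] at h

/-- the indicator of a pattern of kinds -/
noncomputable def Ik {K : ℕ} (s : Fin K → Prop) (x : Fin K → ℕ) : ℝ :=
  if ∀ i, (Sp (x i) ↔ s i) then 1 else 0

theorem Ik_cons {K : ℕ} (s : Fin (K + 1) → Prop) (l : ℕ) (x : Fin K → ℕ) :
    Ik s (Fin.cons l x) = (if (Sp l ↔ s 0) then (1 : ℝ) else 0) * Ik (fun i => s i.succ) x := by
  unfold Ik
  by_cases h1 : (Sp l ↔ s 0)
  · rw [if_pos h1, one_mul]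
    by_cases h2 : ∀ i : Fin K, (Sp (x i) ↔ s i.succ)
    · rw [if_pos h2, if_pos]
      intro i
      refine Fin.cases ?_ (fun j => ?_) i
      · exact h1
      · exact h2 j
    · rw [if_neg h2, if_neg]
      intro h3
      exact h2 fun j => h3 j.succ
  · rw [if_neg h1, zero_mul, if_neg]
    intro h3
    exact h1 (h3 0)

/-- the iterated limit for a pattern of kinds -/
theorem il_pat (T G : ℕ → ℝ)
    (hT : ∀ (D n : ℕ) (P : Fin n → ℕ), Adm D → En D n P → T D = G (cor (MM D P)))
    (τ : ℕ → Fin 3) (K : ℕ) :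
    ∀ (s : Fin K → Prop), (∀ i : Fin K, τ (K - 1 - i) = kd (s i)) →
    ∀ (D n : ℕ) (P : Fin n → ℕ), Adm D → En D n P →
      IL K D (fun x => Ik s x * T (D * ∏ i, x i))
        ((1 / 2) ^ K * PP (fun i => wt (τ i)) G K n (MM D P)) := by
  induction K with
  | zero =>
    intro s _ D n P hD hP x
    show Ik s x * T (D * ∏ i : Fin 0, x i) = _
    rw [Finset.univ_eq_empty, Finset.prod_empty, mul_one, pow_zero, one_mul]
    unfold Ik
    rw [if_pos fun i => i.elim0, one_mul]
    exact (it_main τ T G hT 0 D n P hD hP).1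
  | succ K ih =>
    intro s hs D n P hD hP
    refine ⟨fun l => (if (Sp l ↔ s 0) then (1 : ℝ) else 0) * ((1 / 2) ^ K * it τ T K (D * l)),
      fun l hl hC hlD => ?_, ?_⟩
    · have hA : Adm (D * l) := adm_mul hD hl hC hlD
      obtain ⟨P', hP'⟩ := exists_en (D * l)
      have h1 := ih (fun i => s i.succ) (fun i => by
        have h2 := hs i.succ
        rw [Fin.val_succ] at h2
        have e : K + 1 - 1 - (i + 1) = K - 1 - (i : ℕ) := by omega
        rwa [e] at h2) (D * l) _ P' hA hP'
      rw [← (it_main τ T G hT K (D * l) _ P' hA hP').1] at h1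
      refine IL.congr (fun x _ => ?_) (h1.mul (if (Sp l ↔ s 0) then (1 : ℝ) else 0))
      show _ = Ik s (Fin.cons l x) * T (D * ∏ i, (Fin.cons l x : Fin (K + 1) → ℕ) i)
      rw [Ik_cons, Fin.prod_univ_succ, Fin.cons_zero]
      simp only [Fin.cons_succ]
      rw [← mul_assoc D l]
      ring
    · have h0 := hs 0
      rw [Fin.val_zero] at h0
      have e : K + 1 - 1 - 0 = K := by omega
      rw [e] at h0
      have h1 := (it_main τ T G hT K D n P hD hP).2
      rw [h0] at h1
      have h2 := (av_kind (s 0) D _ _ h1).const_mul ((1 / 2 : ℝ) ^ K)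
      have e2 : (1 / 2 : ℝ) ^ K * (1 / 2 * PP (fun i => wt (τ i)) G (K + 1) n (MM D P)) =
          (1 / 2) ^ (K + 1) * PP (fun i => wt (τ i)) G (K + 1) n (MM D P) := by
        rw [pow_succ]
        ring
      rw [e2] at h2
      refine h2.congr fun X => ?_
      rw [← av_mul_const]
      congr 1
      funext l
      ring

/-- the law for a pattern of kinds -/
theorem chain_pat (τ : ℕ → Fin 3) (hτ : ∀ i, τ i = 0 ∨ τ i = 1) (k : ℕ) : ∀ (μ ν : ℕ → ℝ) (r : ℕ),
    chain (fun i => wt (τ i)) k μ ν r =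
      if ((range (k + 1)).filter fun i => τ i = 1).card = k + 1 then TT^[k] ν r
      else TT^[((range (k + 1)).filter fun i => τ i = 1).card] μ r := by
  induction k with
  | zero =>
    intro μ ν r
    show (1 - wt (τ 0)) * μ r + wt (τ 0) * ν r = _
    have e : range (0 + 1) = {0} := by
      simp
    rw [e, Finset.filter_singleton]
    rcases hτ 0 with h | h
    · rw [h]
      simp [wt]
    · rw [h]
      simp [wt]
  | succ k ih =>
    intro μ ν r
    show (1 - wt (τ (k + 1))) * chain (fun i => wt (τ i)) k μ (TT μ) r +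
      wt (τ (k + 1)) * chain (fun i => wt (τ i)) k (TT μ) (TT ν) r = _
    rw [ih, ih]
    set c := ((range (k + 1)).filter fun i => τ i = 1).card with hc
    have hcle : c ≤ k + 1 := by
      rw [hc]
      refine (Finset.card_filter_le _ _).trans ?_
      rw [Finset.card_range]
    rcases hτ (k + 1) with h | h
    · have e : ((range (k + 1 + 1)).filter fun i => τ i = 1).card = c := by
        rw [Finset.range_add_one, Finset.filter_insert, if_neg (by rw [h]; decide)]
      rw [e, h]
      have hw0 : wt 0 = 0 := by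
        unfold wt
        rw [if_pos rfl]
      rw [hw0, sub_zero, one_mul, zero_mul, add_zero]
      rw [if_neg (show ¬ c = k + 1 + 1 by omega)]
      by_cases h1 : c = k + 1
      · rw [if_pos h1, h1, Function.iterate_succ_apply]
      · rw [if_neg h1]
    · have e : ((range (k + 1 + 1)).filter fun i => τ i = 1).card = c + 1 := by
        rw [Finset.range_add_one, Finset.filter_insert, if_pos h, Finset.card_insert_of_notMem]
        intro h1
        exact Finset.notMem_range_self (Finset.mem_filter.1 h1).1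
      rw [e, h]
      have hw1 : wt 1 = 1 := by
        unfold wt
        rw [if_neg (by decide), if_pos rfl]
      rw [hw1, sub_self, zero_mul, one_mul, zero_add]
      by_cases h1 : c = k + 1
      · rw [if_pos h1, if_pos (by omega), Function.iterate_succ_apply]
      · rw [if_neg h1, if_neg (by omega), Function.iterate_succ_apply]

/-- the law after `K` primes, `b` of them split -/
noncomputable def qq {n : ℕ} (K b : ℕ) (A : Matrix (Fin n) (Fin n) (ZMod 2)) : ℝ :=
  if b = K then TT^[K - 1] (nu A) 0 else TT^[b] (mu A) 0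

/-- the kinds of a set of places, in the reversed order -/
noncomputable def tS {K : ℕ} (S : Finset (Fin K)) (i : ℕ) : Fin 3 :=
  kd (∃ j : Fin K, j ∈ S ∧ (j : ℕ) = K - 1 - i ∧ i < K)

theorem tS_spec {K : ℕ} (S : Finset (Fin K)) (i : Fin K) : tS S (K - 1 - i) = kd (i ∈ S) := by
  unfold tS
  congr 1
  apply propext
  constructor
  · rintro ⟨j, h1, h2, -⟩
    have : j = i := by
      apply Fin.ext
      have := i.2
      omega
    rwa [← this]
  · intro h
    refine ⟨i, h, ?_, ?_⟩
    · have := i.2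
      omega
    · have := i.2
      omega

theorem tS_or {K : ℕ} (S : Finset (Fin K)) (i : ℕ) : tS S i = 0 ∨ tS S i = 1 := by
  unfold tS kd
  split_ifs
  · exact Or.inr rfl
  · exact Or.inl rfl

theorem kd_one {s : Prop} : kd s = 1 ↔ s := by
  unfold kd
  by_cases h : s
  · rw [if_pos h]
    exact ⟨fun _ => h, fun _ => rfl⟩
  · rw [if_neg h]
    exact ⟨fun h1 => absurd h1 (by decide), fun h1 => absurd h1 h⟩

theorem tS_card {K : ℕ} (S : Finset (Fin K)) : ((range K).filter fun i => tS S i = 1).card = S.card := by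
  symm
  refine Finset.card_bij (fun (j : Fin K) _ => K - 1 - (j : ℕ)) ?_ ?_ ?_
  · intro j hj
    rw [Finset.mem_filter, Finset.mem_range]
    refine ⟨by have := j.2; omega, ?_⟩
    rw [tS_spec, kd_one]
    exact hj
  · intro j _ j' _ h
    apply Fin.ext
    have := j.2
    have := j'.2
    omega
  · intro i hi
    obtain ⟨h1, h2⟩ := Finset.mem_filter.1 hi
    unfold tS at h2
    rw [kd_one] at h2
    obtain ⟨j, h3, h4, h5⟩ := h2
    exact ⟨j, h3, by omega⟩

/-- the indicator of the number of the split primes -/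
noncomputable def Jb {K : ℕ} (b : ℕ) (x : Fin K → ℕ) : ℝ :=
  if (univ.filter fun i => Sp (x i)).card = b then 1 else 0

theorem Jb_eq {K : ℕ} (b : ℕ) (x : Fin K → ℕ) :
    Jb b x = ∑ S ∈ (univ : Finset (Fin K)).powersetCard b, Ik (fun i => i ∈ S) x := by
  have h1 : ∀ S ∈ (univ : Finset (Fin K)).powersetCard b, Ik (fun i => i ∈ S) x =
      if S = univ.filter fun i => Sp (x i) then 1 else 0 := by
    intro S _
    unfold Ik
    by_cases h : ∀ i, (Sp (x i) ↔ i ∈ S)
    · rw [if_pos h, if_pos]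
      ext i
      rw [Finset.mem_filter]
      exact ⟨fun h2 => ⟨Finset.mem_univ i, (h i).2 h2⟩, fun h2 => (h i).1 h2.2⟩
    · rw [if_neg h, if_neg]
      intro h2
      apply h
      intro i
      rw [h2, Finset.mem_filter]
      exact ⟨fun h3 => ⟨Finset.mem_univ i, h3⟩, fun h3 => h3.2⟩
  rw [Finset.sum_congr rfl h1, Finset.sum_ite_eq']
  unfold Jb
  by_cases h : (univ.filter fun i => Sp (x i)).card = b
  · rw [if_pos h, if_pos (Finset.mem_powersetCard.2 ⟨Finset.subset_univ _, h⟩)]
  · rw [if_neg h, if_neg fun h2 => h (Finset.mem_powersetCard.1 h2).2]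

/-- the iterated limit with the number of the split primes -/
theorem il_J (T : ℕ → ℝ) (u v : ℝ)
    (hT : ∀ (D n : ℕ) (P : Fin n → ℕ), Adm D → En D n P → T D = uw u v (cor (MM D P)))
    {D n : ℕ} {P : Fin n → ℕ} (hD : Adm D) (hP : En D n P) (k b : ℕ) :
    IL (k + 1) D (fun x => Jb b x * T (D * ∏ i, x i))
      (((k + 1).choose b : ℝ) / 2 ^ (k + 1) * (v + (u - v) * qq (k + 1) b (MM D P))) := by
  have hA : (MM D P).IsSymm := MM_symm hD hP
  have h1 : IL (k + 1) D (fun x => ∑ S ∈ (univ : Finset (Fin (k + 1))).powersetCard b,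
      Ik (fun i => i ∈ S) x * T (D * ∏ i, x i))
      (∑ S ∈ (univ : Finset (Fin (k + 1))).powersetCard b,
        (1 / 2) ^ (k + 1) * (v + (u - v) * qq (k + 1) b (MM D P))) := by
    refine IL.sum _ _ _ fun S hS => ?_
    have h2 := il_pat T (uw u v) hT (tS S) (k + 1) (fun i => i ∈ S) (fun i => tS_spec S i) D n P hD hP
    rw [PP_uw, PP_eq _ 0 k n hA, chain_pat (tS S) (tS_or S) k, tS_card,
      (Finset.mem_powersetCard.1 hS).2] at h2
    unfold qq
    rw [Nat.add_sub_cancel]
    exact h2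
  rw [Finset.sum_const, Finset.card_powersetCard, Finset.card_univ, Fintype.card_fin,
    nsmul_eq_mul] at h1
  have e : ((k + 1).choose b : ℝ) * ((1 / 2) ^ (k + 1) * (v + (u - v) * qq (k + 1) b (MM D P))) =
      ((k + 1).choose b : ℝ) / 2 ^ (k + 1) * (v + (u - v) * qq (k + 1) b (MM D P)) := by
    rw [one_div, inv_pow]
    ring
  rw [e] at h1
  refine IL.congr (fun x _ => ?_) h1
  rw [Jb_eq, Finset.sum_mul]

/-- the number of the split prime factors -/
noncomputable def spn (m : ℕ) : ℕ := (m.primeFactors.filter fun p => Sp p).card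

theorem Jb_spn {K D : ℕ} {x : Fin K → ℕ} (hx : Om K D x) (b : ℕ) :
    Jb b x = if spn (∏ i, x i) = b then 1 else 0 := by
  unfold Jb spn
  rw [(img_pf hx).1, Finset.filter_image, Finset.card_image_of_injective _ hx.2]

/-- **the joint law of the criterion and of the number of the split prime factors** -/
theorem law_mb (T : ℕ → ℝ) (u v : ℝ)
    (hT : ∀ (D n : ℕ) (P : Fin n → ℕ), Adm D → En D n P → T D = uw u v (cor (MM D P)))
    {D n : ℕ} {P : Fin n → ℕ} (hD : Adm D) (hP : En D n P) (k b : ℕ) :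
    Tendsto (fun X : ℕ => (∑ m ∈ Ms (k + 1) D X, (if spn m = b then (1 : ℝ) else 0) * T (D * m)) /
      ((Ms (k + 1) D X).card : ℝ)) atTop
      (𝓝 (((k + 1).choose b : ℝ) / 2 ^ (k + 1) * (v + (u - v) * qq (k + 1) b (MM D P)))) := by
  have hT' : ∀ D, Adm D → T D = if (mat D).det ≠ 0 then u else v := by
    intro D hD
    obtain ⟨P, hP⟩ := exists_en D
    rw [hT D _ P hD hP]
    unfold uw
    by_cases h : (mat D).det ≠ 0
    · rw [if_pos h, if_pos]
      rw [cor_zero_iff, ← det_MM hP]
      exact h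
    · rw [if_neg h, if_neg]
      rw [cor_zero_iff, ← det_MM hP]
      exact h
  obtain ⟨F, hF⟩ := exists_fun (K := k + 1) hD T u v hT'
  have hW : ∀ r ∈ D.primeFactors, r.Prime ∧ r % 4 = 1 := fun r hr =>
    ⟨Nat.prime_of_mem_primeFactors hr, hD.2 r hr⟩
  set F' : (Pl (k + 1) D.primeFactors → ZMod 2) → ℝ := fun w =>
    (if (univ.filter fun i : Fin (k + 1) => w (Sum.inr (Sum.inr (Sum.inr i))) = 0).card = b
      then (1 : ℝ) else 0) * F w with hF'
  have hf : ∀ x, Om (k + 1) D x → Jb b x * T (D * ∏ i, x i) = F' (bit D.primeFactors x) := by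
    intro x hx
    rw [hF x hx, hF']
    show Jb b x * _ = (if (univ.filter fun i : Fin (k + 1) =>
      bit D.primeFactors x (Sum.inr (Sum.inr (Sum.inr i))) = 0).card = b then (1 : ℝ) else 0) * _
    congr 1
    unfold Jb
    have h1 : (univ.filter fun i : Fin (k + 1) => Sp (x i)) = univ.filter fun i : Fin (k + 1) =>
        bit D.primeFactors x (Sum.inr (Sum.inr (Sum.inr i))) = 0 := by
      refine Finset.filter_congr fun i _ => ?_
      show Sp (x i) ↔ ty (x i) = 0
      unfold ty Sp
      by_cases h : IsSquare (-7 : ZMod (x i))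
      · rw [if_pos h]
        exact ⟨fun _ => rfl, fun _ => h⟩
      · rw [if_neg h]
        exact ⟨fun h2 => absurd h2 h, fun h2 => absurd h2 one_ne_zero⟩
    rw [h1]
  have h1 := il_fun hD.1.ne_zero (fun r hr => ⟨(hW r hr).1, (hW r hr).2,
    Nat.dvd_of_mem_primeFactors hr⟩) F' (fun x => Jb b x * T (D * ∏ i, x i)) hf
  have h3 := h1.unique (il_J T u v hT hD hP k b)
  obtain ⟨h4, h5⟩ := law_tuples k hD.1.ne_zero hW F' (∑ w, |F' w|)
    (fun w => Finset.single_le_sum (f := fun w => |F' w|) (fun w _ => abs_nonneg _)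
      (Finset.mem_univ w)) (fun x => Jb b x * T (D * ∏ i, x i)) hf
  rw [h3] at h5
  have hc : ∀ X, ((Oq (k + 1) D X).card : ℝ) =
      ((k + 1).factorial : ℝ) * ((Ms (k + 1) D X).card : ℝ) := by
    intro X
    have := sum_Oq (k + 1) D X fun _ => 1
    rw [← card_as_sum, ← card_as_sum] at this
    exact this
  have hfac : (0 : ℝ) < ((k + 1).factorial : ℝ) := by exact_mod_cast Nat.factorial_pos _
  refine h5.congr fun X => ?_
  have h6 : ∑ x ∈ Oq (k + 1) D X, Jb b x * T (D * ∏ i, x i) = ((k + 1).factorial : ℝ) *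
      ∑ m ∈ Ms (k + 1) D X, (if spn m = b then (1 : ℝ) else 0) * T (D * m) := by
    rw [← sum_Oq (k + 1) D X fun m => (if spn m = b then (1 : ℝ) else 0) * T (D * m)]
    refine Finset.sum_congr rfl fun x hx => ?_
    rw [Jb_spn (mem_Oq.1 hx).1]
  rw [hc, h6, mul_div_mul_left _ _ hfac.ne']

/-- the distance to the limit, and a lower bound -/
theorem qq_facts {n : ℕ} {A : Matrix (Fin n) (Fin n) (ZMod 2)} (hA : A.IsSymm) (K b : ℕ) (hK : 1 ≤ K)
    (hb : b ≤ K) : (1 / 2 : ℝ) ^ (n + b + 1) ≤ qq K b A ∧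
    |qq K b A - lim2| ≤ (∏ i ∈ range n, ((2 : ℝ) ^ (i + 1) - 1)) * (1 / 2) ^ min b (K - 1) := by
  unfold qq
  by_cases h : b = K
  · rw [if_pos h]
    obtain ⟨k, rfl⟩ : ∃ k, K = k + 1 := ⟨K - 1, by omega⟩
    rw [Nat.add_sub_cancel, h]
    have h1 := chain_facts (fun _ => 1) k hA
    rw [chain_pat (fun _ => 1) (fun _ => Or.inr rfl) k] at h1
    have e : ((range (k + 1)).filter fun _ : ℕ => (1 : Fin 3) = 1).card = k + 1 := by
      rw [Finset.filter_true_of_mem (fun _ _ => rfl), Finset.card_range]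
    rw [e, if_pos rfl] at h1
    have e2 : ∏ i ∈ range k, (1 - wt 1 / 2) = (1 / 2 : ℝ) ^ k := by
      rw [Finset.prod_const, Finset.card_range]
      congr 1
      unfold wt
      rw [if_neg (by decide), if_pos rfl]
      norm_num
    rw [e2] at h1
    have e3 : min (k + 1) k = k := by omega
    rw [e3]
    refine ⟨le_trans ?_ h1.1, h1.2⟩
    exact pow_le_pow_of_le_one (by norm_num) (by norm_num) (by omega)
  · rw [if_neg h]
    have h1 := chain_facts (fun i => if i = 0 then 0 else 1) b hA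
    rw [chain_pat (fun i => if i = 0 then 0 else 1) (fun i => by
      by_cases hi : i = 0
      · exact Or.inl (if_pos hi)
      · exact Or.inr (if_neg hi)) b] at h1
    have e : ((range (b + 1)).filter fun i : ℕ => (if i = 0 then (0 : Fin 3) else 1) = 1).card = b := by
      have e1 : ((range (b + 1)).filter fun i : ℕ => (if i = 0 then (0 : Fin 3) else 1) = 1) =
          (range (b + 1)).erase 0 := by
        ext i
        rw [Finset.mem_filter, Finset.mem_erase]
        by_cases hi : i = 0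
        · rw [if_pos hi]
          exact ⟨fun h2 => absurd h2.2 (by decide), fun h2 => absurd hi h2.1⟩
        · rw [if_neg hi]
          exact ⟨fun h2 => ⟨hi, h2.1⟩, fun h2 => ⟨h2.2, rfl⟩⟩
      rw [e1, Finset.card_erase_of_mem (Finset.mem_range.2 (by omega)), Finset.card_range,
        Nat.add_sub_cancel]
    rw [e, if_neg (by omega)] at h1
    have e2 : ∏ i ∈ range b, (1 - wt (if i + 1 = 0 then 0 else 1) / 2) = (1 / 2 : ℝ) ^ b := by
      rw [Finset.prod_congr rfl (g := fun _ => (1 / 2 : ℝ)) (fun i _ => by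
        rw [if_neg (Nat.succ_ne_zero i)]
        unfold wt
        rw [if_neg (by decide), if_pos rfl]
        norm_num), Finset.prod_const, Finset.card_range]
    rw [e2] at h1
    have e3 : min b (K - 1) = b := by omega
    rw [e3]
    have e4 : n + b + 1 = n + 1 + b := by omega
    rw [e4]
    exact h1

/-- **the law for all the numbers with exactly `k + 1` prime factors** -/
theorem law_total (T : ℕ → ℝ) (u v : ℝ)
    (hT : ∀ (D n : ℕ) (P : Fin n → ℕ), Adm D → En D n P → T D = uw u v (cor (MM D P)))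
    {D n : ℕ} {P : Fin n → ℕ} (hD : Adm D) (hP : En D n P) (k : ℕ) :
    Tendsto (fun X : ℕ => (∑ m ∈ Ms (k + 1) D X, T (D * m)) / ((Ms (k + 1) D X).card : ℝ)) atTop
      (𝓝 (∑ b ∈ range (k + 2), ((k + 1).choose b : ℝ) / 2 ^ (k + 1) *
        (v + (u - v) * qq (k + 1) b (MM D P)))) ∧
    (∑ b ∈ range (k + 2), ((k + 1).choose b : ℝ) / 2 ^ (k + 1) *
        (v + (u - v) * qq (k + 1) b (MM D P))) =
      v + (u - v) * chain (fun _ => wt 2) k (mu (MM D P)) (nu (MM D P)) 0 := by
  have h1 : Tendsto (fun X : ℕ => (∑ m ∈ Ms (k + 1) D X, T (D * m)) /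
      ((Ms (k + 1) D X).card : ℝ)) atTop
      (𝓝 (∑ b ∈ range (k + 2), ((k + 1).choose b : ℝ) / 2 ^ (k + 1) *
        (v + (u - v) * qq (k + 1) b (MM D P)))) := by
    have h2 := tendsto_finsetSum (range (k + 2)) fun b _ => law_mb T u v hT hD hP k b
    refine h2.congr fun X => ?_
    rw [← Finset.sum_div, Finset.sum_comm]
    congr 1
    refine Finset.sum_congr rfl fun m hm => ?_
    rw [← Finset.sum_mul]
    have h3 : spn m ∈ range (k + 2) := by
      have h4 := (mem_Ms.1 hm).2.2.1
      have h5 : spn m ≤ m.primeFactors.card := Finset.card_filter_le _ _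
      rw [Finset.mem_range]
      omega
    rw [Finset.sum_ite_eq, if_pos h3, one_mul]
  refine ⟨h1, ?_⟩
  have h2 := (law_m T u v hT hD hP k).2
  rw [PP_uw, PP_eq _ 0 k n (MM_symm hD hP)] at h2
  exact tendsto_nhds_unique h1 h2

end Pool.Agent.U687.NO
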