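import Pool.Agent.U687.NO.Lin
import Pool.Agent.Y710.CQ.BIL

/-!
# Bilinear sums of quadratic symbols over a hyperbola
-/

set_option autoImplicit false
set_option linter.unusedSectionVars false

open scoped Classical

namespace Pool.Agent.U687.NO

open Finset Filter Topology
open Pool.Agent.U687.Q2 (av Ca)
open Pool.Agent.U687.JT (nr2 n47)
open Pool.Agent.Y710.CQ (xi sg_xi bil xi_norm)

theorem sn_xi {p q : ℕ} (hp : p.Prime) (hq : q.Prime) (hne : p ≠ q) :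
    ((sn (nr2 p q) : ℝ) : ℂ) = xi p q := by
  rw [← sg_xi hp hq hne]
  unfold Pool.Agent.Y703.CQ.sg Pool.Agent.Y703.CQ.nr sn nr2
  by_cases h : IsSquare (q : ZMod p)
  · rw [if_pos h]
    simp
  · rw [if_neg h]
    simp

/-- the bilinear sum over a rectangle, the moduli in the shorter side -/
theorem rect0 {T P : Finset ℕ} {M L W Z : ℕ} (hML : M ≤ L)
    (hT : ∀ p ∈ T, p.Prime ∧ p % 4 = 1 ∧ p ≤ M) (hP : ∀ q ∈ P, q.Prime ∧ q % 4 = 1 ∧ q ≤ L)
    (hW : 1 ≤ W) (hWM : W ^ 12 ≤ M) (hZ : M * L ≤ Z) (f g : ℕ → ℝ) (hf : ∀ p, |f p| ≤ 1)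
    (hg : ∀ q, |g q| ≤ 1) :
    |∑ p ∈ T, ∑ q ∈ P, f p * g q * sn (nr2 p q)| ≤ 5 * (Z / W) := by
  have hM : 1 ≤ M := (Nat.one_le_pow _ _ hW).trans hWM
  have hWM' : W ≤ M := (Nat.le_self_pow (by norm_num) W).trans hWM
  have hWr : (0 : ℝ) < W := by exact_mod_cast hW
  have hb := bil (T := T) (P := P) hM hML (fun p hp => ⟨(hT p hp).1, by
    have := (hT p hp).2.1
    omega, (hT p hp).2.2⟩) (fun q hq => ⟨(hP q hq).1, by
    have := (hP q hq).2.1
    omega, (hP q hq).2.2⟩) (fun p => (f p : ℂ)) (fun q => (g q : ℂ))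
    (fun p => by rw [Complex.norm_real]; exact hf p) (fun q => by rw [Complex.norm_real]; exact hg q)
  set B : ℂ := ∑ m ∈ T, ∑ x ∈ P, (f m : ℂ) * (g x : ℂ) * xi m x with hB
  have h1 : ‖B‖ * W ≤ 3 * Z := by
    have h2 : (‖B‖ * W) ^ 12 ≤ (3 * (Z : ℝ)) ^ 12 := by
      have hWM2 : (W : ℝ) ^ 12 ≤ M := by exact_mod_cast hWM
      have hZ2 : (M : ℝ) * L ≤ Z := by exact_mod_cast hZ
      calc (‖B‖ * W) ^ 12 = ‖B‖ ^ 12 * (W : ℝ) ^ 12 := by rw [mul_pow]
        _ ≤ (3 * 6 ^ 6 * ((M : ℝ) ^ 11 * (L : ℝ) ^ 12)) * M := by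
            apply mul_le_mul hb hWM2 (by positivity) (by positivity)
        _ = 3 * 6 ^ 6 * ((M : ℝ) * L) ^ 12 := by ring
        _ ≤ 3 * 6 ^ 6 * (Z : ℝ) ^ 12 := by
            apply mul_le_mul_of_nonneg_left _ (by norm_num)
            exact pow_le_pow_left₀ (by positivity) hZ2 12
        _ ≤ 3 ^ 12 * (Z : ℝ) ^ 12 := by
            apply mul_le_mul_of_nonneg_right _ (by positivity)
            norm_num
        _ = (3 * (Z : ℝ)) ^ 12 := by ring
    exact le_of_pow_le_pow_left₀ (by norm_num) (by positivity) h2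
  have h3 : ‖((∑ p ∈ T, ∑ q ∈ P, f p * g q * sn (nr2 p q) : ℝ) : ℂ) - B‖ ≤ 2 * M := by
    rw [hB]
    push_cast
    rw [← Finset.sum_sub_distrib]
    refine (norm_sum_le _ _).trans ?_
    have h4 : ∀ p ∈ T, ‖∑ q ∈ P, (f p : ℂ) * (g q : ℂ) * ((sn (nr2 p q) : ℝ) : ℂ) -
        ∑ x ∈ P, (f p : ℂ) * (g x : ℂ) * xi p x‖ ≤ 2 := by
      intro p hp
      rw [← Finset.sum_sub_distrib]
      have h5 : ∀ q ∈ P, (f p : ℂ) * (g q : ℂ) * ((sn (nr2 p q) : ℝ) : ℂ) -
          (f p : ℂ) * (g q : ℂ) * xi p q =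
          if q = p then (f p : ℂ) * (g p : ℂ) * (((sn (nr2 p p) : ℝ) : ℂ) - xi p p) else 0 := by
        intro q hq
        split_ifs with h
        · rw [h]
          ring
        · rw [sn_xi (hT p hp).1 (hP q hq).1 (Ne.symm h)]
          ring
      rw [Finset.sum_congr rfl h5, Finset.sum_ite_eq']
      split_ifs
      · rw [norm_mul, norm_mul, Complex.norm_real, Complex.norm_real]
        have h6 : ‖((sn (nr2 p p) : ℝ) : ℂ) - xi p p‖ ≤ 2 := by
          refine (norm_sub_le _ _).trans ?_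
          rw [Complex.norm_real, Real.norm_eq_abs, sn_abs]
          have := xi_norm p p
          linarith
        have h7 : ‖f p‖ * ‖g p‖ ≤ 1 := mul_le_one₀ (hf p) (norm_nonneg _) (hg p)
        calc ‖f p‖ * ‖g p‖ * ‖((sn (nr2 p p) : ℝ) : ℂ) - xi p p‖ ≤ 1 * 2 :=
              mul_le_mul h7 h6 (norm_nonneg _) (by norm_num)
          _ = 2 := by norm_num
      · rw [norm_zero]
        norm_num
    refine (Finset.sum_le_sum h4).trans ?_
    rw [Finset.sum_const, nsmul_eq_mul]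
    have h5 : T ⊆ Icc 1 M := fun p hp => Finset.mem_Icc.2 ⟨(hT p hp).1.one_lt.le, (hT p hp).2.2⟩
    have h6 := Finset.card_le_card h5
    rw [Nat.card_Icc, Nat.add_sub_cancel] at h6
    have h7 : (T.card : ℝ) ≤ M := by exact_mod_cast h6
    linarith
  have h4 : |∑ p ∈ T, ∑ q ∈ P, f p * g q * sn (nr2 p q)| ≤ ‖B‖ + 2 * M := by
    have h5 : |∑ p ∈ T, ∑ q ∈ P, f p * g q * sn (nr2 p q)| =
        ‖((∑ p ∈ T, ∑ q ∈ P, f p * g q * sn (nr2 p q) : ℝ) : ℂ)‖ := by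
      rw [Complex.norm_real, Real.norm_eq_abs]
    rw [h5]
    have h6 := norm_sub_norm_le ((∑ p ∈ T, ∑ q ∈ P, f p * g q * sn (nr2 p q) : ℝ) : ℂ) B
    linarith
  have h5 : (M : ℝ) * W ≤ Z := by
    exact_mod_cast (Nat.mul_le_mul_left M (hWM'.trans hML)).trans hZ
  rw [mul_div_assoc', le_div_iff₀ hWr]
  calc |∑ p ∈ T, ∑ q ∈ P, f p * g q * sn (nr2 p q)| * W ≤ (‖B‖ + 2 * M) * W :=
        mul_le_mul_of_nonneg_right h4 hWr.le
    _ = ‖B‖ * W + 2 * (M * W) := by ring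
    _ ≤ 3 * Z + 2 * Z := by linarith
    _ = 5 * Z := by ring

/-- the bilinear sum over a rectangle -/
theorem rect {T P : Finset ℕ} {M L W Z : ℕ}
    (hT : ∀ p ∈ T, p.Prime ∧ p % 4 = 1 ∧ p ≤ M) (hP : ∀ q ∈ P, q.Prime ∧ q % 4 = 1 ∧ q ≤ L)
    (hW : 1 ≤ W) (hWM : W ^ 12 ≤ M) (hWL : W ^ 12 ≤ L) (hZ : M * L ≤ Z) (f g : ℕ → ℝ)
    (hf : ∀ p, |f p| ≤ 1) (hg : ∀ q, |g q| ≤ 1) :
    |∑ p ∈ T, ∑ q ∈ P, f p * g q * sn (nr2 p q)| ≤ 5 * (Z / W) := by
  rcases le_total M L with h | h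
  · exact rect0 h hT hP hW hWM hZ f g hf hg
  · have h1 := rect0 (Z := Z) h hP hT hW hWL (by rw [mul_comm]; exact hZ) g f hg hf
    have h2 : ∑ p ∈ T, ∑ q ∈ P, f p * g q * sn (nr2 p q) =
        ∑ q ∈ P, ∑ p ∈ T, g q * f p * sn (nr2 q p) := by
      rw [Finset.sum_comm]
      refine Finset.sum_congr rfl fun q hq => Finset.sum_congr rfl fun p hp => ?_
      rw [nr2_symm (hT p hp).1 (hP q hq).1 (hT p hp).2.1 (hP q hq).2.1]
      ring
    rw [h2]
    exact h1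

/-- the large primes -/
noncomputable def Lpr (X Lg : ℕ) : Finset ℕ := (pr X).filter fun p => (Lg ^ 6) ^ 12 < p

theorem mem_Lpr {X Lg p : ℕ} : p ∈ Lpr X Lg ↔ (p ≤ X ∧ p.Prime ∧ Ca p) ∧ (Lg ^ 6) ^ 12 < p := by
  unfold Lpr
  rw [Finset.mem_filter, mem_pr]

/-- pairs of primes with product in a short interval -/
theorem bdry {Q : Finset ℕ} (hQ : ∀ p ∈ Q, p.Prime) (Z H : ℕ) (hH : 1 ≤ H)
    (s : Finset (ℕ × ℕ)) (hs : ∀ z ∈ s, z.1 ∈ Q ∧ z.2 ∈ Q ∧ z.1 * z.2 ≤ Z ∧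
      (Z : ℝ) * (1 - 1 / H) < ((z.1 * z.2 : ℕ) : ℝ)) : (s.card : ℝ) ≤ 2 * (Z / H + 1) := by
  have h1 : s.card ≤ 2 * (s.image fun z => z.1 * z.2).card := by
    refine Finset.card_le_mul_card_image s 2 fun m hm => ?_
    obtain ⟨z, hz, rfl⟩ := Finset.mem_image.1 hm
    refine (Finset.card_le_card (t := {(z.1, z.2), (z.2, z.1)}) fun w hw => ?_).trans Finset.card_le_two
    obtain ⟨hw1, hw2⟩ := Finset.mem_filter.1 hw
    have hz' := hs z hz
    have hw' := hs w hw1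
    have p1 := hQ _ hz'.1
    have p2 := hQ _ hz'.2.1
    have p3 := hQ _ hw'.1
    have p4 := hQ _ hw'.2.1
    have hd : w.1 ∣ z.1 * z.2 := by
      rw [← hw2]
      exact dvd_mul_right _ _
    rw [Finset.mem_insert, Finset.mem_singleton]
    rcases (Nat.Prime.dvd_mul p3).1 hd with h | h
    · left
      have e1 : w.1 = z.1 := (Nat.prime_dvd_prime_iff_eq p3 p1).1 h
      rw [e1] at hw2
      have e2 := Nat.eq_of_mul_eq_mul_left p1.pos hw2
      exact Prod.ext e1 e2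
    · right
      have e1 : w.1 = z.2 := (Nat.prime_dvd_prime_iff_eq p3 p2).1 h
      rw [e1, mul_comm z.1] at hw2
      have e2 := Nat.eq_of_mul_eq_mul_left p2.pos hw2
      exact Prod.ext e1 e2
  have hHr : (0 : ℝ) < H := by exact_mod_cast hH
  have h2 : (s.image fun z => z.1 * z.2) ⊆ Icc (Z - Z / H) Z := by
    intro m hm
    obtain ⟨z, hz, rfl⟩ := Finset.mem_image.1 hm
    obtain ⟨-, -, g1, g2⟩ := hs z hz
    rw [Finset.mem_Icc]
    refine ⟨?_, g1⟩
    rw [Nat.sub_le_iff_le_add]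
    have g3 : Z - z.1 * z.2 ≤ Z / H := by
      rw [Nat.le_div_iff_mul_le hH]
      have g4 : ((Z - z.1 * z.2 : ℕ) : ℝ) * H ≤ Z := by
        rw [Nat.cast_sub g1]
        have g5 : ((Z : ℝ) - ((z.1 * z.2 : ℕ) : ℝ)) < Z * (1 / H) := by linarith
        calc ((Z : ℝ) - ((z.1 * z.2 : ℕ) : ℝ)) * H ≤ Z * (1 / H) * H :=
              mul_le_mul_of_nonneg_right g5.le hHr.le
          _ = Z := by field_simp
      exact_mod_cast g4
    omega
  have h3 := Finset.card_le_card h2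
  rw [Nat.card_Icc] at h3
  have h4 : s.card ≤ 2 * (Z / H + 1) := by
    have : Z / H ≤ Z := Nat.div_le_self _ _
    omega
  have h5 : ((Z / H : ℕ) : ℝ) ≤ (Z : ℝ) / H := Nat.cast_div_le
  have h6 : (s.card : ℝ) ≤ 2 * (((Z / H : ℕ) : ℝ) + 1) := by exact_mod_cast h4
  linarith

/-- **the bilinear sum over a hyperbola** -/
theorem hyp {X Z Lg : ℕ} (h1 : 1 ≤ Lg) (hL : Real.log X ≤ Lg) (f g : ℕ → ℝ)
    (hf : ∀ p, |f p| ≤ 1) (hg : ∀ q, |g q| ≤ 1) :
    |∑ p ∈ Lpr X Lg, ∑ q ∈ (Lpr X Lg).filter (fun q => p * q ≤ Z), f p * g q * sn (nr2 p q)| ≤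
      14 * (Z / (Lg : ℝ) ^ 2) := by
  set Q := Lpr X Lg with hQ
  have hLr : (1 : ℝ) ≤ Lg := by exact_mod_cast h1
  have hLp : (0 : ℝ) < Lg := by linarith
  by_cases hZ : Z < Lg ^ 2
  · have h2 : ∀ p ∈ Q, Q.filter (fun q => p * q ≤ Z) = ∅ := by
      intro p hp
      refine Finset.filter_eq_empty_iff.2 fun {q} hq hpq => ?_
      have hp' := (mem_Lpr.1 hp).2
      have hq' := (mem_Lpr.1 hq).1.2.1.pos
      have h3 : Lg ^ 2 ≤ (Lg ^ 6) ^ 12 := by
        rw [← pow_mul]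
        exact Nat.pow_le_pow_right h1 (by norm_num)
      have h4 : p ≤ p * q := Nat.le_mul_of_pos_right p hq'
      omega
    rw [Finset.sum_congr rfl fun p hp => by rw [h2 p hp, Finset.sum_empty]]
    rw [Finset.sum_const_zero, abs_zero]
    positivity
  have hZ' : Lg ^ 2 ≤ Z := not_lt.1 hZ
  -- the blocks
  set H : ℕ := Lg ^ 2 with hH
  set W : ℕ := Lg ^ 6 with hW
  have hH1 : 1 ≤ H := Nat.one_le_pow _ _ h1
  have hHr : (0 : ℝ) < H := by exact_mod_cast hH1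
  have hW1 : 1 ≤ W := Nat.one_le_pow _ _ h1
  set k : ℕ → ℕ := fun p => ⌊(H : ℝ) * Real.log p⌋₊ with hk
  set E : ℕ → ℝ := fun m => Real.exp ((m + 1) / H) with hE
  set V : ℕ → ℕ := fun m => ⌊(Z : ℝ) / E m⌋₊ with hV
  set N : ℕ := H * Lg + 1 with hN
  have hEp : ∀ m, 0 < E m := fun m => Real.exp_pos _
  have kb : ∀ p : ℕ, 1 ≤ p → (p : ℝ) < E (k p) ∧ E (k p) ≤ p * Real.exp (1 / H) := by
    intro p hp
    have hpr : (0 : ℝ) < p := by exact_mod_cast hp
    have hl0 : 0 ≤ Real.log p := Real.log_natCast_nonneg p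
    have h2 : (H : ℝ) * Real.log p < (k p : ℝ) + 1 := Nat.lt_floor_add_one _
    have h3 : (k p : ℝ) ≤ (H : ℝ) * Real.log p := Nat.floor_le (by positivity)
    constructor
    · have h4 : Real.log p < ((k p : ℝ) + 1) / H := by
        rw [lt_div_iff₀ hHr]
        linarith
      calc (p : ℝ) = Real.exp (Real.log p) := (Real.exp_log hpr).symm
        _ < _ := Real.exp_lt_exp.2 h4
    · have h4 : ((k p : ℝ) + 1) / H ≤ Real.log p + 1 / H := by
        rw [add_div]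
        have : (k p : ℝ) / H ≤ Real.log p := by
          rw [div_le_iff₀ hHr]
          linarith
        linarith
      calc E (k p) ≤ Real.exp (Real.log p + 1 / H) := Real.exp_le_exp.2 h4
        _ = p * Real.exp (1 / H) := by rw [Real.exp_add, Real.exp_log hpr]
  have hkN : ∀ p ∈ Q, k p ∈ range N := by
    intro p hp
    rw [Finset.mem_range, hN, Nat.lt_succ_iff]
    have hp' := mem_Lpr.1 hp
    have hpr : (0 : ℝ) < p := by exact_mod_cast hp'.1.2.1.pos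
    have h2 : Real.log p ≤ Lg := (Real.log_le_log hpr (by exact_mod_cast hp'.1.1)).trans hL
    have h3 : (H : ℝ) * Real.log p ≤ ((H * Lg : ℕ) : ℝ) := by
      push_cast
      exact mul_le_mul_of_nonneg_left h2 hHr.le
    exact Nat.floor_le_of_le h3
  -- the splitting
  have hsplit : ∀ p ∈ Q, ∑ q ∈ Q.filter (fun q => p * q ≤ Z), f p * g q * sn (nr2 p q) =
      ∑ q ∈ Q.filter (fun q => q ≤ V (k p)), f p * g q * sn (nr2 p q) +
      ∑ q ∈ Q.filter (fun q => p * q ≤ Z ∧ V (k p) < q), f p * g q * sn (nr2 p q) := by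
    intro p hp
    have hp1 : 1 ≤ p := (mem_Lpr.1 hp).1.2.1.one_lt.le
    have hpr : (0 : ℝ) ≤ p := Nat.cast_nonneg p
    rw [← Finset.sum_filter_add_sum_filter_not (Q.filter fun q => p * q ≤ Z)
      (fun q => q ≤ V (k p))]
    rw [Finset.filter_filter, Finset.filter_filter]
    congr 1
    · refine Finset.sum_congr ?_ fun _ _ => rfl
      ext q
      simp only [Finset.mem_filter]
      constructor
      · rintro ⟨g1, -, g3⟩
        exact ⟨g1, g3⟩
      · rintro ⟨g1, g3⟩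
        refine ⟨g1, ?_, g3⟩
        have g4 : (q : ℝ) ≤ Z / E (k p) :=
          (by exact_mod_cast g3 : (q : ℝ) ≤ (V (k p) : ℝ)).trans
            (Nat.floor_le (div_nonneg (Nat.cast_nonneg _) (hEp _).le))
        rw [le_div_iff₀ (hEp _)] at g4
        have g5 : ((p * q : ℕ) : ℝ) ≤ Z := by
          push_cast
          calc (p : ℝ) * q ≤ E (k p) * q :=
                mul_le_mul_of_nonneg_right (kb p hp1).1.le (Nat.cast_nonneg _)
            _ = q * E (k p) := mul_comm _ _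
            _ ≤ Z := g4
        exact_mod_cast g5
    · refine Finset.sum_congr ?_ fun _ _ => rfl
      ext q
      simp only [Finset.mem_filter, not_le]
  rw [Finset.sum_congr rfl hsplit, Finset.sum_add_distrib]
  -- the main part
  have hmain : |∑ p ∈ Q, ∑ q ∈ Q.filter (fun q => q ≤ V (k p)), f p * g q * sn (nr2 p q)| ≤
      N * (5 * ((Z : ℝ) / W)) := by
    rw [← Finset.sum_fiberwise_of_maps_to hkN]
    refine (Finset.abs_sum_le_sum_abs _ _).trans ?_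
    have h2 : ∀ m ∈ range N, |∑ p ∈ Q.filter (fun p => k p = m),
        ∑ q ∈ Q.filter (fun q => q ≤ V (k p)), f p * g q * sn (nr2 p q)| ≤ 5 * ((Z : ℝ) / W) := by
      intro m _
      have h3 : ∑ p ∈ Q.filter (fun p => k p = m),
          ∑ q ∈ Q.filter (fun q => q ≤ V (k p)), f p * g q * sn (nr2 p q) =
          ∑ p ∈ Q.filter (fun p => k p = m), ∑ q ∈ Q.filter (fun q => q ≤ V m),
            f p * g q * sn (nr2 p q) := by
        refine Finset.sum_congr rfl fun p hp => ?_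
        rw [(Finset.mem_filter.1 hp).2]
      rw [h3]
      by_cases hT : (Q.filter fun p => k p = m) = ∅
      · rw [hT, Finset.sum_empty, abs_zero]
        positivity
      by_cases hP : (Q.filter fun q => q ≤ V m) = ∅
      · rw [hP]
        simp only [Finset.sum_empty, Finset.sum_const_zero, abs_zero]
        positivity
      obtain ⟨p0, hp0⟩ := Finset.nonempty_iff_ne_empty.2 hT
      obtain ⟨q0, hq0⟩ := Finset.nonempty_iff_ne_empty.2 hP
      have hUle : ∀ p ∈ Q.filter (fun p => k p = m), p ≤ ⌊E m⌋₊ := by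
        intro p hp
        obtain ⟨g1, g2⟩ := Finset.mem_filter.1 hp
        have g3 := (kb p (mem_Lpr.1 g1).1.2.1.one_lt.le).1
        rw [g2] at g3
        exact Nat.le_floor g3.le
      refine rect (M := ⌊E m⌋₊) (L := V m) (fun p hp => ?_) (fun q hq => ?_) hW1 ?_ ?_ ?_ f g hf hg
      · have g1 := (mem_Lpr.1 (Finset.mem_filter.1 hp).1).1.2
        exact ⟨g1.1, g1.2, hUle p hp⟩
      · have g1 := (mem_Lpr.1 (Finset.mem_filter.1 hq).1).1.2
        exact ⟨g1.1, g1.2, (Finset.mem_filter.1 hq).2⟩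
      · exact (mem_Lpr.1 (Finset.mem_filter.1 hp0).1).2.le.trans (hUle p0 hp0)
      · exact (mem_Lpr.1 (Finset.mem_filter.1 hq0).1).2.le.trans (Finset.mem_filter.1 hq0).2
      · have g1 : ((⌊E m⌋₊ * V m : ℕ) : ℝ) ≤ Z := by
          push_cast
          calc (⌊E m⌋₊ : ℝ) * (V m : ℝ) ≤ E m * (Z / E m) := by
                apply mul_le_mul (Nat.floor_le (hEp m).le)
                  (Nat.floor_le (div_nonneg (Nat.cast_nonneg _) (hEp m).le))
                  (Nat.cast_nonneg _) (hEp m).le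
            _ = Z := by
                have := (hEp m).ne'
                field_simp
        exact_mod_cast g1
    refine (Finset.sum_le_sum h2).trans ?_
    rw [Finset.sum_const, Finset.card_range, nsmul_eq_mul]
  -- the boundary
  have hbd : |∑ p ∈ Q, ∑ q ∈ Q.filter (fun q => p * q ≤ Z ∧ V (k p) < q),
      f p * g q * sn (nr2 p q)| ≤ 2 * ((Z : ℝ) / H + 1) := by
    set s : Finset (ℕ × ℕ) := (Q ×ˢ Q).filter fun z => z.1 * z.2 ≤ Z ∧ V (k z.1) < z.2 with hs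
    have h2 := bdry (Q := Q) (fun p hp => (mem_Lpr.1 hp).1.2.1) Z H hH1 s (by
      intro z hz
      obtain ⟨g1, g2, g3⟩ := Finset.mem_filter.1 hz
      obtain ⟨g4, g5⟩ := Finset.mem_product.1 g1
      refine ⟨g4, g5, g2, ?_⟩
      have hz1 : 1 ≤ z.1 := (mem_Lpr.1 g4).1.2.1.one_lt.le
      have g6 : (Z : ℝ) / E (k z.1) < z.2 := by
        have : (Z : ℝ) / E (k z.1) < (V (k z.1) : ℝ) + 1 := Nat.lt_floor_add_one _
        have h7 : ((V (k z.1) : ℕ) : ℝ) + 1 ≤ z.2 := by exact_mod_cast g3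
        linarith
      rw [div_lt_iff₀ (hEp _)] at g6
      have g7 := (kb z.1 hz1).2
      have hz2 : (0 : ℝ) ≤ z.2 := Nat.cast_nonneg _
      have g8 : (Z : ℝ) < ((z.1 * z.2 : ℕ) : ℝ) * Real.exp (1 / H) := by
        push_cast
        calc (Z : ℝ) < z.2 * E (k z.1) := g6
          _ ≤ z.2 * (z.1 * Real.exp (1 / H)) := mul_le_mul_of_nonneg_left g7 hz2
          _ = _ := by ring
      have g9 : 1 - 1 / (H : ℝ) ≤ Real.exp (-(1 / H)) := by
        have := Real.add_one_le_exp (-(1 / (H : ℝ)))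
        linarith
      have g10 : Real.exp (1 / (H : ℝ)) * Real.exp (-(1 / H)) = 1 := by
        rw [← Real.exp_add, add_neg_cancel, Real.exp_zero]
      calc (Z : ℝ) * (1 - 1 / H) ≤ Z * Real.exp (-(1 / H)) :=
            mul_le_mul_of_nonneg_left g9 (Nat.cast_nonneg _)
        _ < ((z.1 * z.2 : ℕ) : ℝ) * Real.exp (1 / H) * Real.exp (-(1 / H)) :=
            mul_lt_mul_of_pos_right g8 (Real.exp_pos _)
        _ = ((z.1 * z.2 : ℕ) : ℝ) := by rw [mul_assoc, g10, mul_one])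
    refine le_trans ?_ h2
    have h3 : ∑ p ∈ Q, ∑ q ∈ Q.filter (fun q => p * q ≤ Z ∧ V (k p) < q),
        f p * g q * sn (nr2 p q) = ∑ z ∈ s, f z.1 * g z.2 * sn (nr2 z.1 z.2) := by
      rw [hs, Finset.sum_filter, Finset.sum_product]
      refine Finset.sum_congr rfl fun p _ => ?_
      rw [Finset.sum_filter]
    rw [h3]
    refine (Finset.abs_sum_le_sum_abs _ _).trans ?_
    rw [card_as_sum]
    refine Finset.sum_le_sum fun z _ => ?_
    rw [abs_mul, abs_mul, sn_abs, mul_one]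
    exact mul_le_one₀ (hf _) (abs_nonneg _) (hg _)
  refine (abs_add_le _ _).trans ((add_le_add hmain hbd).trans ?_)
  have hZr : (Lg : ℝ) ^ 2 ≤ Z := by exact_mod_cast hZ'
  have e1 : (1 : ℝ) ≤ Z / (Lg : ℝ) ^ 2 := by
    rw [le_div_iff₀ (by positivity), one_mul]
    exact hZr
  have e2 : (N : ℝ) * (5 * ((Z : ℝ) / W)) ≤ 10 * (Z / (Lg : ℝ) ^ 2) := by
    rw [hN, hW, hH]
    push_cast
    have e3 : ((Lg : ℝ) ^ 2 * Lg + 1) ≤ 2 * (Lg : ℝ) ^ 4 := by
      have i1 : (Lg : ℝ) ^ 2 * Lg ≤ (Lg : ℝ) ^ 4 := by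
        rw [← pow_succ]
        exact pow_le_pow_right₀ hLr (by norm_num)
      have i2 : (1 : ℝ) ≤ (Lg : ℝ) ^ 4 := one_le_pow₀ hLr
      linarith
    calc ((Lg : ℝ) ^ 2 * Lg + 1) * (5 * ((Z : ℝ) / (Lg : ℝ) ^ 6)) ≤
          2 * (Lg : ℝ) ^ 4 * (5 * ((Z : ℝ) / (Lg : ℝ) ^ 6)) :=
          mul_le_mul_of_nonneg_right e3 (by positivity)
      _ = 10 * (Z / (Lg : ℝ) ^ 2) := by
          field_simp
          ring
  have e3 : 2 * ((Z : ℝ) / H + 1) ≤ 4 * (Z / (Lg : ℝ) ^ 2) := by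
    rw [hH]
    push_cast
    linarith
  linarith

end Pool.Agent.U687.NO
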