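import Pool.Agent.U687.NO.Glue

/-!
# Averages of cylinders of symbols over tuples with bounded product
-/

set_option autoImplicit false
set_option linter.unusedSectionVars false

open scoped Classical

namespace Pool.Agent.U687.NO

open Finset Filter Topology
open Pool.Agent.U687.Q2 (av Ca)
open Pool.Agent.U687.JT (nr2 n47)

/-- a function with the factor `nr2 (x i) (x j)` -/
theorem Sep.sm {K : ℕ} {i j : Fin K} (hne : i ≠ j) {Ψ Φ : (Fin K → ℕ) → ℝ} (hsep : Sep i j Ψ)
    (hΦ : ∀ x, Φ x = sn (nr2 (x i) (x j)) * Ψ x) : Sm i j Φ := by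
  intro X Z Lg y h1 hL
  obtain ⟨f, g, hf, hg, hfg⟩ := hsep y
  have h2 : ∑ q ∈ Lpr X Lg, ∑ p ∈ (Lpr X Lg).filter (fun p => p * q ≤ Z),
      Φ (Function.update (Function.update y j q) i p) =
      ∑ q ∈ Lpr X Lg, ∑ p ∈ (Lpr X Lg).filter (fun p => q * p ≤ Z), g q * f p * sn (nr2 q p) := by
    refine Finset.sum_congr rfl fun q hq => ?_
    have h3 : (Lpr X Lg).filter (fun p => p * q ≤ Z) = (Lpr X Lg).filter (fun p => q * p ≤ Z) :=
      Finset.filter_congr fun p _ => by rw [mul_comm]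
    rw [h3]
    refine Finset.sum_congr rfl fun p hp => ?_
    have hq' := (mem_Lpr.1 hq).1.2
    have hp' := (mem_Lpr.1 (Finset.mem_filter.1 hp).1).1.2
    rw [hΦ, hfg, Function.update_self, Function.update_of_ne hne.symm, Function.update_self,
      nr2_symm hp'.1 hq'.1 hp'.2 hq'.2]
    ring
  rw [h2]
  exact hyp h1 hL g f hg hf

section
variable {n : ℕ} (g : Fin (n + 1) → ℕ → ℝ) (μ : Fin (n + 1) → ℝ)

/-- **products of functions with means** -/
theorem lim_prod_gen (hg : ∀ i p, |g i p| ≤ 1) (hμ : ∀ i, |μ i| ≤ 1)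
    (hm : ∀ i, Tendsto (fun Z : ℕ => (∑ p ∈ pr Z, (g i p - μ i)) / ((pr Z).card : ℝ)) atTop (𝓝 0))
    (s : Finset (Fin (n + 1))) :
    Tendsto (na (n + 1) fun x => ∏ i ∈ s, g i (x i)) atTop (𝓝 (∏ i ∈ s, μ i)) := by
  induction s using Finset.induction_on with
  | empty =>
    simp only [Finset.prod_empty]
    exact na_one n
  | insert j s hj ih =>
    have h1 := linC n j (fun p => g j p - μ j) (by
      intro p
      have h3 := abs_sub (g j p) (μ j)
      have h4 := hg j p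
      have h5 := hμ j
      linarith) (hm j)
      (fun x => ∏ i ∈ s, g i (x i)) (by
        intro x
        rw [Finset.abs_prod]
        exact Finset.prod_le_one (fun i _ => abs_nonneg _) fun i _ => hg i _) (by
        intro x p
        refine Finset.prod_congr rfl fun i hi => ?_
        have hij : i ≠ j := fun h => hj (by rw [← h]; exact hi)
        rw [Function.update_of_ne hij])
    have h2 := h1.add (ih.const_mul (μ j))
    rw [zero_add] at h2
    rw [Finset.prod_insert hj]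
    refine h2.congr fun X => ?_
    rw [← na_mul, ← na_add]
    congr 1
    funext x
    rw [Finset.prod_insert hj]
    ring

theorem sn_upd {K : ℕ} {z : Fin K × Fin K} {l : Fin K} (h1 : z.1 ≠ l) (h2 : z.2 ≠ l)
    (x : Fin K → ℕ) (p : ℕ) :
    sn (nr2 (Function.update x l p z.1) (Function.update x l p z.2)) = sn (nr2 (x z.1) (x z.2)) := by
  rw [Function.update_of_ne h1, Function.update_of_ne h2]

/-- a product with symbols has the average zero -/
theorem lim_edges (hg : ∀ i p, |g i p| ≤ 1) (B : Finset (Fin (n + 1) × Fin (n + 1)))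
    (hB : ∀ z ∈ B, z.1 < z.2) (hne : B.Nonempty) (ε : Fin (n + 1) × Fin (n + 1) → ℝ)
    (hε : ∀ z, |ε z| ≤ 1) :
    Tendsto (na (n + 1) fun x => (∏ i, g i (x i)) * ∏ z ∈ B, ε z * sn (nr2 (x z.1) (x z.2))) atTop
      (𝓝 0) := by
  obtain ⟨z₀, hz₀⟩ := hne
  have hij : z₀.1 < z₀.2 := hB z₀ hz₀
  have hab : ∀ (z : Fin (n + 1) × Fin (n + 1)) (x : Fin (n + 1) → ℕ),
      |ε z * sn (nr2 (x z.1) (x z.2))| ≤ 1 := by
    intro z x
    rw [abs_mul, sn_abs, mul_one]
    exact hε z
  have hsep : Sep z₀.1 z₀.2 fun x => ((∏ k ∈ (univ : Finset (Fin (n + 1))), g k (x k)) *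
      ∏ z ∈ B.erase z₀, (ε z * sn (nr2 (x z.1) (x z.2)))) * ε z₀ := by
    refine Sep.mul (Sep.mul (Sep.prod _ _ fun k _ => ?_) (Sep.prod _ _ fun z hz => ?_)) ?_
    · by_cases hk : k = z₀.2
      · refine Sep.of_j (fun x => hg _ _) fun x p => ?_
        rw [hk, Function.update_of_ne (ne_of_lt hij).symm]
      · refine Sep.of_i (ne_of_lt hij) (fun x => hg _ _) fun x q => ?_
        rw [Function.update_of_ne hk]
    · have hz' := Finset.ne_of_mem_erase hz
      have hz1 := hB z (Finset.mem_of_mem_erase hz)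
      by_cases h1 : z.1 = z₀.1 ∨ z.2 = z₀.1
      · have h2 : ¬ z.1 = z₀.2 ∧ ¬ z.2 = z₀.2 := by
          constructor
          · intro h3
            rcases h1 with h1 | h1
            · rw [h1] at h3
              exact absurd h3 (ne_of_lt hij)
            · rw [h1, h3] at hz1
              exact lt_asymm hij hz1
          · intro h3
            rcases h1 with h1 | h1
            · exact hz' (Prod.ext h1 h3)
            · rw [h1] at h3
              exact absurd h3 (ne_of_lt hij)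
        refine Sep.of_i (ne_of_lt hij) (hab z) fun x q => ?_
        rw [sn_upd h2.1 h2.2]
      · rw [not_or] at h1
        refine Sep.of_j (hab z) fun x p => ?_
        rw [sn_upd h1.1 h1.2]
    · exact Sep.of_j (fun _ => hε z₀) fun _ _ => rfl
  refine two n (ne_of_lt hij) _ (fun x => ?_) (hsep.sm (ne_of_lt hij) fun x => ?_)
  · rw [abs_mul, Finset.abs_prod, Finset.abs_prod]
    exact mul_le_one₀ (Finset.prod_le_one (fun i _ => abs_nonneg _) fun i _ => hg i _)
      (Finset.prod_nonneg fun i _ => abs_nonneg _)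
      (Finset.prod_le_one (fun i _ => abs_nonneg _) fun z _ => hab z x)
  · rw [← Finset.mul_prod_erase B (fun z => ε z * sn (nr2 (x z.1) (x z.2))) hz₀]
    ring

/-- **the averages of the cylinders** -/
theorem cyl_lim (hg : ∀ i p, |g i p| ≤ 1) (hμ : ∀ i, |μ i| ≤ 1)
    (hm : ∀ i, Tendsto (fun Z : ℕ => (∑ p ∈ pr Z, (g i p - μ i)) / ((pr Z).card : ℝ)) atTop (𝓝 0))
    (C : Finset (Fin (n + 1) × Fin (n + 1))) (hC : ∀ z ∈ C, z.1 < z.2)
    (ε : Fin (n + 1) × Fin (n + 1) → ℝ) (hε : ∀ z, |ε z| ≤ 1) :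
    Tendsto (na (n + 1) fun x => (∏ i, g i (x i)) *
      ∏ z ∈ C, ((1 + ε z * sn (nr2 (x z.1) (x z.2))) / 2)) atTop
      (𝓝 ((∏ i, μ i) / 2 ^ C.card)) := by
  have h1 : (na (n + 1) fun x => (∏ i, g i (x i)) *
      ∏ z ∈ C, ((1 + ε z * sn (nr2 (x z.1) (x z.2))) / 2)) = fun X =>
      ∑ B ∈ C.powerset, 1 / 2 ^ C.card * na (n + 1) (fun x => (∏ i, g i (x i)) *
        ∏ z ∈ B, ε z * sn (nr2 (x z.1) (x z.2))) X := by
    funext X
    have h2 : ∀ x : Fin (n + 1) → ℕ, (∏ i, g i (x i)) *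
        ∏ z ∈ C, ((1 + ε z * sn (nr2 (x z.1) (x z.2))) / 2) =
        ∑ B ∈ C.powerset, 1 / 2 ^ C.card * ((∏ i, g i (x i)) *
          ∏ z ∈ B, ε z * sn (nr2 (x z.1) (x z.2))) := by
      intro x
      rw [Finset.prod_div_distrib, Finset.prod_const, Finset.prod_one_add, Finset.sum_div,
        Finset.mul_sum]
      refine Finset.sum_congr rfl fun B _ => ?_
      ring
    unfold na
    rw [Finset.sum_congr rfl fun x _ => h2 x, Finset.sum_comm, Finset.sum_div]
    refine Finset.sum_congr rfl fun B _ => ?_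
    rw [← Finset.mul_sum, mul_div_assoc]
  rw [h1]
  have h3 : (∏ i, μ i) / 2 ^ C.card =
      ∑ B ∈ C.powerset, 1 / 2 ^ C.card * (if B = ∅ then ∏ i, μ i else 0) := by
    rw [← Finset.mul_sum, Finset.sum_ite_eq', if_pos (Finset.empty_mem_powerset C)]
    ring
  rw [h3]
  refine tendsto_finsetSum _ fun B hB => Tendsto.const_mul _ ?_
  by_cases hB0 : B = ∅
  · rw [if_pos hB0, hB0]
    simp only [Finset.prod_empty, mul_one]
    exact lim_prod_gen g μ hg hμ hm univ
  · rw [if_neg hB0]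
    exact lim_edges g hg B (fun z hz => hC z (Finset.mem_powerset.1 hB hz))
      (Finset.nonempty_iff_ne_empty.2 hB0) ε hε

end

/-- restriction to the tuples of different primes -/
theorem restr (n : ℕ) {D : ℕ} (hD : D ≠ 0) (Φ : (Fin (n + 1) → ℕ) → ℝ) (L B : ℝ)
    (hB : ∀ x, |Φ x| ≤ B) (h1 : Tendsto (na (n + 1) Φ) atTop (𝓝 L))
    (f : (Fin (n + 1) → ℕ) → ℝ) (hf : ∀ x, Om (n + 1) D x → f x = Φ x) :
    (∀ᶠ X : ℕ in atTop, 0 < (Oq (n + 1) D X).card) ∧
    Tendsto (fun X : ℕ => (∑ x ∈ Oq (n + 1) D X, f x) / ((Oq (n + 1) D X).card : ℝ)) atTop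
      (𝓝 L) := by
  have h2 := few n hD
  have h3 : Tendsto (fun X : ℕ => ((Oq (n + 1) D X).card : ℝ) / ((Ot (n + 1) X).card : ℝ)) atTop
      (𝓝 1) := by
    have h4 : Tendsto (fun X : ℕ => 1 - (((Ot (n + 1) X).filter fun x => ¬ Om (n + 1) D x).card : ℝ) /
      ((Ot (n + 1) X).card : ℝ)) atTop (𝓝 (1 - 0)) := tendsto_const_nhds.sub h2
    rw [sub_zero] at h4
    refine h4.congr' ?_
    filter_upwards [ot_pos n] with X hX
    have h5 := Finset.card_filter_add_card_filter_not (s := Ot (n + 1) X)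
      (p := fun x => Om (n + 1) D x)
    have h6 : ((Oq (n + 1) D X).card : ℝ) +
        (((Ot (n + 1) X).filter fun x => ¬ Om (n + 1) D x).card : ℝ) = (Ot (n + 1) X).card := by
      unfold Oq
      exact_mod_cast h5
    rw [← h6] at hX ⊢
    field_simp
    ring
  have hpos : ∀ᶠ X : ℕ in atTop, 0 < (Oq (n + 1) D X).card := by
    filter_upwards [h3.eventually (lt_mem_nhds (by norm_num : (0 : ℝ) < 1)), ot_pos n] with X hX hX2
    have := (div_pos_iff_of_pos_right hX2).1 hX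
    exact_mod_cast this
  refine ⟨hpos, ?_⟩
  have h4 : Tendsto (fun X : ℕ => (∑ x ∈ Oq (n + 1) D X, f x) / ((Ot (n + 1) X).card : ℝ)) atTop
      (𝓝 L) := by
    have h5 : Tendsto (fun X : ℕ => na (n + 1) Φ X -
        (∑ x ∈ Oq (n + 1) D X, f x) / ((Ot (n + 1) X).card : ℝ)) atTop (𝓝 0) := by
      rw [tendsto_zero_iff_abs_tendsto_zero]
      have h6 := h2.const_mul B
      rw [mul_zero] at h6
      refine squeeze_zero (fun X => abs_nonneg _) (fun X => ?_) h6
      show |na (n + 1) Φ X - (∑ x ∈ Oq (n + 1) D X, f x) / ((Ot (n + 1) X).card : ℝ)| ≤ _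
      unfold na
      rw [← sub_div, abs_div, Nat.abs_cast, ← mul_div_assoc]
      apply div_le_div_of_nonneg_right _ (Nat.cast_nonneg _)
      have h7 : ∑ x ∈ Oq (n + 1) D X, f x = ∑ x ∈ Oq (n + 1) D X, Φ x :=
        Finset.sum_congr rfl fun x hx => hf x (Finset.mem_filter.1 hx).2
      rw [h7]
      unfold Oq
      rw [← Finset.sum_filter_add_sum_filter_not (Ot (n + 1) X) (fun x => Om (n + 1) D x),
        add_sub_cancel_left]
      refine (Finset.abs_sum_le_sum_abs _ _).trans ?_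
      refine (Finset.sum_le_sum fun x _ => hB _).trans ?_
      rw [Finset.sum_const, nsmul_eq_mul, mul_comm]
    have h6 := h1.sub h5
    rw [sub_zero] at h6
    refine h6.congr fun X => ?_
    ring
  have h5 := h4.div h3 one_ne_zero
  rw [div_one] at h5
  refine h5.congr' ?_
  filter_upwards [ot_pos n] with X hX
  show (∑ x ∈ Oq (n + 1) D X, f x) / ((Ot (n + 1) X).card : ℝ) /
    (((Oq (n + 1) D X).card : ℝ) / ((Ot (n + 1) X).card : ℝ)) = _
  rw [div_div_div_cancel_right₀ hX.ne']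

/-- the averages over the numbers with exactly `n + 1` prime factors -/
theorem restr_m (n : ℕ) {D : ℕ} (hD : D ≠ 0) (Φ : (Fin (n + 1) → ℕ) → ℝ) (L B : ℝ)
    (hB : ∀ x, |Φ x| ≤ B) (h1 : Tendsto (na (n + 1) Φ) atTop (𝓝 L)) (f : ℕ → ℝ)
    (hf : ∀ x, Om (n + 1) D x → f (∏ i, x i) = Φ x) :
    (∀ᶠ X : ℕ in atTop, 0 < (Ms (n + 1) D X).card) ∧
    Tendsto (fun X : ℕ => (∑ m ∈ Ms (n + 1) D X, f m) / ((Ms (n + 1) D X).card : ℝ)) atTop
      (𝓝 L) := by
  obtain ⟨h4, h5⟩ := restr n hD Φ L B hB h1 (fun x => f (∏ i, x i)) hf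
  have hc : ∀ X, ((Oq (n + 1) D X).card : ℝ) =
      ((n + 1).factorial : ℝ) * ((Ms (n + 1) D X).card : ℝ) := by
    intro X
    have := sum_Oq (n + 1) D X fun _ => 1
    rw [← card_as_sum, ← card_as_sum] at this
    exact this
  have hfac : (0 : ℝ) < ((n + 1).factorial : ℝ) := by exact_mod_cast Nat.factorial_pos _
  refine ⟨?_, ?_⟩
  · filter_upwards [h4] with X hX
    have h6 : (0 : ℝ) < ((Oq (n + 1) D X).card : ℝ) := by exact_mod_cast hX
    rw [hc] at h6
    have h7 := pos_of_mul_pos_right h6 hfac.le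
    exact_mod_cast h7
  · refine h5.congr fun X => ?_
    rw [hc, sum_Oq (n + 1) D X f, mul_div_mul_left _ _ hfac.ne']

end Pool.Agent.U687.NO
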