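import Pool.Agent.U687.NO.Iter

/-!
# Functions of the symbols as sums of pure functions
-/

set_option autoImplicit false
set_option linter.unusedSectionVars false

open scoped Classical

namespace Pool.Agent.U687.NO

open Finset Filter Topology
open Pool.Agent.U687.Q2 (av Ca)
open Pool.Agent.U687.JT (nr2 n47)

/-- the expansion of a function on a vector space over the field with two elements -/
theorem walsh {B : Type} [Fintype B] [DecidableEq B] (F : (B → ZMod 2) → ℝ) (z : B → ZMod 2) :
    F z = ∑ u : B → ZMod 2, ∑ S ∈ (univ : Finset B).powerset,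
      ((1 / 2) ^ Fintype.card B * F u * ∏ e ∈ S, sn (u e)) * ∏ e ∈ S, sn (z e) := by
  have h1 : ∀ u : B → ZMod 2, ∑ S ∈ (univ : Finset B).powerset,
      ((1 / 2) ^ Fintype.card B * F u * ∏ e ∈ S, sn (u e)) * ∏ e ∈ S, sn (z e) =
      if u = z then F u else 0 := by
    intro u
    have h2 : ∑ S ∈ (univ : Finset B).powerset,
        ((1 / 2) ^ Fintype.card B * F u * ∏ e ∈ S, sn (u e)) * ∏ e ∈ S, sn (z e) =
        (1 / 2) ^ Fintype.card B * F u * ∏ e : B, (1 + sn (u e) * sn (z e)) := by
      rw [Finset.prod_one_add, Finset.mul_sum]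
      refine Finset.sum_congr rfl fun S _ => ?_
      rw [Finset.prod_mul_distrib]
      ring
    rw [h2]
    split_ifs with h
    · subst h
      rw [Finset.prod_congr rfl fun e _ => by rw [sn_sq], Finset.prod_const, Finset.card_univ]
      have h3 : ((1 : ℝ) / 2) ^ Fintype.card B * (1 + 1) ^ Fintype.card B = 1 := by
        rw [← mul_pow]
        norm_num
      rw [mul_comm ((1 / 2 : ℝ) ^ Fintype.card B), mul_assoc, h3, mul_one]
    · obtain ⟨e, he⟩ := Function.ne_iff.1 h
      have h3 : 1 + sn (u e) * sn (z e) = 0 := by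
        have h4 : ∀ a b : ZMod 2, a ≠ b → (a = 0 ∧ b = 1) ∨ (a = 1 ∧ b = 0) := by decide
        rcases h4 _ _ he with ⟨h5, h6⟩ | ⟨h5, h6⟩
        · rw [h5, h6, sn_zero, sn_one]
          norm_num
        · rw [h5, h6, sn_zero, sn_one]
          norm_num
      rw [Finset.prod_eq_zero (Finset.mem_univ e) h3, mul_zero]
  rw [Finset.sum_congr rfl fun u _ => h1 u, Finset.sum_ite_eq' Finset.univ z,
    if_pos (Finset.mem_univ z)]

/-- the places of the symbols of a tuple -/
abbrev Pl (K : ℕ) (W : Finset ℕ) : Type :=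
  (Fin K × W) ⊕ (Fin K × Fin K) ⊕ Fin K ⊕ Fin K

/-- the symbols of a tuple -/
noncomputable def bit {K : ℕ} (W : Finset ℕ) (x : Fin K → ℕ) : Pl K W → ZMod 2
  | Sum.inl (i, r) => nr2 (x i) r
  | Sum.inr (Sum.inl (i, j)) => if i < j then nr2 (x i) (x j) else 0
  | Sum.inr (Sum.inr (Sum.inl i)) => n47 (x i)
  | Sum.inr (Sum.inr (Sum.inr i)) => ty (x i)

variable {K : ℕ} {W : Finset ℕ}

/-- the data of the pure function of a set of places -/
noncomputable def pA (S : Finset (Pl K W)) (i : Fin K) : Finset ℕ :=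
  ((univ : Finset W).filter fun r => (Sum.inl (i, r) : Pl K W) ∈ S).map
    (Function.Embedding.subtype _)

noncomputable def pa (S : Finset (Pl K W)) (i : Fin K) : Bool :=
  decide ((Sum.inr (Sum.inr (Sum.inl i)) : Pl K W) ∈ S)

noncomputable def pb (S : Finset (Pl K W)) (i : Fin K) : Bool :=
  decide ((Sum.inr (Sum.inr (Sum.inr i)) : Pl K W) ∈ S)

noncomputable def pe (S : Finset (Pl K W)) (i j : Fin K) : Bool :=
  decide ((Sum.inr (Sum.inl (i, j)) : Pl K W) ∈ S)

theorem pA_sub (S : Finset (Pl K W)) (i : Fin K) : pA S i ⊆ W := by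
  intro r hr
  unfold pA at hr
  rw [Finset.mem_map] at hr
  obtain ⟨r', -, rfl⟩ := hr
  exact r'.2

/-- **the product of the signs of the symbols in a set of places is a pure function** -/
theorem prod_pure (S : Finset (Pl K W)) (x : Fin K → ℕ) :
    ∏ e ∈ S, sn (bit W x e) = pu (pA S) (pa S) (pb S) (pe S) x := by
  have h1 : ∏ e ∈ S, sn (bit W x e) = ∏ e : Pl K W, if e ∈ S then sn (bit W x e) else 1 := by
    rw [Finset.prod_ite_mem, Finset.univ_inter]
  rw [h1, Fintype.prod_sum_type, Fintype.prod_sum_type, Fintype.prod_sum_type,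
    Fintype.prod_prod_type, Fintype.prod_prod_type]
  unfold pu mo
  rw [Finset.prod_mul_distrib, Finset.prod_mul_distrib]
  have h2 : ∀ i : Fin K, ∏ r ∈ pA S i, sn (nr2 (x i) r) =
      ∏ r : W, if (Sum.inl (i, r) : Pl K W) ∈ S then sn (bit W x (Sum.inl (i, r))) else 1 := by
    intro i
    unfold pA
    rw [Finset.prod_map, Finset.prod_filter]
    rfl
  have h3 : ∀ i : Fin K, (if pa S i = true then sn (n47 (x i)) else 1) =
      if (Sum.inr (Sum.inr (Sum.inl i)) : Pl K W) ∈ S then
        sn (bit W x (Sum.inr (Sum.inr (Sum.inl i)))) else 1 := by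
    intro i
    unfold pa
    simp only [decide_eq_true_eq]
    rfl
  have h4 : ∀ i : Fin K, (if pb S i = true then sn (ty (x i)) else 1) =
      if (Sum.inr (Sum.inr (Sum.inr i)) : Pl K W) ∈ S then
        sn (bit W x (Sum.inr (Sum.inr (Sum.inr i)))) else 1 := by
    intro i
    unfold pb
    simp only [decide_eq_true_eq]
    rfl
  have h5 : ∀ i j : Fin K, (if i < j ∧ pe S i j = true then sn (nr2 (x i) (x j)) else 1) =
      if (Sum.inr (Sum.inl (i, j)) : Pl K W) ∈ S then
        sn (bit W x (Sum.inr (Sum.inl (i, j)))) else 1 := by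
    intro i j
    unfold pe
    simp only [decide_eq_true_eq]
    show _ = if _ then sn (if i < j then nr2 (x i) (x j) else 0) else 1
    by_cases hij : i < j
    · by_cases hS : (Sum.inr (Sum.inl (i, j)) : Pl K W) ∈ S
      · rw [if_pos ⟨hij, hS⟩, if_pos hS, if_pos hij]
      · rw [if_neg fun h => hS h.2, if_neg hS]
    · rw [if_neg fun h => hij h.1, if_neg hij, sn_zero, ite_self]
  rw [Finset.prod_congr rfl fun i _ => h2 i, Finset.prod_congr rfl fun i _ => h3 i,
    Finset.prod_congr rfl fun i _ => h4 i,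
    Finset.prod_congr rfl fun i _ => Finset.prod_congr rfl fun j _ => h5 i j]
  ring

/-- the coefficients of the expansion -/
noncomputable def co (F : (Pl K W → ZMod 2) → ℝ) (u : Pl K W → ZMod 2) (S : Finset (Pl K W)) : ℝ :=
  (1 / 2) ^ Fintype.card (Pl K W) * F u * ∏ e ∈ S, sn (u e)

/-- **a function of the symbols is a sum of pure functions** -/
theorem expand (F : (Pl K W → ZMod 2) → ℝ) (x : Fin K → ℕ) :
    F (bit W x) = ∑ u : Pl K W → ZMod 2, ∑ S ∈ (univ : Finset (Pl K W)).powerset,
      co F u S * pu (pA S) (pa S) (pb S) (pe S) x := by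
  rw [walsh F (bit W x)]
  refine Finset.sum_congr rfl fun u _ => Finset.sum_congr rfl fun S _ => ?_
  rw [prod_pure]
  rfl

/-- the limit of the pure function of a set of places -/
noncomputable def pl (S : Finset (Pl K W)) : ℝ :=
  if No (pe S) then ∏ i, me (pA S i) (pa S i) (pb S i) else 0

/-- the limit of a function of the symbols -/
noncomputable def lf (F : (Pl K W → ZMod 2) → ℝ) : ℝ :=
  ∑ u : Pl K W → ZMod 2, ∑ S ∈ (univ : Finset (Pl K W)).powerset, co F u S * pl S

/-- **the iterated limit of a function of the symbols** -/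
theorem il_fun {D : ℕ} (hD : D ≠ 0) (hW : ∀ r ∈ W, r.Prime ∧ r % 4 = 1 ∧ r ∣ D)
    (F : (Pl K W → ZMod 2) → ℝ) (f : (Fin K → ℕ) → ℝ) (hf : ∀ x, Om K D x → f x = F (bit W x)) :
    IL K D f (lf F) := by
  have h1 : IL K D (fun x => ∑ u : Pl K W → ZMod 2, ∑ S ∈ (univ : Finset (Pl K W)).powerset,
      co F u S * pu (pA S) (pa S) (pb S) (pe S) x) (lf F) := by
    unfold lf
    refine IL.sum _ _ _ fun u _ => IL.sum _ _ _ fun S _ => IL.mul _ ?_
    exact il_pure K hD (pA S) (pa S) (pb S) (pe S) fun i r hr => hW r (pA_sub S i hr)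
  refine IL.congr (fun x hx => ?_) h1
  rw [hf x hx, expand F x]

end Pool.Agent.U687.NO
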