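import Pool.Agent.U687.NO.Exp

/-!
# Sums over tuples with bounded product
-/

set_option autoImplicit false
set_option linter.unusedSectionVars false

open scoped Classical

namespace Pool.Agent.U687.NO

open Finset Filter Topology
open Pool.Agent.U687.Q2 (av Ca)

variable {K : ℕ}

/-- the primes `1` modulo `4` up to `Z` -/
noncomputable def pr (Z : ℕ) : Finset ℕ := (Icc 1 Z).filter fun p => p.Prime ∧ Ca p

theorem mem_pr {Z p : ℕ} : p ∈ pr Z ↔ p ≤ Z ∧ p.Prime ∧ Ca p := by
  unfold pr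
  rw [Finset.mem_filter, Finset.mem_Icc]
  constructor
  · rintro ⟨⟨-, h1⟩, h2⟩
    exact ⟨h1, h2⟩
  · rintro ⟨h1, h2⟩
    exact ⟨⟨h2.1.one_lt.le, h1⟩, h2⟩

/-- the sum of the reciprocals -/
noncomputable def RS (T : Finset ℕ) : ℝ := ∑ p ∈ T, (1 : ℝ) / p

theorem RS_nonneg (T : Finset ℕ) : 0 ≤ RS T :=
  Finset.sum_nonneg fun p _ => by positivity

theorem RS_mono {T T' : Finset ℕ} (h : T ⊆ T') : RS T ≤ RS T' :=
  Finset.sum_le_sum_of_subset_of_nonneg h fun p _ _ => by positivity

theorem RS_one : RS {1} = 1 := by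
  unfold RS
  simp

/-- the tuples with product at most `Z` -/
noncomputable def Os (S : Fin K → Finset ℕ) (Z : ℕ) : Finset (Fin K → ℕ) :=
  (Fintype.piFinset S).filter fun x => ∏ i, x i ≤ Z

theorem mem_Os {S : Fin K → Finset ℕ} {Z : ℕ} {x : Fin K → ℕ} :
    x ∈ Os S Z ↔ (∀ i, x i ∈ S i) ∧ ∏ i, x i ≤ Z := by
  unfold Os
  rw [Finset.mem_filter, Fintype.mem_piFinset]

/-- splitting off one coordinate -/
theorem fib (S : Fin K → Finset ℕ) (i : Fin K) (Φ : (Fin K → ℕ) → ℝ) :
    ∑ x ∈ Fintype.piFinset S, Φ x =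
      ∑ y ∈ Fintype.piFinset (Function.update S i {1}), ∑ p ∈ S i, Φ (Function.update y i p) := by
  rw [← Finset.sum_product']
  refine Finset.sum_nbij' (fun x => (Function.update x i 1, x i))
    (fun z => Function.update z.1 i z.2) ?_ ?_ ?_ ?_ ?_
  · intro x hx
    rw [Fintype.mem_piFinset] at hx
    rw [Finset.mem_product, Fintype.mem_piFinset]
    refine ⟨fun k => ?_, hx i⟩
    by_cases hk : k = i
    · subst hk
      simp
    · simp only [Function.update_of_ne hk]
      exact hx k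
  · intro z hz
    rw [Finset.mem_product, Fintype.mem_piFinset] at hz
    rw [Fintype.mem_piFinset]
    intro k
    by_cases hk : k = i
    · subst hk
      simpa using hz.2
    · have := hz.1 k
      simp only [Function.update_of_ne hk] at this ⊢
      exact this
  · intro x _
    simp
  · rintro ⟨y, p⟩ hz
    rw [Finset.mem_product, Fintype.mem_piFinset] at hz
    have h1 : y i = 1 := by
      have := hz.1 i
      simpa using this
    show (Function.update (Function.update y i p) i 1, Function.update y i p i) = (y, p)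
    rw [Function.update_idem, Function.update_self, ← h1, Function.update_eq_self]
  · intro x _
    simp

theorem prod_upd {y : Fin K → ℕ} {i : Fin K} (hy : y i = 1) (p : ℕ) :
    ∏ k, Function.update y i p k = p * ∏ k, y k := by
  rw [Finset.prod_update_of_mem (Finset.mem_univ i), ← Finset.mul_prod_erase univ y (mem_univ i),
    hy, one_mul, Finset.sdiff_singleton_eq_erase]

theorem one_of_mem {S : Fin K → Finset ℕ} {i : Fin K} {y : Fin K → ℕ}
    (hy : y ∈ Fintype.piFinset (Function.update S i {1})) : y i = 1 := by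
  rw [Fintype.mem_piFinset] at hy
  have := hy i
  simpa using this

theorem pos_of_mem {S : Fin K → Finset ℕ} (hS : ∀ k, ∀ p ∈ S k, 1 ≤ p) {i : Fin K} {y : Fin K → ℕ}
    (hy : y ∈ Fintype.piFinset (Function.update S i {1})) : 1 ≤ ∏ k, y k := by
  rw [Fintype.mem_piFinset] at hy
  refine Finset.one_le_prod' fun k _ => ?_
  have := hy k
  by_cases hk : k = i
  · subst hk
    have h1 : y k = 1 := by simpa using this
    rw [h1]
  · rw [Function.update_of_ne hk] at this
    exact hS k _ this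

/-- splitting off one coordinate, bounded product -/
theorem fibO (S : Fin K → Finset ℕ) (i : Fin K) (Z : ℕ) (Φ : (Fin K → ℕ) → ℝ) :
    ∑ x ∈ Os S Z, Φ x = ∑ y ∈ Fintype.piFinset (Function.update S i {1}),
      ∑ p ∈ (S i).filter (fun p => p * ∏ k, y k ≤ Z), Φ (Function.update y i p) := by
  unfold Os
  rw [Finset.sum_filter, fib S i]
  refine Finset.sum_congr rfl fun y hy => ?_
  rw [Finset.sum_filter]
  refine Finset.sum_congr rfl fun p _ => ?_
  rw [prod_upd (one_of_mem hy)]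

theorem sum_inv (S : Fin K → Finset ℕ) :
    ∑ y ∈ Fintype.piFinset S, (1 : ℝ) / ((∏ k, y k : ℕ) : ℝ) = ∏ k, RS (S k) := by
  unfold RS
  rw [Finset.prod_univ_sum]
  refine Finset.sum_congr rfl fun y _ => ?_
  push_cast
  rw [Finset.prod_div_distrib, Finset.prod_const_one]

theorem card_as_sum {α : Type} (s : Finset α) : (s.card : ℝ) = ∑ _x ∈ s, (1 : ℝ) := by
  rw [Finset.sum_const, nsmul_eq_mul, mul_one]

/-- the crude bound for the number of tuples -/
theorem cnt1 {S : Fin K → Finset ℕ} (hS : ∀ k, ∀ p ∈ S k, 1 ≤ p) (i : Fin K) (Z : ℕ) :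
    ((Os S Z).card : ℝ) ≤ Z * ∏ k, RS (Function.update S i {1} k) := by
  rw [card_as_sum, fibO S i Z, ← sum_inv, Finset.mul_sum]
  refine Finset.sum_le_sum fun y hy => ?_
  have hm := pos_of_mem hS hy
  rw [← card_as_sum]
  have h1 : (S i).filter (fun p => p * ∏ k, y k ≤ Z) ⊆ Icc 1 (Z / ∏ k, y k) := by
    intro p hp
    obtain ⟨h2, h3⟩ := Finset.mem_filter.1 hp
    exact Finset.mem_Icc.2 ⟨hS i p h2, (Nat.le_div_iff_mul_le (by omega)).2 h3⟩
  have h2 := Finset.card_le_card h1
  rw [Nat.card_Icc, Nat.add_sub_cancel] at h2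
  have h3 : ((Z / ∏ k, y k : ℕ) : ℝ) ≤ (Z : ℝ) / ((∏ k, y k : ℕ) : ℝ) := Nat.cast_div_le
  rw [mul_one_div]
  exact (by exact_mod_cast h2 : (_ : ℝ) ≤ ((Z / ∏ k, y k : ℕ) : ℝ)).trans h3

/-- the sum of the logarithms of one coordinate -/
theorem log1 {S : Fin K → Finset ℕ} (hS : ∀ k, ∀ p ∈ S k, 1 ≤ p) (i : Fin K)
    (hi : ∀ p ∈ S i, p.Prime) (Z : ℕ) : ∑ x ∈ Os S Z, Real.log (x i) ≤
      Real.log 4 * (Z * ∏ k, RS (Function.update S i {1} k)) := by
  rw [fibO S i Z, ← sum_inv, Finset.mul_sum, Finset.mul_sum]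
  refine Finset.sum_le_sum fun y hy => ?_
  have hm := pos_of_mem hS hy
  set m := ∏ k, y k with hmdef
  have h0 : ∀ p ∈ (S i).filter (fun p => p * m ≤ Z),
      Real.log ((Function.update y i p i : ℕ) : ℝ) = Real.log p := by
    intro p _
    rw [Function.update_self]
  rw [Finset.sum_congr rfl h0]
  have hmr : (0 : ℝ) < m := by exact_mod_cast (by omega : 0 < m)
  have h1 : ∑ p ∈ (S i).filter (fun p => p * m ≤ Z), Real.log p ≤
      Chebyshev.theta ((Z : ℝ) / m) := by
    unfold Chebyshev.theta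
    refine Finset.sum_le_sum_of_subset_of_nonneg ?_ ?_
    · intro p hp
      obtain ⟨h2, h3⟩ := Finset.mem_filter.1 hp
      rw [Finset.mem_filter, Finset.mem_Ioc]
      refine ⟨⟨(hi p h2).pos, ?_⟩, hi p h2⟩
      rw [Nat.floor_div_natCast, Nat.floor_natCast]
      exact (Nat.le_div_iff_mul_le (by omega)).2 h3
    · intro p _ _
      exact Real.log_natCast_nonneg p
  refine h1.trans ?_
  refine (Chebyshev.theta_le_log4_mul_x (by positivity)).trans (le_of_eq ?_)
  rw [mul_one_div]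

/-- **the upper bound for the number of tuples** -/
theorem cntU {S : Fin K → Finset ℕ} (hS : ∀ k, ∀ p ∈ S k, 1 ≤ p) (J : Finset (Fin K))
    (hJ : ∀ j ∈ J, ∀ p ∈ S j, p.Prime) {X : ℕ} (hX : 2 ≤ X) {c : ℝ} (hc : 0 < c)
    (h : ∀ x ∈ Os S X, Nat.sqrt X < ∏ k, x k → c * Real.log X ≤ ∑ j ∈ J, Real.log (x j))
    (i : Fin K) : ((Os S X).card : ℝ) ≤ Nat.sqrt X * (∏ k, RS (Function.update S i {1} k)) +
      Real.log 4 * X / (c * Real.log X) * ∑ j ∈ J, ∏ k, RS (Function.update S j {1} k) := by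
  have hlog : 0 < Real.log X := Real.log_pos (by exact_mod_cast (by omega : 1 < X))
  have h1 : (Os S X).card = (Os S (Nat.sqrt X)).card +
      ((Os S X).filter fun x => Nat.sqrt X < ∏ k, x k).card := by
    rw [← Finset.card_filter_add_card_filter_not (s := Os S X)
      (p := fun x => ∏ k, x k ≤ Nat.sqrt X)]
    congr 1
    · congr 1
      ext x
      rw [Finset.mem_filter, mem_Os, mem_Os]
      constructor
      · rintro ⟨⟨g1, -⟩, g3⟩
        exact ⟨g1, g3⟩
      · rintro ⟨g1, g3⟩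
        exact ⟨⟨g1, g3.trans (Nat.sqrt_le_self X)⟩, g3⟩
    · congr 1
      ext x
      rw [Finset.mem_filter, Finset.mem_filter, not_le]
  have h2 : (((Os S X).filter fun x => Nat.sqrt X < ∏ k, x k).card : ℝ) * (c * Real.log X) ≤
      ∑ j ∈ J, ∑ x ∈ Os S X, Real.log (x j) := by
    rw [card_as_sum, Finset.sum_mul, Finset.sum_comm]
    refine (Finset.sum_le_sum (g := fun x => ∑ j ∈ J, Real.log ((x j : ℕ) : ℝ)) fun x hx => ?_).trans ?_
    · obtain ⟨g1, g2⟩ := Finset.mem_filter.1 hx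
      rw [one_mul]
      exact h x g1 g2
    · exact Finset.sum_le_sum_of_subset_of_nonneg (Finset.filter_subset _ _) fun x _ _ =>
        Finset.sum_nonneg fun j _ => Real.log_natCast_nonneg _
  have h3 : ∑ j ∈ J, ∑ x ∈ Os S X, Real.log (x j) ≤
      Real.log 4 * X * ∑ j ∈ J, ∏ k, RS (Function.update S j {1} k) := by
    rw [Finset.mul_sum]
    refine Finset.sum_le_sum fun j hj => ?_
    refine (log1 hS j (hJ j hj) X).trans (le_of_eq ?_)
    ring
  rw [h1]
  push_cast
  refine add_le_add (cnt1 hS i _) ?_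
  rw [div_mul_eq_mul_div, le_div_iff₀ (mul_pos hc hlog)]
  exact h2.trans h3

end Pool.Agent.U687.NO
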