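import Pool.Agent.U687.NO.Exp
import Pool.Agent.R413.SQ.Cor

/-!
# The criterion depends only on the symbols
-/

set_option autoImplicit false
set_option linter.unusedSectionVars false

open scoped Classical

namespace Pool.Agent.U687.NO

open Finset
open Pool.Agent.U687.Q2 (Ca)
open Pool.Agent.U687.JT (nr2 n47 adm_mul pf_mul)
open Pool.Agent.R413.SQ (Gd Sol cu mk)
open Pool.Agent.R413.SQ.Cor (mk_iff det_iff)
open Pool.Agent.Y703.CQ (nr)
open Pool.Agent.Y698.SG (n4)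
open Pool.Agent.Results.MP_4a9ea6_nt.TwoPartTwistsX49 (Adm mat)

theorem cu_self {x : ℕ → ZMod 2} {p : ℕ} (h : mk p = 1) : cu x p + x p = 0 := by
  unfold cu
  rw [if_pos h]
  exact CharTwo.add_self_eq_zero _

/-- transport of the criterion -/
theorem gd_transport {S S' : Finset ℕ} (f : ℕ → ZMod 2) (σ τ : ℕ → ℕ) (hσ : ∀ p ∈ S, σ p ∈ S')
    (hτ : ∀ q ∈ S', τ q ∈ S) (h1 : ∀ p ∈ S, τ (σ p) = p) (h2 : ∀ q ∈ S', σ (τ q) = q)
    (hmk : ∀ p ∈ S, mk (σ p) = mk p) (hf : ∀ p ∈ S, f (σ p) = f p)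
    (hnr : ∀ p ∈ S, ∀ q ∈ S, p ≠ q → nr (σ p) (σ q) = nr p q) (hG : Gd f S) : Gd f S' := by
  intro z hz
  have hs : Sol f S (fun p => z (σ p)) := by
    intro p hp hm
    have h3 := hz (σ p) (hσ p hp) (by rw [hmk p hp, hm])
    have h4 : ∑ q ∈ S, nr p q * (cu (fun p => z (σ p)) q + z (σ p)) =
        ∑ q ∈ S', nr (σ p) q * (cu z q + z (σ p)) := by
      refine Finset.sum_nbij' σ τ hσ hτ h1 h2 fun q hq => ?_
      have h5 : cu (fun p => z (σ p)) q = cu z (σ q) := by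
        unfold cu
        rw [hmk q hq]
      rw [h5]
      by_cases hpq : p = q
      · subst hpq
        rw [cu_self (x := z) (by rw [hmk p hp, hm]), mul_zero, mul_zero]
      · rw [hnr p hp q hq hpq]
    show ∑ q ∈ S, nr p q * (cu (fun p => z (σ p)) q + z (σ p)) + f p * z (σ p) = 0
    rw [h4, ← hf p hp]
    exact h3
  intro q hq hm
  have h3 := hG _ hs (τ q) (hτ q hq) (by rw [← hmk (τ q) (hτ q hq), h2 q hq]; exact hm)
  have h4 : z (σ (τ q)) = 0 := h3
  rwa [h2 q hq] at h4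

variable {K : ℕ}

/-- the prime factors of `D x₁ ⋯ x_K` -/
theorem pf_prod : ∀ {K : ℕ} {D : ℕ}, D ≠ 0 → ∀ {x : Fin K → ℕ}, Om K D x →
    (D * ∏ i, x i).primeFactors = D.primeFactors ∪ univ.image x := by
  intro K D hD x hx
  have h0 : ∏ i, x i ≠ 0 := Finset.prod_ne_zero_iff.2 fun i _ => (hx.1 i).1.ne_zero
  rw [Nat.primeFactors_mul hD h0]
  congr 1
  ext p
  rw [Nat.mem_primeFactors_of_ne_zero h0, Finset.mem_image]
  constructor
  · rintro ⟨hp, hd⟩
    obtain ⟨i, -, hi⟩ := (Prime.dvd_finsetProd_iff hp.prime _).1 hd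
    exact ⟨i, Finset.mem_univ i, ((Nat.prime_dvd_prime_iff_eq hp (hx.1 i).1).1 hi).symm⟩
  · rintro ⟨i, -, rfl⟩
    exact ⟨(hx.1 i).1, Finset.dvd_prod_of_mem x (Finset.mem_univ i)⟩

theorem adm_prod : ∀ (K : ℕ) {D : ℕ}, Adm D → ∀ {x : Fin K → ℕ}, Om K D x → Adm (D * ∏ i, x i) := by
  intro K
  induction K with
  | zero =>
    intro D hD x _
    rw [Fin.prod_univ_zero, mul_one]
    exact hD
  | succ K ih =>
    intro D hD x hx
    rw [Fin.prod_univ_succ, ← mul_assoc]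
    have h0 := hx.1 0
    refine ih (adm_mul hD h0.1 h0.2.1 h0.2.2) (x := fun i => x i.succ) ⟨fun i => ?_, ?_⟩
    · have h1 := hx.1 i.succ
      refine ⟨h1.1, h1.2.1, fun hd => ?_⟩
      rcases (Nat.Prime.dvd_mul h1.1).1 hd with h | h
      · exact h1.2.2 h
      · have := (Nat.prime_dvd_prime_iff_eq h1.1 h0.1).1 h
        exact absurd (hx.2 this) (Fin.succ_ne_zero i)
    · intro i j hij
      exact Fin.succ_injective _ (hx.2 hij)

/-- the map between the prime factors -/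
noncomputable def sw (x y : Fin K → ℕ) (p : ℕ) : ℕ := if h : ∃ i, x i = p then y h.choose else p

theorem sw_x {x : Fin K → ℕ} (hx : Function.Injective x) (y : Fin K → ℕ) (i : Fin K) :
    sw x y (x i) = y i := by
  unfold sw
  have h : ∃ j, x j = x i := ⟨i, rfl⟩
  rw [dif_pos h, hx h.choose_spec]

theorem sw_D {D : ℕ} {x : Fin K → ℕ} (hx : Om K D x) (y : Fin K → ℕ) {p : ℕ}
    (hp : p ∈ D.primeFactors) : sw x y p = p := by
  unfold sw
  rw [dif_neg]
  rintro ⟨i, rfl⟩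
  exact (hx.1 i).2.2 (Nat.dvd_of_mem_primeFactors hp)

theorem gd_of_bit {D : ℕ} (hD : Adm D) {x y : Fin K → ℕ} (hx : Om K D x) (hy : Om K D y)
    (h : bit D.primeFactors x = bit D.primeFactors y)
    (hG : Gd n4 (D.primeFactors ∪ univ.image x)) : Gd n4 (D.primeFactors ∪ univ.image y) := by
  have b1 : ∀ (i : Fin K) (r : D.primeFactors), nr2 (x i) r = nr2 (y i) r := fun i r =>
    congrFun h (Sum.inl (i, r))
  have b2 : ∀ i j : Fin K, i < j → nr2 (x i) (x j) = nr2 (y i) (y j) := by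
    intro i j hij
    have h1 := congrFun h (Sum.inr (Sum.inl (i, j)))
    have h2 : (if i < j then nr2 (x i) (x j) else 0) = if i < j then nr2 (y i) (y j) else 0 := h1
    rwa [if_pos hij, if_pos hij] at h2
  have b3 : ∀ i : Fin K, n47 (x i) = n47 (y i) := fun i => congrFun h (Sum.inr (Sum.inr (Sum.inl i)))
  have b4 : ∀ i : Fin K, ty (x i) = ty (y i) := fun i => congrFun h (Sum.inr (Sum.inr (Sum.inr i)))
  have b5 : ∀ i : Fin K, mk (y i) = mk (x i) := by
    intro i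
    have key : ∀ {z : Fin K → ℕ}, Om K D z → (ty (z i) = 0 ↔ mk (z i) = 1) := by
      intro z hz
      rw [← mk_iff (hz.1 i).1 (hz.1 i).2.1]
      unfold ty
      split_ifs with h1
      · exact ⟨fun _ => h1, fun _ => rfl⟩
      · exact ⟨fun h2 => absurd h2 one_ne_zero, fun h2 => absurd h2 h1⟩
    have h1 : mk (x i) = 1 ↔ mk (y i) = 1 := by rw [← key hx, ← key hy, b4 i]
    have hmk : ∀ p : ℕ, mk p = 1 ∨ mk p = 0 := by
      intro p
      unfold Pool.Agent.R413.SQ.mk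
      split_ifs
      · exact Or.inl rfl
      · exact Or.inr rfl
    rcases hmk (x i) with h2 | h2
    · rw [h2, h1.1 h2]
    · rcases hmk (y i) with h3 | h3
      · rw [h1.2 h3] at h2
        exact absurd h2 one_ne_zero
      · rw [h2, h3]
  -- symmetry of the symbols
  have hsy : ∀ {p q : ℕ}, p.Prime → q.Prime → p % 4 = 1 → q % 4 = 1 → nr p q = nr q p :=
    fun hp hq h1 h2 => nr2_symm hp hq h1 h2
  have b6 : ∀ i j : Fin K, i ≠ j → nr (y i) (y j) = nr (x i) (x j) := by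
    intro i j hij
    rcases lt_or_gt_of_ne hij with h1 | h1
    · exact (b2 i j h1).symm
    · rw [hsy (hx.1 i).1 (hx.1 j).1 (hx.1 i).2.1 (hx.1 j).2.1,
        hsy (hy.1 i).1 (hy.1 j).1 (hy.1 i).2.1 (hy.1 j).2.1]
      exact (b2 j i h1).symm
  have b7 : ∀ (i : Fin K) (r : ℕ), r ∈ D.primeFactors → nr (y i) r = nr (x i) r := fun i r hr =>
    (b1 i ⟨r, hr⟩).symm
  have b8 : ∀ (i : Fin K) (r : ℕ), r ∈ D.primeFactors → nr r (y i) = nr r (x i) := by
    intro i r hr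
    have hr1 := Nat.prime_of_mem_primeFactors hr
    rw [hsy hr1 (hx.1 i).1 (hD.2 r hr) (hx.1 i).2.1, hsy hr1 (hy.1 i).1 (hD.2 r hr) (hy.1 i).2.1]
    exact b7 i r hr
  have hm : ∀ {z : Fin K → ℕ} {p : ℕ}, p ∈ D.primeFactors ∪ univ.image z →
      p ∈ D.primeFactors ∨ ∃ i, z i = p := by
    intro z p hp
    rcases Finset.mem_union.1 hp with h1 | h1
    · exact Or.inl h1
    · obtain ⟨i, -, hi⟩ := Finset.mem_image.1 h1
      exact Or.inr ⟨i, hi⟩
  have hm1 : ∀ {z : Fin K → ℕ} {p : ℕ}, p ∈ D.primeFactors → p ∈ D.primeFactors ∪ univ.image z :=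
    fun h1 => Finset.mem_union_left _ h1
  have hm2 : ∀ {z : Fin K → ℕ} (i : Fin K), z i ∈ D.primeFactors ∪ univ.image z := fun i =>
    Finset.mem_union_right _ (Finset.mem_image_of_mem _ (Finset.mem_univ i))
  refine gd_transport n4 (sw x y) (sw y x) ?_ ?_ ?_ ?_ ?_ ?_ ?_ hG
  · intro p hp
    rcases hm hp with h1 | ⟨i, rfl⟩
    · rw [sw_D hx y h1]
      exact hm1 h1
    · rw [sw_x hx.2]
      exact hm2 i
  · intro p hp
    rcases hm hp with h1 | ⟨i, rfl⟩
    · rw [sw_D hy x h1]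
      exact hm1 h1
    · rw [sw_x hy.2]
      exact hm2 i
  · intro p hp
    rcases hm hp with h1 | ⟨i, rfl⟩
    · rw [sw_D hx y h1, sw_D hy x h1]
    · rw [sw_x hx.2, sw_x hy.2]
  · intro p hp
    rcases hm hp with h1 | ⟨i, rfl⟩
    · rw [sw_D hy x h1, sw_D hx y h1]
    · rw [sw_x hy.2, sw_x hx.2]
  · intro p hp
    rcases hm hp with h1 | ⟨i, rfl⟩
    · rw [sw_D hx y h1]
    · rw [sw_x hx.2]
      exact b5 i
  · intro p hp
    rcases hm hp with h1 | ⟨i, rfl⟩
    · rw [sw_D hx y h1]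
    · rw [sw_x hx.2]
      exact (b3 i).symm
  · intro p hp q hq hpq
    rcases hm hp with h1 | ⟨i, rfl⟩ <;> rcases hm hq with h2 | ⟨j, rfl⟩
    · rw [sw_D hx y h1, sw_D hx y h2]
    · rw [sw_D hx y h1, sw_x hx.2]
      exact b8 j p h1
    · rw [sw_x hx.2, sw_D hx y h2]
      exact b7 i q h2
    · rw [sw_x hx.2, sw_x hx.2]
      exact b6 i j fun h3 => hpq (by rw [h3])

/-- **the criterion depends only on the symbols** -/
theorem det_of_bit {D : ℕ} (hD : Adm D) {x y : Fin K → ℕ} (hx : Om K D x) (hy : Om K D y)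
    (h : bit D.primeFactors x = bit D.primeFactors y) :
    (mat (D * ∏ i, x i)).det ≠ 0 ↔ (mat (D * ∏ i, y i)).det ≠ 0 := by
  rw [det_iff (adm_prod K hD hx), det_iff (adm_prod K hD hy), pf_prod hD.1.ne_zero hx,
    pf_prod hD.1.ne_zero hy]
  exact ⟨gd_of_bit hD hx hy h, gd_of_bit hD hy hx h.symm⟩

/-- a function of the criterion is a function of the symbols -/
theorem exists_fun {D : ℕ} (hD : Adm D) (T : ℕ → ℝ) (u v : ℝ)
    (hT : ∀ D, Adm D → T D = if (mat D).det ≠ 0 then u else v) :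
    ∃ F : (Pl K D.primeFactors → ZMod 2) → ℝ, ∀ x, Om K D x →
      T (D * ∏ i, x i) = F (bit D.primeFactors x) := by
  refine ⟨fun w => if h : ∃ x, Om K D x ∧ bit D.primeFactors x = w then
    T (D * ∏ i, h.choose i) else 0, fun x hx => ?_⟩
  have h : ∃ y, Om K D y ∧ bit D.primeFactors y = bit D.primeFactors x := ⟨x, hx, rfl⟩
  show T (D * ∏ i, x i) = if h : ∃ y, Om K D y ∧ bit D.primeFactors y = bit D.primeFactors x then
    T (D * ∏ i, h.choose i) else 0
  rw [dif_pos h]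
  obtain ⟨h1, h2⟩ := h.choose_spec
  rw [hT _ (adm_prod K hD hx), hT _ (adm_prod K hD h1)]
  have h3 := det_of_bit hD hx h1 h2.symm
  by_cases h4 : (mat (D * ∏ i, x i)).det ≠ 0
  · rw [if_pos h4, if_pos (h3.1 h4)]
  · rw [if_neg h4, if_neg fun h5 => h4 (h3.2 h5)]

end Pool.Agent.U687.NO
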