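import Pool.Agent.U687.NO.Nat
import Pool.Agent.U687.NO.Inv

/-!
# The law for the twists by the numbers with exactly `K` prime factors
-/

set_option autoImplicit false
set_option linter.unusedSectionVars false

open scoped Classical

namespace Pool.Agent.U687.NO

open Finset Filter Topology
open Pool.Agent.U687.Q2 (av Ca CC wt it it_main PP En exists_en MM cor uw cor_zero_iff det_MM)
open Pool.Agent.U687.JT (nr2 n47 adm_mul)
open Pool.Agent.Results.MP_4a9ea6_nt.TwoPartTwistsX49 (Adm mat)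

/-- the iterated limit of a function of the corank -/
theorem il_T (T G : ℕ → ℝ)
    (hT : ∀ (D n : ℕ) (P : Fin n → ℕ), Adm D → En D n P → T D = G (cor (MM D P))) (K : ℕ) :
    ∀ (D n : ℕ) (P : Fin n → ℕ), Adm D → En D n P →
      IL K D (fun x => T (D * ∏ i, x i)) (PP (fun _ => wt 2) G K n (MM D P)) := by
  induction K with
  | zero =>
    intro D n P hD hP x
    show T (D * ∏ i : Fin 0, x i) = _
    rw [Finset.univ_eq_empty, Finset.prod_empty, mul_one]
    exact (it_main (fun _ => 2) T G hT 0 D n P hD hP).1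
  | succ K ih =>
    intro D n P hD hP
    refine ⟨fun l => it (fun _ => 2) T K (D * l), fun l hl hC hlD => ?_,
      (it_main (fun _ => 2) T G hT K D n P hD hP).2⟩
    have hA : Adm (D * l) := adm_mul hD hl hC hlD
    obtain ⟨P', hP'⟩ := exists_en (D * l)
    have h1 := ih (D * l) _ P' hA hP'
    rw [← (it_main (fun _ => 2) T G hT K (D * l) _ P' hA hP').1] at h1
    refine IL.congr (fun x _ => ?_) h1
    show T (D * l * ∏ i, x i) = T (D * ∏ i, (Fin.cons l x : Fin (K + 1) → ℕ) i)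
    rw [Fin.prod_univ_succ, Fin.cons_zero]
    simp only [Fin.cons_succ]
    rw [mul_assoc]

/-- the numbers `m ≤ X`, prime to `D`, with exactly `K` prime factors, all different and `1` modulo
`4` -/
noncomputable def Ms (K D X : ℕ) : Finset ℕ :=
  (Icc 1 X).filter fun m => Squarefree m ∧ m.primeFactors.card = K ∧
    (∀ p ∈ m.primeFactors, p % 4 = 1) ∧ Nat.Coprime m D

theorem mem_Ms {K D X m : ℕ} : m ∈ Ms K D X ↔ (1 ≤ m ∧ m ≤ X) ∧ Squarefree m ∧
    m.primeFactors.card = K ∧ (∀ p ∈ m.primeFactors, p % 4 = 1) ∧ Nat.Coprime m D := by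
  unfold Ms
  rw [Finset.mem_filter, Finset.mem_Icc]

theorem mem_Oq {K D X : ℕ} {x : Fin K → ℕ} :
    x ∈ Oq K D X ↔ Om K D x ∧ ∏ i, x i ≤ X := by
  unfold Oq Ot
  rw [Finset.mem_filter, mem_Os]
  constructor
  · rintro ⟨⟨-, h1⟩, h2⟩
    exact ⟨h2, h1⟩
  · rintro ⟨h2, h1⟩
    refine ⟨⟨fun i => mem_pr.2 ⟨?_, (h2.1 i).1, (h2.1 i).2.1⟩, h1⟩, h2⟩
    have h3 : x i ∣ ∏ i, x i := Finset.dvd_prod_of_mem _ (Finset.mem_univ i)
    have h4 : 0 < ∏ i, x i := Finset.prod_pos fun i _ => (h2.1 i).1.pos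
    exact (Nat.le_of_dvd h4 h3).trans h1

theorem img_pf {K D : ℕ} {x : Fin K → ℕ} (hx : Om K D x) :
    (∏ i, x i).primeFactors = univ.image x ∧ Squarefree (∏ i, x i) := by
  have h1 : ∏ i, x i = ∏ p ∈ univ.image x, p := by
    rw [Finset.prod_image fun i _ j _ h => hx.2 h]
  have h2 : ∀ p ∈ univ.image x, p.Prime := by
    intro p hp
    obtain ⟨i, -, rfl⟩ := Finset.mem_image.1 hp
    exact (hx.1 i).1
  rw [h1]
  refine ⟨Nat.primeFactors_prod h2, ?_⟩
  rw [Nat.squarefree_iff_prime_squarefree]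
  intro p hp hd
  have h3 : (∏ p ∈ univ.image x, p).factorization p ≤ 1 := by
    rw [Nat.factorization_prod fun q hq => (h2 q hq).ne_zero]
    rw [Finsupp.finsetSum_apply]
    have h4 : ∀ q ∈ univ.image x, q.factorization p = if q = p then 1 else 0 := by
      intro q hq
      rw [(h2 q hq).factorization, Finsupp.single_apply]
    rw [Finset.sum_congr rfl h4, Finset.sum_ite_eq']
    split_ifs <;> norm_num
  have h4 : 0 < ∏ p ∈ univ.image x, p := Finset.prod_pos fun q hq => (h2 q hq).pos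
  have h5 := (hp.pow_dvd_iff_le_factorization h4.ne').1 (by rw [pow_two]; exact hd)
  omega

theorem prod_mem_Ms {K D X : ℕ} {x : Fin K → ℕ} (hx : x ∈ Oq K D X) : ∏ i, x i ∈ Ms K D X := by
  obtain ⟨h1, h2⟩ := mem_Oq.1 hx
  obtain ⟨h3, h4⟩ := img_pf h1
  rw [mem_Ms]
  refine ⟨⟨Finset.prod_pos fun i _ => (h1.1 i).1.pos, h2⟩, h4, ?_, ?_, ?_⟩
  · rw [h3, Finset.card_image_of_injective _ h1.2, Finset.card_univ, Fintype.card_fin]
  · intro p hp
    rw [h3] at hp
    obtain ⟨i, -, rfl⟩ := Finset.mem_image.1 hp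
    exact (h1.1 i).2.1
  · exact Nat.Coprime.prod_left fun i _ => (Nat.Prime.coprime_iff_not_dvd (h1.1 i).1).2 (h1.1 i).2.2

/-- the number of the orders of the prime factors -/
theorem fiber_card {K D X m : ℕ} (hm : m ∈ Ms K D X) :
    ((Oq K D X).filter fun x => ∏ i, x i = m).card = K.factorial := by
  obtain ⟨⟨h1, h2⟩, h3, h4, h5, h6⟩ := mem_Ms.1 hm
  have h7 : Fintype.card (Fin K ↪ m.primeFactors) = K.factorial := by
    rw [Fintype.card_embedding_eq, Fintype.card_coe, h4, Fintype.card_fin, Nat.descFactorial_self]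
  rw [← h7, ← Finset.card_univ,
    ← Finset.card_image_of_injective (univ : Finset (Fin K ↪ m.primeFactors))
      (f := fun (e : Fin K ↪ m.primeFactors) (i : Fin K) => ((e i : m.primeFactors) : ℕ)) (by
      intro e e' h
      ext i
      exact congrFun h i)]
  congr 1
  ext x
  rw [Finset.mem_filter, Finset.mem_image]
  constructor
  · rintro ⟨hx, rfl⟩
    obtain ⟨g1, g2⟩ := mem_Oq.1 hx
    have g3 := (img_pf g1).1
    refine ⟨⟨fun i => ⟨x i, by rw [g3]; exact Finset.mem_image_of_mem _ (Finset.mem_univ i)⟩, ?_⟩,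
      Finset.mem_univ _, rfl⟩
    intro i j hij
    exact g1.2 (congrArg (fun z : (∏ i, x i).primeFactors => (z : ℕ)) hij)
  · rintro ⟨e, -, rfl⟩
    have g0 : Function.Injective fun i : Fin K => ((e i : m.primeFactors) : ℕ) := fun i j hij =>
      e.injective (Subtype.ext hij)
    have g1 : univ.image (fun i : Fin K => ((e i : m.primeFactors) : ℕ)) = m.primeFactors := by
      apply Finset.eq_of_subset_of_card_le
      · intro p hp
        obtain ⟨i, -, rfl⟩ := Finset.mem_image.1 hp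
        exact (e i).2
      · rw [Finset.card_image_of_injective _ g0, Finset.card_univ, Fintype.card_fin, h4]
    have g2 : ∏ i, ((e i : m.primeFactors) : ℕ) = m := by
      have g3 : ∏ p ∈ univ.image (fun i : Fin K => ((e i : m.primeFactors) : ℕ)), p =
          ∏ i, ((e i : m.primeFactors) : ℕ) := Finset.prod_image fun i _ j _ h => g0 h
      rw [← g3, g1]
      exact Nat.prod_primeFactors_of_squarefree h3
    refine ⟨mem_Oq.2 ⟨⟨fun i => ?_, g0⟩, ?_⟩, g2⟩
    · have g3 := (e i).2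
      refine ⟨Nat.prime_of_mem_primeFactors g3, h5 _ g3, fun g4 => ?_⟩
      have g5 := Nat.dvd_gcd (Nat.dvd_of_mem_primeFactors g3) g4
      rw [h6] at g5
      exact (Nat.prime_of_mem_primeFactors g3).one_lt.ne' (Nat.dvd_one.1 g5)
    · rw [g2]
      exact h2

theorem sum_Oq (K D X : ℕ) (g : ℕ → ℝ) :
    ∑ x ∈ Oq K D X, g (∏ i, x i) = K.factorial * ∑ m ∈ Ms K D X, g m := by
  rw [← Finset.sum_fiberwise_of_maps_to (g := fun x : Fin K → ℕ => ∏ i, x i)
    (t := Ms K D X) fun x hx => prod_mem_Ms hx, Finset.mul_sum]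
  refine Finset.sum_congr rfl fun m hm => ?_
  rw [Finset.sum_congr rfl (g := fun _ => g m) fun x hx => by rw [(Finset.mem_filter.1 hx).2],
    Finset.sum_const, nsmul_eq_mul]
  congr 2
  exact_mod_cast fiber_card hm

/-- **the law for the twists by the numbers with exactly `k + 1` prime factors** -/
theorem law_m (T : ℕ → ℝ) (u v : ℝ)
    (hT : ∀ (D n : ℕ) (P : Fin n → ℕ), Adm D → En D n P → T D = uw u v (cor (MM D P)))
    {D n : ℕ} {P : Fin n → ℕ} (hD : Adm D) (hP : En D n P) (k : ℕ) :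
    (∀ᶠ X : ℕ in atTop, 0 < (Ms (k + 1) D X).card) ∧
    Tendsto (fun X : ℕ => (∑ m ∈ Ms (k + 1) D X, T (D * m)) / ((Ms (k + 1) D X).card : ℝ)) atTop
      (𝓝 (PP (fun _ => wt 2) (uw u v) (k + 1) n (MM D P))) := by
  have hT' : ∀ D, Adm D → T D = if (mat D).det ≠ 0 then u else v := by
    intro D hD
    obtain ⟨P, hP⟩ := exists_en D
    rw [hT D _ P hD hP]
    unfold uw
    by_cases h : (mat D).det ≠ 0
    · rw [if_pos h, if_pos]
      rw [cor_zero_iff, ← det_MM hP]
      exact h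
    · rw [if_neg h, if_neg]
      rw [cor_zero_iff, ← det_MM hP]
      exact h
  obtain ⟨F, hF⟩ := exists_fun (K := k + 1) hD T u v hT'
  have hW : ∀ r ∈ D.primeFactors, r.Prime ∧ r % 4 = 1 := fun r hr =>
    ⟨Nat.prime_of_mem_primeFactors hr, hD.2 r hr⟩
  have h1 := il_fun hD.1.ne_zero (fun r hr => ⟨(hW r hr).1, (hW r hr).2,
    Nat.dvd_of_mem_primeFactors hr⟩) F (fun x => T (D * ∏ i, x i)) hF
  have h2 := il_T T (uw u v) hT (k + 1) D n P hD hP
  have h3 := h1.unique h2
  obtain ⟨h4, h5⟩ := law_tuples k hD.1.ne_zero hW F (∑ w, |F w|)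
    (fun w => Finset.single_le_sum (f := fun w => |F w|) (fun w _ => abs_nonneg _)
      (Finset.mem_univ w)) (fun x => T (D * ∏ i, x i)) hF
  rw [h3] at h5
  have hc : ∀ X, ((Oq (k + 1) D X).card : ℝ) =
      ((k + 1).factorial : ℝ) * ((Ms (k + 1) D X).card : ℝ) := by
    intro X
    have := sum_Oq (k + 1) D X fun _ => 1
    rw [← card_as_sum, ← card_as_sum] at this
    exact this
  have hfac : (0 : ℝ) < ((k + 1).factorial : ℝ) := by exact_mod_cast Nat.factorial_pos _
  refine ⟨?_, ?_⟩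
  · filter_upwards [h4] with X hX
    have h6 : (0 : ℝ) < ((Oq (k + 1) D X).card : ℝ) := by exact_mod_cast hX
    rw [hc] at h6
    have h7 := pos_of_mul_pos_right h6 hfac.le
    exact_mod_cast h7
  · refine h5.congr fun X => ?_
    rw [hc, sum_Oq (k + 1) D X fun m => T (D * m), mul_div_mul_left _ _ hfac.ne']

end Pool.Agent.U687.NO
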