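import Pool.Agent.U687.NO.Mean

/-!
# Iterated limits of functions of several primes
-/

set_option autoImplicit false
set_option linter.unusedSectionVars false

open scoped Classical

namespace Pool.Agent.U687.NO

open Finset Filter Topology
open Pool.Agent.U687.Q2 (av Ca)
open Pool.Agent.U687.JT (nr2 n47 nonsq_symm)

theorem nr2_symm {p q : ℕ} (hp : p.Prime) (hq : q.Prime) (hp4 : p % 4 = 1) (hq4 : q % 4 = 1) :
    nr2 p q = nr2 q p := nonsq_symm hp hq hp4 hq4

/-- the iterated limit of `f` over the primes not dividing `D` is `L` -/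
def IL : (K : ℕ) → ℕ → ((Fin K → ℕ) → ℝ) → ℝ → Prop
  | 0, _, f, L => ∀ x, f x = L
  | K + 1, D, f, L => ∃ g : ℕ → ℝ, (∀ l, l.Prime → Ca l → ¬ l ∣ D →
      IL K (D * l) (fun x => f (Fin.cons l x)) (g l)) ∧ Tendsto (av Ca D g) atTop (𝓝 L)

/-- the tuples of different primes not dividing `D` -/
def Om (K D : ℕ) (x : Fin K → ℕ) : Prop :=
  (∀ i, (x i).Prime ∧ Ca (x i) ∧ ¬ x i ∣ D) ∧ Function.Injective x

theorem Om.cons {K D l : ℕ} (hl : l.Prime) (hC : Ca l) (hlD : ¬ l ∣ D) {x : Fin K → ℕ}
    (h : Om K (D * l) x) : Om (K + 1) D (Fin.cons l x : Fin (K + 1) → ℕ) := by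
  have hne : ∀ i, x i ≠ l := by
    intro i hi
    apply (h.1 i).2.2
    rw [hi]
    exact dvd_mul_left l D
  refine ⟨?_, ?_⟩
  · intro i
    refine Fin.cases ?_ (fun j => ?_) i
    · exact ⟨hl, hC, hlD⟩
    · have := h.1 j
      exact ⟨this.1, this.2.1, fun hd => this.2.2 (hd.mul_right l)⟩
  · intro i j
    refine Fin.cases ?_ (fun i' => ?_) i <;> refine Fin.cases ?_ (fun j' => ?_) j
    · exact fun _ => rfl
    · intro hij
      exact absurd hij.symm (hne j')
    · intro hij
      exact absurd hij (hne i')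
    · intro hij
      exact congrArg Fin.succ (h.2 hij)

theorem av_congr {D : ℕ} {g g' : ℕ → ℝ} (h : ∀ l, l.Prime → Ca l → ¬ l ∣ D → g l = g' l) :
    av Ca D g = av Ca D g' := by
  funext X
  unfold av
  congr 1
  refine Finset.sum_congr rfl fun l hl => ?_
  obtain ⟨-, h1, h2, h3⟩ := Finset.mem_filter.1 hl
  exact h l h1 h2 h3

theorem av_add (D : ℕ) (g g' : ℕ → ℝ) (X : ℕ) :
    av Ca D (fun l => g l + g' l) X = av Ca D g X + av Ca D g' X := by
  unfold av
  rw [Finset.sum_add_distrib, add_div]

theorem av_mul_const (D : ℕ) (c : ℝ) (g : ℕ → ℝ) (X : ℕ) :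
    av Ca D (fun l => c * g l) X = c * av Ca D g X := by
  unfold av
  rw [← Finset.mul_sum, mul_div_assoc]

theorem IL.congr {K : ℕ} : ∀ {D : ℕ} {f f' : (Fin K → ℕ) → ℝ} {L : ℝ},
    (∀ x, Om K D x → f x = f' x) → IL K D f L → IL K D f' L := by
  induction K with
  | zero =>
    intro D f f' L h h1 x
    rw [← h x ⟨fun i => i.elim0, fun i => i.elim0⟩]
    exact h1 x
  | succ K ih =>
    rintro D f f' L h ⟨g, h1, h2⟩
    exact ⟨g, fun l hl hC hlD => ih (fun x hx => h _ (hx.cons hl hC hlD)) (h1 l hl hC hlD), h2⟩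

theorem IL.unique {K : ℕ} : ∀ {D : ℕ} {f : (Fin K → ℕ) → ℝ} {L L' : ℝ},
    IL K D f L → IL K D f L' → L = L' := by
  induction K with
  | zero =>
    intro D f L L' h h'
    rw [← h Fin.elim0, ← h' Fin.elim0]
  | succ K ih =>
    rintro D f L L' ⟨g, h1, h2⟩ ⟨g', h1', h2'⟩
    have e : av Ca D g = av Ca D g' :=
      av_congr fun l hl hC hlD => ih (h1 l hl hC hlD) (h1' l hl hC hlD)
    rw [e] at h2
    exact tendsto_nhds_unique h2 h2'

theorem IL.add {K : ℕ} : ∀ {D : ℕ} {f f' : (Fin K → ℕ) → ℝ} {L L' : ℝ},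
    IL K D f L → IL K D f' L' → IL K D (fun x => f x + f' x) (L + L') := by
  induction K with
  | zero =>
    intro D f f' L L' h h' x
    show f x + f' x = L + L'
    rw [h x, h' x]
  | succ K ih =>
    rintro D f f' L L' ⟨g, h1, h2⟩ ⟨g', h1', h2'⟩
    refine ⟨fun l => g l + g' l, fun l hl hC hlD => ih (h1 l hl hC hlD) (h1' l hl hC hlD), ?_⟩
    refine (h2.add h2').congr fun X => ?_
    exact (av_add D g g' X).symm

theorem IL.mul {K : ℕ} (c : ℝ) : ∀ {D : ℕ} {f : (Fin K → ℕ) → ℝ} {L : ℝ},
    IL K D f L → IL K D (fun x => c * f x) (c * L) := by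
  induction K with
  | zero =>
    intro D f L h x
    show c * f x = c * L
    rw [h x]
  | succ K ih =>
    rintro D f L ⟨g, h1, h2⟩
    refine ⟨fun l => c * g l, fun l hl hC hlD => ih (h1 l hl hC hlD), ?_⟩
    refine (h2.const_mul c).congr fun X => ?_
    exact (av_mul_const D c g X).symm

/-- half of the primes split etc.: the mean of a constant -/
theorem av_const {D : ℕ} (hD : D ≠ 0) (c : ℝ) : Tendsto (av Ca D fun _ => c) atTop (𝓝 c) := by
  have h := mean_mo ∅ (by simp) false false hD
  have e1 : me ∅ false false = 1 := by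
    unfold me
    norm_num
  have e2 : mo ∅ false false = fun _ => (1 : ℝ) := by
    funext l
    unfold mo
    norm_num
  rw [e1, e2] at h
  have h3 := h.const_mul c
  rw [mul_one] at h3
  refine h3.congr fun X => ?_
  rw [← av_mul_const]
  simp

theorem IL.zero {K : ℕ} : ∀ {D : ℕ}, IL K D (fun _ => 0) 0 := by
  induction K with
  | zero =>
    intro D x
    rfl
  | succ K ih =>
    intro D
    refine ⟨fun _ => 0, fun l hl hC hlD => ih, ?_⟩
    have : av Ca D (fun _ => (0 : ℝ)) = fun _ => 0 := by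
      funext X
      unfold av
      rw [Finset.sum_const_zero, zero_div]
    rw [this]
    exact tendsto_const_nhds

theorem IL.sum {K : ℕ} {ι : Type} (s : Finset ι) {D : ℕ} (f : ι → (Fin K → ℕ) → ℝ) (L : ι → ℝ)
    (h : ∀ i ∈ s, IL K D (f i) (L i)) : IL K D (fun x => ∑ i ∈ s, f i x) (∑ i ∈ s, L i) := by
  induction s using Finset.induction_on with
  | empty =>
    simp only [Finset.sum_empty]
    exact IL.zero
  | insert i s hi ih =>
    simp only [Finset.sum_insert hi]
    exact (h i (Finset.mem_insert_self i s)).add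
      (ih fun j hj => h j (Finset.mem_insert_of_mem hj))

/-- the pure functions of a tuple of primes -/
noncomputable def pu {K : ℕ} (A : Fin K → Finset ℕ) (a b : Fin K → Bool)
    (e : Fin K → Fin K → Bool) (x : Fin K → ℕ) : ℝ :=
  (∏ i, mo (A i) (a i) (b i) (x i)) *
    ∏ i, ∏ j, if i < j ∧ e i j = true then sn (nr2 (x i) (x j)) else 1

/-- there are no edges -/
def No {K : ℕ} (e : Fin K → Fin K → Bool) : Prop := ∀ i j, i < j → e i j = false

theorem mo_insert {A : Finset ℕ} {l : ℕ} (h : l ∉ A) (a b : Bool) (x : ℕ) :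
    mo (insert l A) a b x = sn (nr2 x l) * mo A a b x := by
  unfold mo
  rw [Finset.prod_insert h]
  ring

/-- the sets for the other primes after the first prime has been fixed -/
noncomputable def sh {K : ℕ} (l : ℕ) (A : Fin (K + 1) → Finset ℕ)
    (e : Fin (K + 1) → Fin (K + 1) → Bool) (i : Fin K) : Finset ℕ :=
  if e 0 i.succ = true then insert l (A i.succ) else A i.succ

theorem pu_cons {K : ℕ} (A : Fin (K + 1) → Finset ℕ) (a b : Fin (K + 1) → Bool)
    (e : Fin (K + 1) → Fin (K + 1) → Bool) {l : ℕ} (hl : l.Prime) (hC : Ca l)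
    (hlA : ∀ i, l ∉ A i) {x : Fin K → ℕ} (hx : ∀ i, (x i).Prime ∧ Ca (x i)) :
    pu A a b e (Fin.cons l x) = mo (A 0) (a 0) (b 0) l *
      pu (sh l A e) (fun i => a i.succ) (fun i => b i.succ) (fun i j => e i.succ j.succ) x := by
  unfold pu
  rw [Fin.prod_univ_succ, Fin.prod_univ_succ (fun i => ∏ j, _)]
  simp only [Fin.cons_zero, Fin.cons_succ]
  rw [Fin.prod_univ_succ (fun j => if (0 : Fin (K + 1)) < j ∧ e 0 j = true then
    sn (nr2 l ((Fin.cons l x : Fin (K + 1) → ℕ) j)) else 1)]
  have h0 : ¬ ((0 : Fin (K + 1)) < 0 ∧ e 0 0 = true) := fun h => absurd h.1 (lt_irrefl _)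
  rw [if_neg h0, one_mul]
  have h1 : ∀ i : Fin K, (∏ j, if i.succ < j ∧ e i.succ j = true then
      sn (nr2 (x i) ((Fin.cons l x : Fin (K + 1) → ℕ) j)) else 1) =
      ∏ j : Fin K, if i < j ∧ e i.succ j.succ = true then sn (nr2 (x i) (x j)) else 1 := by
    intro i
    rw [Fin.prod_univ_succ]
    have h2 : ¬ (i.succ < 0 ∧ e i.succ 0 = true) := fun h => absurd h.1 (Fin.not_lt_zero _)
    rw [if_neg h2, one_mul]
    simp only [Fin.cons_succ, Fin.succ_lt_succ_iff]
  rw [Finset.prod_congr rfl fun i _ => h1 i]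
  simp only [Fin.cons_succ, Fin.succ_pos, true_and]
  have h3 : ∀ i : Fin K, mo (sh l A e i) (a i.succ) (b i.succ) (x i) =
      mo (A i.succ) (a i.succ) (b i.succ) (x i) *
        (if e 0 i.succ = true then sn (nr2 l (x i)) else 1) := by
    intro i
    unfold sh
    split_ifs with h
    · rw [mo_insert (hlA _), nr2_symm hl (hx i).1 hC (hx i).2]
      ring
    · rw [mul_one]
  rw [Finset.prod_congr rfl fun i _ => h3 i, Finset.prod_mul_distrib]
  ring

/-- **the iterated limits of the pure functions** -/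
theorem il_pure (K : ℕ) : ∀ {D : ℕ}, D ≠ 0 → ∀ (A : Fin K → Finset ℕ) (a b : Fin K → Bool)
    (e : Fin K → Fin K → Bool), (∀ i, ∀ r ∈ A i, r.Prime ∧ r % 4 = 1 ∧ r ∣ D) →
    IL K D (pu A a b e) (if No e then ∏ i, me (A i) (a i) (b i) else 0) := by
  induction K with
  | zero =>
    intro D _ A a b e _ x
    have h : No e := fun i => i.elim0
    rw [if_pos h]
    unfold pu
    simp
  | succ K ih =>
    intro D hD A a b e hA
    have hlA : ∀ l : ℕ, ¬ l ∣ D → ∀ i, l ∉ A i := fun l hl i h => hl (hA i l h).2.2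
    set c : ℝ := if No e then ∏ i : Fin K, me (A i.succ) (a i.succ) (b i.succ) else 0 with hc
    have hL : (if No e then ∏ i, me (A i) (a i) (b i) else 0) = me (A 0) (a 0) (b 0) * c := by
      rw [hc]
      split_ifs
      · rw [Fin.prod_univ_succ]
      · rw [mul_zero]
    rw [hL]
    refine ⟨fun l => mo (A 0) (a 0) (b 0) l * c, ?_, ?_⟩
    · intro l hl hC hlD
      have h1 := ih (D := D * l) (mul_ne_zero hD hl.ne_zero) (sh l A e) (fun i => a i.succ)
        (fun i => b i.succ) (fun i j => e i.succ j.succ) (by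
          intro i r hr
          unfold sh at hr
          split_ifs at hr
          · rcases Finset.mem_insert.1 hr with rfl | hr
            · exact ⟨hl, hC, dvd_mul_left _ _⟩
            · obtain ⟨p1, p2, p3⟩ := hA _ r hr
              exact ⟨p1, p2, p3.mul_right _⟩
          · obtain ⟨p1, p2, p3⟩ := hA _ r hr
            exact ⟨p1, p2, p3.mul_right _⟩)
      have hcc : (if No (fun i j : Fin K => e i.succ j.succ) then
          ∏ i, me (sh l A e i) (a i.succ) (b i.succ) else 0) = c := by
        rw [hc]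
        by_cases hN : No e
        · have hN' : No (fun i j : Fin K => e i.succ j.succ) := fun i j hij =>
            hN _ _ (Fin.succ_lt_succ_iff.2 hij)
          rw [if_pos hN, if_pos hN']
          refine Finset.prod_congr rfl fun i _ => ?_
          unfold sh
          rw [if_neg]
          rw [hN 0 i.succ (Fin.succ_pos i)]
          exact Bool.false_ne_true
        · rw [if_neg hN]
          by_cases hN' : No (fun i j : Fin K => e i.succ j.succ)
          · rw [if_pos hN']
            obtain ⟨i, hi⟩ : ∃ i : Fin K, e 0 i.succ = true := by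
              by_contra hcon
              apply hN
              intro i j
              refine Fin.cases ?_ (fun i' => ?_) i <;> refine Fin.cases ?_ (fun j' => ?_) j
              · exact fun h => absurd h (lt_irrefl _)
              · intro _
                by_contra h
                exact hcon ⟨j', by simpa using h⟩
              · exact fun h => absurd h (Fin.not_lt_zero _)
              · exact fun h => hN' i' j' (Fin.succ_lt_succ_iff.1 h)
            refine Finset.prod_eq_zero (Finset.mem_univ i) ?_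
            unfold sh
            rw [if_pos hi, me_insert]
          · rw [if_neg hN']
      rw [hcc] at h1
      refine IL.congr (fun x hx => ?_) (h1.mul (mo (A 0) (a 0) (b 0) l))
      exact (pu_cons A a b e hl hC (hlA l hlD) fun i => ⟨(hx.1 i).1, (hx.1 i).2.1⟩).symm
    · have h1 := (mean_mo (A 0) (fun r hr => ⟨(hA 0 r hr).1, (hA 0 r hr).2.1⟩) (a 0) (b 0) hD).const_mul c
      rw [mul_comm c] at h1
      refine h1.congr fun X => ?_
      rw [← av_mul_const]
      congr 1
      funext l
      rw [mul_comm]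

end Pool.Agent.U687.NO
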