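import Pool.Agent.U687.NO.Size

/-!
# Averages over tuples with bounded product: products of functions of the coordinates
-/

set_option autoImplicit false
set_option linter.unusedSectionVars false

open scoped Classical

namespace Pool.Agent.U687.NO

open Finset Filter Topology
open Pool.Agent.U687.Q2 (av Ca)

/-- the average over the tuples with product at most `X` -/
noncomputable def na (K : ℕ) (Φ : (Fin K → ℕ) → ℝ) (X : ℕ) : ℝ :=
  (∑ x ∈ Ot K X, Φ x) / ((Ot K X).card : ℝ)

theorem ot_pos (n : ℕ) : ∀ᶠ X : ℕ in atTop, 0 < (((Ot (n + 1) X).card : ℕ) : ℝ) := by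
  obtain ⟨c, hc, h⟩ := low' n
  filter_upwards [h, el_tendsto.eventually_ge_atTop 1, eventually_ge_atTop 3] with X h1 h2 h3
  have hXr : (0 : ℝ) < X := by exact_mod_cast (by omega : 0 < X)
  have hL : 0 < Real.log X := Real.log_pos (by exact_mod_cast (by omega : 1 < X))
  have : 0 < el X := by linarith
  exact lt_of_lt_of_le (by positivity) h1

theorem na_add {K : ℕ} (Φ Ψ : (Fin K → ℕ) → ℝ) (X : ℕ) :
    na K (fun x => Φ x + Ψ x) X = na K Φ X + na K Ψ X := by
  unfold na
  rw [Finset.sum_add_distrib, add_div]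

theorem na_mul {K : ℕ} (c : ℝ) (Φ : (Fin K → ℕ) → ℝ) (X : ℕ) :
    na K (fun x => c * Φ x) X = c * na K Φ X := by
  unfold na
  rw [← Finset.mul_sum, mul_div_assoc]

theorem na_one (n : ℕ) : Tendsto (na (n + 1) fun _ => 1) atTop (𝓝 1) := by
  refine tendsto_const_nhds.congr' ?_
  filter_upwards [ot_pos n] with X hX
  unfold na
  rw [Finset.sum_const, nsmul_eq_mul, mul_one, div_self hX.ne']

/-- the coordinate one -/
theorem rr_one (n : ℕ) (i : Fin (n + 1)) :
    Tendsto (fun X : ℕ => ((Os (Function.update (fun _ => pr X) i {1}) X).card : ℝ) /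
      ((Ot (n + 1) X).card : ℝ)) atTop (𝓝 0) := by
  refine rr n i (fun _ => {1}) ?_ ?_
  · filter_upwards [eventually_ge_atTop 1] with X hX t ht
    rw [Finset.mem_singleton] at ht
    subst ht
    exact ⟨le_refl _, by simpa using hX⟩
  · simp only [RS_one]
    exact tendsto_const_nhds.div_atTop el_tendsto

theorem filter_pr {X m : ℕ} (hm : 1 ≤ m) : (pr X).filter (fun p => p * m ≤ X) = pr (X / m) := by
  ext p
  rw [Finset.mem_filter, mem_pr, mem_pr, Nat.le_div_iff_mul_le (by omega)]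
  constructor
  · rintro ⟨⟨-, h1⟩, h2⟩
    exact ⟨h2, h1⟩
  · rintro ⟨h1, h2⟩
    exact ⟨⟨(Nat.le_mul_of_pos_right p (by omega)).trans h1, h2⟩, h1⟩

theorem pr_pos' {X p : ℕ} (h : p ∈ pr X) : 1 ≤ p := (mem_pr.1 h).2.1.one_lt.le

/-- **replacing a function of one coordinate by its mean** -/
theorem linC (n : ℕ) (j : Fin (n + 1)) (φ : ℕ → ℝ) (hb : ∀ p, |φ p| ≤ 2)
    (hφ : Tendsto (fun Z : ℕ => (∑ p ∈ pr Z, φ p) / ((pr Z).card : ℝ)) atTop (𝓝 0))
    (d : (Fin (n + 1) → ℕ) → ℝ) (hd : ∀ x, |d x| ≤ 1)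
    (hdj : ∀ x p, d (Function.update x j p) = d x) :
    Tendsto (na (n + 1) fun x => d x * φ (x j)) atTop (𝓝 0) := by
  rw [Metric.tendsto_atTop]
  intro ε hε
  rw [Metric.tendsto_atTop] at hφ
  obtain ⟨Z₀, hZ₀⟩ := hφ (ε / 2) (by positivity)
  have hall : ∀ Z : ℕ, |∑ p ∈ pr Z, φ p| ≤ ε / 2 * (pr Z).card + 2 * Z₀ := by
    intro Z
    by_cases hZ : Z₀ ≤ Z
    · have h1 := hZ₀ Z hZ
      rw [Real.dist_eq, sub_zero, abs_div, Nat.abs_cast] at h1
      by_cases h0 : ((pr Z).card : ℝ) = 0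
      · have h2 : pr Z = ∅ := Finset.card_eq_zero.1 (by exact_mod_cast h0)
        rw [h2]
        simp
      · have h2 : (0 : ℝ) < (pr Z).card := lt_of_le_of_ne (Nat.cast_nonneg _) (Ne.symm h0)
        rw [div_lt_iff₀ h2] at h1
        have : (0 : ℝ) ≤ 2 * Z₀ := by positivity
        linarith
    · refine (Finset.abs_sum_le_sum_abs _ _).trans ?_
      refine (Finset.sum_le_sum fun p _ => hb p).trans ?_
      rw [Finset.sum_const, nsmul_eq_mul]
      have h1 : (pr Z).card ≤ Z₀ := by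
        have h2 : pr Z ⊆ Icc 1 Z := Finset.filter_subset _ _
        have h3 := Finset.card_le_card h2
        rw [Nat.card_Icc] at h3
        omega
      have h2 : ((pr Z).card : ℝ) ≤ Z₀ := by exact_mod_cast h1
      have : (0 : ℝ) ≤ ε / 2 * (pr Z).card := by positivity
      linarith
  have hr := rr_one n j
  rw [Metric.tendsto_atTop] at hr
  obtain ⟨X₁, hX₁⟩ := hr (ε / 2 / (2 * Z₀ + 1)) (by positivity)
  obtain ⟨X₂, hX₂⟩ := eventually_atTop.1 (ot_pos n)
  refine ⟨max X₁ X₂, fun X hX => ?_⟩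
  have h1 := hX₁ X ((le_max_left _ _).trans hX)
  have h2 := hX₂ X ((le_max_right _ _).trans hX)
  rw [Real.dist_eq, sub_zero, abs_of_nonneg (by positivity), div_lt_iff₀ h2] at h1
  rw [Real.dist_eq, sub_zero]
  unfold na
  rw [abs_div, Nat.abs_cast, div_lt_iff₀ h2]
  have hpos : ∀ k, ∀ p ∈ (fun _ : Fin (n + 1) => pr X) k, 1 ≤ p := fun _ p hp => pr_pos' hp
  have h3 : |∑ x ∈ Ot (n + 1) X, d x * φ (x j)| ≤ ε / 2 * (Ot (n + 1) X).card +
      2 * Z₀ * (Os (Function.update (fun _ : Fin (n + 1) => pr X) j {1}) X).card := by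
    unfold Ot
    rw [fibO _ j X]
    have h4 : ((Os (fun _ : Fin (n + 1) => pr X) X).card : ℝ) =
        ∑ y ∈ Fintype.piFinset (Function.update (fun _ : Fin (n + 1) => pr X) j {1}),
          ((pr (X / ∏ k, y k)).card : ℝ) := by
      rw [card_as_sum, fibO _ j X]
      refine Finset.sum_congr rfl fun y hy => ?_
      rw [← card_as_sum, filter_pr (pos_of_mem hpos hy)]
    have h5 : ((Os (Function.update (fun _ : Fin (n + 1) => pr X) j {1}) X).card : ℝ) =
        ∑ y ∈ Fintype.piFinset (Function.update (fun _ : Fin (n + 1) => pr X) j {1}),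
          if ∏ k, y k ≤ X then (1 : ℝ) else 0 := by
      rw [card_as_sum]
      unfold Os
      rw [Finset.sum_filter]
    rw [h4, h5, Finset.mul_sum, Finset.mul_sum, ← Finset.sum_add_distrib]
    refine (Finset.abs_sum_le_sum_abs _ _).trans (Finset.sum_le_sum fun y hy => ?_)
    have hm := pos_of_mem hpos hy
    rw [filter_pr hm]
    have h6 : ∑ p ∈ pr (X / ∏ k, y k), d (Function.update y j p) * φ (Function.update y j p j) =
        d y * ∑ p ∈ pr (X / ∏ k, y k), φ p := by
      rw [Finset.mul_sum]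
      refine Finset.sum_congr rfl fun p _ => ?_
      rw [hdj, Function.update_self]
    rw [h6, abs_mul]
    by_cases hmX : ∏ k, y k ≤ X
    · rw [if_pos hmX, mul_one]
      calc |d y| * |∑ p ∈ pr (X / ∏ k, y k), φ p| ≤ 1 * |∑ p ∈ pr (X / ∏ k, y k), φ p| :=
            mul_le_mul_of_nonneg_right (hd y) (abs_nonneg _)
        _ ≤ _ := by
            rw [one_mul]
            exact hall _
    · have h7 : X / ∏ k, y k = 0 := Nat.div_eq_of_lt (by omega)
      have h8 : pr 0 = ∅ := by
        ext p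
        rw [mem_pr]
        simp only [Finset.notMem_empty, iff_false, not_and]
        intro h9 h10
        exact absurd h10.pos (by omega)
      rw [h7, h8, if_neg hmX]
      simp
  have h9 : 2 * (Z₀ : ℝ) * (ε / 2 / (2 * Z₀ + 1)) ≤ ε / 2 := by
    rw [← mul_div_assoc, div_le_iff₀ (by positivity)]
    nlinarith
  have h10 : 2 * (Z₀ : ℝ) * (Os (Function.update (fun _ : Fin (n + 1) => pr X) j {1}) X).card ≤
      ε / 2 * (Ot (n + 1) X).card := by
    calc 2 * (Z₀ : ℝ) * (Os (Function.update (fun _ : Fin (n + 1) => pr X) j {1}) X).card ≤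
          2 * (Z₀ : ℝ) * (ε / 2 / (2 * Z₀ + 1) * (Ot (n + 1) X).card) :=
          mul_le_mul_of_nonneg_left h1.le (by positivity)
      _ = 2 * (Z₀ : ℝ) * (ε / 2 / (2 * Z₀ + 1)) * (Ot (n + 1) X).card := by ring
      _ ≤ _ := mul_le_mul_of_nonneg_right h9 h2.le
  -- strictness
  rcases Nat.eq_zero_or_pos Z₀ with h0 | h0
  · have h11 : 2 * (Z₀ : ℝ) * (Os (Function.update (fun _ : Fin (n + 1) => pr X) j {1}) X).card = 0 := by
      rw [h0]
      simp
    have : 0 < ε / 2 * ((Ot (n + 1) X).card : ℝ) := by positivity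
    linarith
  · have h12 : 2 * (Z₀ : ℝ) * (Os (Function.update (fun _ : Fin (n + 1) => pr X) j {1}) X).card <
        ε / 2 * (Ot (n + 1) X).card := by
      have h0r : (0 : ℝ) < Z₀ := by exact_mod_cast h0
      calc 2 * (Z₀ : ℝ) * (Os (Function.update (fun _ : Fin (n + 1) => pr X) j {1}) X).card <
            2 * (Z₀ : ℝ) * (ε / 2 / (2 * Z₀ + 1) * (Ot (n + 1) X).card) :=
            mul_lt_mul_of_pos_left h1 (by positivity)
        _ = 2 * (Z₀ : ℝ) * (ε / 2 / (2 * Z₀ + 1)) * (Ot (n + 1) X).card := by ring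
        _ ≤ _ := mul_le_mul_of_nonneg_right h9 h2.le
    linarith

/-- the means over the primes -/
theorem mean_pr (A : Finset ℕ) (hA : ∀ r ∈ A, r.Prime ∧ r % 4 = 1) (a b : Bool) :
    Tendsto (fun Z : ℕ => (∑ p ∈ pr Z, (mo A a b p - me A a b)) / ((pr Z).card : ℝ)) atTop (𝓝 0) := by
  have h1 := mean_mo A hA a b (D := 1) one_ne_zero
  have h2 := av_const (D := 1) one_ne_zero (me A a b)
  have h3 := h1.sub h2
  rw [sub_self] at h3
  refine h3.congr fun Z => ?_
  have e1 : ∀ φ : ℕ → ℝ, av Ca 1 φ Z = (∑ p ∈ pr Z, φ p) / ((pr Z).card : ℝ) := by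
    intro φ
    unfold av pr
    congr 1
    refine Finset.sum_congr ?_ fun _ _ => rfl
    ext p
    rw [Finset.mem_filter, Finset.mem_filter]
    constructor
    · rintro ⟨g1, g2, g3, -⟩
      exact ⟨g1, g2, g3⟩
    · rintro ⟨g1, g2, g3⟩
      exact ⟨g1, g2, g3, fun h => g2.one_lt.ne' (Nat.dvd_one.1 h)⟩
  rw [e1, e1, ← sub_div, ← Finset.sum_sub_distrib]

/-- **the averages of products of functions of the coordinates** -/
theorem lim_prod (n : ℕ) (A : Fin (n + 1) → Finset ℕ) (a b : Fin (n + 1) → Bool)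
    (hA : ∀ i, ∀ r ∈ A i, r.Prime ∧ r % 4 = 1) (s : Finset (Fin (n + 1))) :
    Tendsto (na (n + 1) fun x => ∏ i ∈ s, mo (A i) (a i) (b i) (x i)) atTop
      (𝓝 (∏ i ∈ s, me (A i) (a i) (b i))) := by
  induction s using Finset.induction_on with
  | empty =>
    simp only [Finset.prod_empty]
    exact na_one n
  | insert j s hj ih =>
    have h1 := linC n j (fun p => mo (A j) (a j) (b j) p - me (A j) (a j) (b j)) (by
      intro p
      have h1 := mo_abs (A j) (a j) (b j) p
      have h2 := me_abs (A j) (a j) (b j)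
      have h3 := abs_sub (mo (A j) (a j) (b j) p) (me (A j) (a j) (b j))
      linarith) (mean_pr (A j) (hA j) (a j) (b j))
      (fun x => ∏ i ∈ s, mo (A i) (a i) (b i) (x i)) (by
        intro x
        rw [Finset.abs_prod, Finset.prod_congr rfl fun i _ => mo_abs _ _ _ _,
          Finset.prod_const_one]) (by
        intro x p
        refine Finset.prod_congr rfl fun i hi => ?_
        have hij : i ≠ j := fun h => hj (by rw [← h]; exact hi)
        rw [Function.update_of_ne hij])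
    have h2 := h1.add (ih.const_mul (me (A j) (a j) (b j)))
    rw [zero_add] at h2
    rw [Finset.prod_insert hj]
    refine h2.congr fun X => ?_
    rw [← na_mul, ← na_add]
    congr 1
    funext x
    rw [Finset.prod_insert hj]
    ring

end Pool.Agent.U687.NO
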