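import Pool.Agent.U687.Q2.Arith

/-!
# The means of the monomials in the symbols of a prime
-/

set_option autoImplicit false
set_option linter.unusedSectionVars false

open scoped Classical

namespace Pool.Agent.U687.NO

open Finset Filter Topology
open Pool.Agent.U687.Q2 (av av_of cf Ci Cs Ca mean_all)
open Pool.Agent.U687.JT (nr2 n47 quad_inert quad_split bad bad_spec card_zmod2_fun)

/-- the sign of an element of the field with two elements -/
noncomputable def sn (a : ZMod 2) : ℝ := if a = 0 then 1 else -1

theorem sn_zero : sn 0 = 1 := if_pos rfl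

theorem sn_one : sn 1 = -1 := if_neg one_ne_zero

theorem sn_cases (a : ZMod 2) : sn a = 1 ∨ sn a = -1 := by
  unfold sn
  split_ifs
  · exact Or.inl rfl
  · exact Or.inr rfl

theorem sn_abs (a : ZMod 2) : |sn a| = 1 := by
  rcases sn_cases a with h | h <;> rw [h] <;> norm_num

theorem sn_sq (a : ZMod 2) : sn a * sn a = 1 := by
  rcases sn_cases a with h | h <;> rw [h] <;> norm_num

theorem sum_zmod2 (F : ZMod 2 → ℝ) : ∑ c : ZMod 2, F c = F 0 + F 1 := Fin.sum_univ_two F

theorem sum_sn : ∑ c : ZMod 2, sn c = 0 := by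
  rw [sum_zmod2, sn_zero, sn_one]
  norm_num

/-- the type of a prime: `1` if it is inert in `ℚ(√-7)` -/
noncomputable def ty (l : ℕ) : ZMod 2 := if IsSquare (-7 : ZMod l) then 0 else 1

/-- the monomials in the symbols of a prime -/
noncomputable def mo (A : Finset ℕ) (a b : Bool) (l : ℕ) : ℝ :=
  (∏ r ∈ A, sn (nr2 l r)) * (if a then sn (n47 l) else 1) * (if b then sn (ty l) else 1)

/-- their means -/
noncomputable def me (A : Finset ℕ) (a b : Bool) : ℝ :=
  if A = ∅ then ((if a then -1 else 1) * (if b then -1 else 1) + (if a then 0 else 1)) / 2 else 0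

theorem ite_abs (a : Bool) (x : ℝ) (hx : |x| = 1) : |if a then x else 1| = 1 := by
  cases a
  · exact abs_one
  · exact hx

theorem mo_abs (A : Finset ℕ) (a b : Bool) (l : ℕ) : |mo A a b l| = 1 := by
  unfold mo
  rw [abs_mul, abs_mul, ite_abs a _ (sn_abs _), ite_abs b _ (sn_abs _), Finset.abs_prod,
    Finset.prod_congr rfl fun r _ => sn_abs _, Finset.prod_const_one]
  norm_num

theorem me_abs (A : Finset ℕ) (a b : Bool) : |me A a b| ≤ 1 := by
  unfold me
  split_ifs <;> norm_num

theorem me_insert {A : Finset ℕ} (a b : Bool) (l : ℕ) : me (insert l A) a b = 0 := by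
  unfold me
  rw [if_neg (Finset.insert_ne_empty l A)]

/-- the sum of a monomial over all the values of the symbols -/
theorem sum_prod_sn (A : Finset ℕ) : ∑ u : A → ZMod 2, ∏ r, sn (u r) = if A = ∅ then 1 else 0 := by
  have h : ∑ u : A → ZMod 2, ∏ r, sn (u r) = ∏ _r : A, ∑ c : ZMod 2, sn c := by
    rw [Finset.prod_univ_sum]
    rw [Fintype.piFinset_univ]
  rw [h]
  split_ifs with h1
  · subst h1
    exact Finset.prod_of_isEmpty _
  · obtain ⟨x, hx⟩ := Finset.nonempty_iff_ne_empty.2 h1
    exact Finset.prod_eq_zero (Finset.mem_univ ⟨x, hx⟩) sum_sn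

theorem n47_inert {l : ℕ} (h : ¬ IsSquare (-7 : ZMod l)) : n47 l = 1 := by
  unfold n47
  rw [if_neg]
  rintro ⟨y, hy⟩
  exact h ⟨y ^ 2, by rw [← hy]; ring⟩

/-- **the means of the monomials** -/
theorem mean_mo (A : Finset ℕ) (hA : ∀ r ∈ A, r.Prime ∧ r % 4 = 1) (a b : Bool) {D : ℕ} (hD : D ≠ 0) :
    Tendsto (av Ca D (mo A a b)) atTop (𝓝 (me A a b)) := by
  have hDp := Nat.pos_of_ne_zero hD
  -- inert primes
  have h1 : Tendsto (av Ci D (mo A a b)) atTop
      (𝓝 ((if A = ∅ then 1 else 0) * ((if a then -1 else 1) * (if b then -1 else 1)))) := by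
    have h := av_of Ci D (fun l => fun r : A => nr2 l r)
      (fun u => (∏ r, sn (u r)) * (if a then -1 else 1) * (if b then -1 else 1)) (mo A a b)
      (by
        intro l _ hl _
        unfold mo
        rw [n47_inert hl.2, sn_one]
        have e1 : ty l = 1 := by
          unfold ty
          rw [if_neg hl.2]
        rw [e1, sn_one, ← Finset.prod_coe_sort A (fun r => sn (nr2 l r))]) (2 ^ A.card)
      (by
        intro x
        have hq := quad_inert A hA D hDp (fun u => u = x)
          (fun l => ¬ l ∣ D ∧ (fun r : A => nr2 l r) = x) (by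
            intro p _ hpN _ _
            exact ⟨fun h => ⟨(bad_spec hpN).2.2.2, h⟩, fun h => h.2⟩)
        have e1 : Nat.card {u : A → ZMod 2 // u = x} = 1 := by simp
        rw [e1, Nat.cast_one] at hq
        refine hq.congr fun X => ?_
        refine congrArg₂ (fun a b : ℕ => (a : ℝ) / (b : ℝ)) (cf _ _ fun l => ?_)
          (cf _ _ fun l => ?_)
        · unfold Ci
          tauto
        · unfold Ci
          tauto)
    have e : (∑ u : A → ZMod 2, (∏ r, sn (u r)) * (if a then (-1 : ℝ) else 1) *
        (if b then -1 else 1)) / 2 ^ A.card =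
        (if A = ∅ then 1 else 0) * ((if a then -1 else 1) * (if b then -1 else 1)) := by
      rw [← Finset.sum_mul, ← Finset.sum_mul, sum_prod_sn]
      by_cases h0 : A = ∅
      · rw [if_pos h0, h0, Finset.card_empty, pow_zero, div_one, mul_assoc]
      · rw [if_neg h0]
        simp
    rwa [e] at h
  -- split primes
  have h2 : Tendsto (av Cs D (mo A a b)) atTop
      (𝓝 ((if A = ∅ then 1 else 0) * (if a then 0 else 1))) := by
    have h := av_of Cs D (fun l => ((fun r : A => nr2 l r), n47 l))
      (fun u => (∏ r, sn (u.1 r)) * (if a then sn u.2 else 1)) (mo A a b)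
      (by
        intro l _ hl _
        unfold mo
        have e1 : ty l = 0 := by
          unfold ty
          rw [if_pos hl.2]
        rw [e1, sn_zero, ite_self, mul_one, ← Finset.prod_coe_sort A (fun r => sn (nr2 l r))])
      (2 ^ (A.card + 1))
      (by
        intro x
        have hq := quad_split A hA D hDp (fun u => u = x)
          (fun l => ¬ l ∣ D ∧ ((fun r : A => nr2 l r), n47 l) = x) (by
            intro p _ hpN _ _
            exact ⟨fun h => ⟨(bad_spec hpN).2.2.2, h⟩, fun h => h.2⟩)
        have e1 : Nat.card {u : (A → ZMod 2) × ZMod 2 // u = x} = 1 := by simp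
        rw [e1, Nat.cast_one] at hq
        refine hq.congr fun X => ?_
        refine congrArg₂ (fun a b : ℕ => (a : ℝ) / (b : ℝ)) (cf _ _ fun l => ?_)
          (cf _ _ fun l => ?_)
        · unfold Cs
          tauto
        · unfold Cs
          tauto)
    have e : (∑ u : (A → ZMod 2) × ZMod 2, (∏ r, sn (u.1 r)) * (if a then sn u.2 else 1)) /
        2 ^ (A.card + 1) = (if A = ∅ then 1 else 0) * (if a then 0 else 1) := by
      rw [Fintype.sum_prod_type]
      have e3 : ∀ u : A → ZMod 2, ∑ q : ZMod 2, (∏ r, sn (u r)) * (if a then sn q else 1) =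
          (∏ r, sn (u r)) * (if a then 0 else 2) := by
        intro u
        rw [← Finset.mul_sum, sum_zmod2, sn_zero, sn_one]
        cases a
        · norm_num
        · norm_num
      rw [Finset.sum_congr rfl fun u _ => e3 u, ← Finset.sum_mul, sum_prod_sn]
      by_cases h0 : A = ∅
      · rw [if_pos h0, h0, Finset.card_empty]
        cases a
        · norm_num
        · norm_num
      · rw [if_neg h0]
        simp
    rwa [e] at h
  have h := mean_all h1 h2
  have e : ((if A = ∅ then (1 : ℝ) else 0) * ((if a then -1 else 1) * (if b then -1 else 1)) +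
      (if A = ∅ then 1 else 0) * (if a then 0 else 1)) / 2 = me A a b := by
    unfold me
    split_ifs <;> norm_num
  rwa [e] at h

end Pool.Agent.U687.NO
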