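import Pool.Agent.U687.NO.Two

/-!
# Averages of functions of the symbols over tuples with bounded product
-/

set_option autoImplicit false
set_option linter.unusedSectionVars false

open scoped Classical

namespace Pool.Agent.U687.NO

open Finset Filter Topology
open Pool.Agent.U687.Q2 (av Ca)
open Pool.Agent.U687.JT (nr2 n47)

variable {K : ℕ}

/-- a function which separates two coordinates -/
def Sep (i j : Fin K) (Ψ : (Fin K → ℕ) → ℝ) : Prop :=
  ∀ y : Fin K → ℕ, ∃ f g : ℕ → ℝ, (∀ p, |f p| ≤ 1) ∧ (∀ q, |g q| ≤ 1) ∧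
    ∀ p q, Ψ (Function.update (Function.update y j q) i p) = f p * g q

theorem Sep.mul {i j : Fin K} {Ψ Ψ' : (Fin K → ℕ) → ℝ} (h : Sep i j Ψ) (h' : Sep i j Ψ') :
    Sep i j fun x => Ψ x * Ψ' x := by
  intro y
  obtain ⟨f, g, h1, h2, h3⟩ := h y
  obtain ⟨f', g', h1', h2', h3'⟩ := h' y
  refine ⟨fun p => f p * f' p, fun q => g q * g' q, fun p => ?_, fun q => ?_, fun p q => ?_⟩
  · rw [abs_mul]
    exact mul_le_one₀ (h1 p) (abs_nonneg _) (h1' p)
  · rw [abs_mul]
    exact mul_le_one₀ (h2 q) (abs_nonneg _) (h2' q)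
  · show Ψ _ * Ψ' _ = _
    rw [h3, h3']
    ring

theorem Sep.one {i j : Fin K} : Sep i j fun _ => 1 := fun _ =>
  ⟨fun _ => 1, fun _ => 1, fun _ => by norm_num, fun _ => by norm_num, fun _ _ => by norm_num⟩

theorem Sep.prod {i j : Fin K} {ι : Type} (s : Finset ι) (Ψ : ι → (Fin K → ℕ) → ℝ)
    (h : ∀ z ∈ s, Sep i j (Ψ z)) : Sep i j fun x => ∏ z ∈ s, Ψ z x := by
  induction s using Finset.induction_on with
  | empty =>
    simp only [Finset.prod_empty]
    exact Sep.one
  | insert z s hz ih =>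
    simp only [Finset.prod_insert hz]
    exact (h z (Finset.mem_insert_self z s)).mul (ih fun w hw => h w (Finset.mem_insert_of_mem hw))

theorem Sep.of_i {i j : Fin K} (hij : i ≠ j) {Ψ : (Fin K → ℕ) → ℝ} (hb : ∀ x, |Ψ x| ≤ 1)
    (h : ∀ x q, Ψ (Function.update x j q) = Ψ x) : Sep i j Ψ := by
  intro y
  refine ⟨fun p => Ψ (Function.update y i p), fun _ => 1, fun p => hb _, fun _ => by norm_num,
    fun p q => ?_⟩
  rw [Function.update_comm hij.symm, h, mul_one]

theorem Sep.of_j {i j : Fin K} {Ψ : (Fin K → ℕ) → ℝ} (hb : ∀ x, |Ψ x| ≤ 1)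
    (h : ∀ x p, Ψ (Function.update x i p) = Ψ x) : Sep i j Ψ := by
  intro y
  refine ⟨fun _ => 1, fun q => Ψ (Function.update y j q), fun _ => by norm_num, fun q => hb _,
    fun p q => ?_⟩
  rw [h, one_mul]

/-- the factor of a pair of coordinates -/
noncomputable def fa (e : Fin K → Fin K → Bool) (z : Fin K × Fin K) (x : Fin K → ℕ) : ℝ :=
  if z.1 < z.2 ∧ e z.1 z.2 = true then sn (nr2 (x z.1) (x z.2)) else 1

theorem fa_abs (e : Fin K → Fin K → Bool) (z : Fin K × Fin K) (x : Fin K → ℕ) : |fa e z x| ≤ 1 := by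
  unfold fa
  split_ifs
  · rw [sn_abs]
  · norm_num

theorem fa_upd {e : Fin K → Fin K → Bool} {z : Fin K × Fin K} {l : Fin K} (h1 : z.1 ≠ l)
    (h2 : z.2 ≠ l) (x : Fin K → ℕ) (p : ℕ) : fa e z (Function.update x l p) = fa e z x := by
  unfold fa
  rw [Function.update_of_ne h1, Function.update_of_ne h2]

/-- **pure functions with a symbol of two coordinates** -/
theorem sm_pure (A : Fin K → Finset ℕ) (a b : Fin K → Bool) (e : Fin K → Fin K → Bool)
    {i j : Fin K} (hij : i < j) (he : e i j = true) : Sm i j (pu A a b e) := by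
  have hne : i ≠ j := ne_of_lt hij
  have hsep : Sep i j fun x => (∏ k ∈ (univ : Finset (Fin K)), mo (A k) (a k) (b k) (x k)) *
      ∏ z ∈ (univ : Finset (Fin K × Fin K)).erase (i, j), fa e z x := by
    refine Sep.mul (Sep.prod _ _ fun k _ => ?_) (Sep.prod _ _ fun z hz => ?_)
    · by_cases hk : k = j
      · refine Sep.of_j (fun x => (mo_abs _ _ _ _).le) fun x p => ?_
        rw [hk, Function.update_of_ne hne.symm]
      · refine Sep.of_i hne (fun x => (mo_abs _ _ _ _).le) fun x q => ?_
        rw [Function.update_of_ne hk]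
    · have hz' := Finset.ne_of_mem_erase hz
      by_cases h1 : z.1 = i ∨ z.2 = i
      · by_cases h2 : z.1 = j ∨ z.2 = j
        · -- the reversed pair
          have h3 : z.1 = j ∧ z.2 = i := by
            rcases h1 with h1 | h1 <;> rcases h2 with h2 | h2
            · exact absurd (h1.symm.trans h2) hne
            · exact absurd (Prod.ext h1 h2) hz'
            · exact ⟨h2, h1⟩
            · exact absurd (h1.symm.trans h2) hne
          have h4 : fa e z = fun _ => 1 := by
            funext x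
            unfold fa
            rw [if_neg]
            rintro ⟨h5, -⟩
            rw [h3.1, h3.2] at h5
            exact lt_asymm hij h5
          rw [h4]
          exact Sep.one
        · rw [not_or] at h2
          exact Sep.of_i hne (fa_abs e z) fun x q => fa_upd h2.1 h2.2 x q
      · rw [not_or] at h1
        exact Sep.of_j (fa_abs e z) fun x p => fa_upd h1.1 h1.2 x p
  have hpu : ∀ x, pu A a b e x = sn (nr2 (x i) (x j)) *
      ((∏ k ∈ (univ : Finset (Fin K)), mo (A k) (a k) (b k) (x k)) *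
      ∏ z ∈ (univ : Finset (Fin K × Fin K)).erase (i, j), fa e z x) := by
    intro x
    unfold pu
    rw [← Fintype.prod_prod_type' (fun i j : Fin K =>
      if i < j ∧ e i j = true then sn (nr2 (x i) (x j)) else 1)]
    rw [← Finset.mul_prod_erase univ (fun z : Fin K × Fin K =>
      if z.1 < z.2 ∧ e z.1 z.2 = true then sn (nr2 (x z.1) (x z.2)) else 1)
      (Finset.mem_univ (i, j))]
    rw [if_pos ⟨hij, he⟩]
    unfold fa
    ring
  intro X Z Lg y h1 hL
  obtain ⟨f, g, hf, hg, hfg⟩ := hsep y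
  have h2 : ∑ q ∈ Lpr X Lg, ∑ p ∈ (Lpr X Lg).filter (fun p => p * q ≤ Z),
      pu A a b e (Function.update (Function.update y j q) i p) =
      ∑ q ∈ Lpr X Lg, ∑ p ∈ (Lpr X Lg).filter (fun p => q * p ≤ Z), g q * f p * sn (nr2 q p) := by
    refine Finset.sum_congr rfl fun q hq => ?_
    have h3 : (Lpr X Lg).filter (fun p => p * q ≤ Z) = (Lpr X Lg).filter (fun p => q * p ≤ Z) :=
      Finset.filter_congr fun p _ => by rw [mul_comm]
    rw [h3]
    refine Finset.sum_congr rfl fun p hp => ?_
    have hq' := (mem_Lpr.1 hq).1.2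
    have hp' := (mem_Lpr.1 (Finset.mem_filter.1 hp).1).1.2
    have h5 : (∏ k, mo (A k) (a k) (b k) (Function.update (Function.update y j q) i p k)) *
        ∏ z ∈ (univ : Finset (Fin K × Fin K)).erase (i, j),
          fa e z (Function.update (Function.update y j q) i p) = f p * g q := hfg p q
    rw [hpu, h5, Function.update_self, Function.update_of_ne hne.symm, Function.update_self,
      nr2_symm hp'.1 hq'.1 hp'.2 hq'.2]
    ring
  rw [h2]
  exact hyp h1 hL g f hg hf

/-- two equal coordinates -/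
theorem sm_diag {i j : Fin K} (hij : i ≠ j) : Sm i j fun x => if x i = x j then 1 else 0 := by
  intro X Z Lg y h1 hL
  have hLr : (1 : ℝ) ≤ Lg := by exact_mod_cast h1
  have h2 : ∀ q ∈ Lpr X Lg, ∑ p ∈ (Lpr X Lg).filter (fun p => p * q ≤ Z),
      (fun x : Fin K → ℕ => if x i = x j then (1 : ℝ) else 0)
        (Function.update (Function.update y j q) i p) = if q * q ≤ Z then 1 else 0 := by
    intro q hq
    have h3 : ∀ p ∈ (Lpr X Lg).filter (fun p => p * q ≤ Z),
        (fun x : Fin K → ℕ => if x i = x j then (1 : ℝ) else 0)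
          (Function.update (Function.update y j q) i p) = if p = q then 1 else 0 := by
      intro p _
      show (if Function.update (Function.update y j q) i p i =
        Function.update (Function.update y j q) i p j then (1 : ℝ) else 0) = _
      rw [Function.update_self, Function.update_of_ne hij.symm, Function.update_self]
    rw [Finset.sum_congr rfl h3, Finset.sum_ite_eq']
    by_cases h4 : q * q ≤ Z
    · rw [if_pos (Finset.mem_filter.2 ⟨hq, h4⟩), if_pos h4]
    · have h5 : q ∉ (Lpr X Lg).filter (fun p => p * q ≤ Z) := fun h =>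
        h4 (Finset.mem_filter.1 h).2
      rw [if_neg h5, if_neg h4]
  rw [Finset.sum_congr rfl h2, ← Finset.sum_filter, ← card_as_sum, Nat.abs_cast]
  set w : ℕ := (Lg ^ 6) ^ 12 with hw
  have hw1 : Lg ^ 2 ≤ w := by
    rw [hw, ← pow_mul]
    exact Nat.pow_le_pow_right h1 (by norm_num)
  have hL2 : 1 ≤ Lg ^ 2 := Nat.one_le_pow _ _ h1
  have h3 : (Lpr X Lg).filter (fun q => q * q ≤ Z) ⊆ Icc 1 (Z / Lg ^ 2) := by
    intro q hq
    obtain ⟨g1, g2⟩ := Finset.mem_filter.1 hq
    have g3 := mem_Lpr.1 g1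
    rw [Finset.mem_Icc]
    refine ⟨g3.1.2.1.one_lt.le, ?_⟩
    rw [Nat.le_div_iff_mul_le (by omega)]
    exact (Nat.mul_le_mul_left q (hw1.trans g3.2.le)).trans g2
  have h4 := Finset.card_le_card h3
  rw [Nat.card_Icc, Nat.add_sub_cancel] at h4
  have h5 : ((Z / Lg ^ 2 : ℕ) : ℝ) ≤ (Z : ℝ) / ((Lg ^ 2 : ℕ) : ℝ) := Nat.cast_div_le
  push_cast at h5
  have h6 : (((Lpr X Lg).filter fun q => q * q ≤ Z).card : ℝ) ≤ ((Z / Lg ^ 2 : ℕ) : ℝ) := by
    exact_mod_cast h4
  have h7 : (0 : ℝ) ≤ Z / (Lg : ℝ) ^ 2 := by positivity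
  linarith

/-- **the averages of the pure functions** -/
theorem na_pure (n : ℕ) (A : Fin (n + 1) → Finset ℕ) (a b : Fin (n + 1) → Bool)
    (e : Fin (n + 1) → Fin (n + 1) → Bool) (hA : ∀ i, ∀ r ∈ A i, r.Prime ∧ r % 4 = 1) :
    Tendsto (na (n + 1) (pu A a b e)) atTop
      (𝓝 (if No e then ∏ i, me (A i) (a i) (b i) else 0)) := by
  by_cases hN : No e
  · rw [if_pos hN]
    have h1 := lim_prod n A a b hA univ
    have h2 : pu A a b e = fun x => ∏ i ∈ univ, mo (A i) (a i) (b i) (x i) := by
      funext x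
      unfold pu
      rw [Finset.prod_eq_one (s := univ) (f := fun i => ∏ j, if i < j ∧ e i j = true then
        sn (nr2 (x i) (x j)) else 1), mul_one]
      intro i _
      refine Finset.prod_eq_one fun j _ => ?_
      rw [if_neg]
      rintro ⟨h3, h4⟩
      rw [hN i j h3] at h4
      exact Bool.false_ne_true h4
    rw [h2]
    exact h1
  · rw [if_neg hN]
    have h1 : ∃ i j, i < j ∧ e i j = true := by
      by_contra hcon
      apply hN
      intro i j hij
      by_contra h2
      exact hcon ⟨i, j, hij, by simpa using h2⟩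
    obtain ⟨i, j, hij, he⟩ := h1
    refine two n (ne_of_lt hij) (pu A a b e) (fun x => ?_) (sm_pure A a b e hij he)
    unfold pu
    rw [abs_mul, Finset.abs_prod, Finset.prod_congr rfl fun i _ => mo_abs _ _ _ _,
      Finset.prod_const_one, one_mul, Finset.abs_prod]
    refine Finset.prod_le_one (fun i _ => abs_nonneg _) fun i _ => ?_
    rw [Finset.abs_prod]
    refine Finset.prod_le_one (fun j _ => abs_nonneg _) fun j _ => ?_
    split_ifs
    · rw [sn_abs]
    · norm_num

/-- **the averages of functions of the symbols** -/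
theorem na_fun (n : ℕ) {W : Finset ℕ} (hW : ∀ r ∈ W, r.Prime ∧ r % 4 = 1)
    (F : (Pl (n + 1) W → ZMod 2) → ℝ) :
    Tendsto (na (n + 1) fun x => F (bit W x)) atTop (𝓝 (lf F)) := by
  have h1 : (na (n + 1) fun x => F (bit W x)) = fun X => ∑ u : Pl (n + 1) W → ZMod 2,
      ∑ S ∈ (univ : Finset (Pl (n + 1) W)).powerset,
        co F u S * na (n + 1) (pu (pA S) (pa S) (pb S) (pe S)) X := by
    funext X
    unfold na
    have h2 : ∑ x ∈ Ot (n + 1) X, F (bit W x) = ∑ u : Pl (n + 1) W → ZMod 2,
        ∑ S ∈ (univ : Finset (Pl (n + 1) W)).powerset,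
          co F u S * ∑ x ∈ Ot (n + 1) X, pu (pA S) (pa S) (pb S) (pe S) x := by
      rw [Finset.sum_congr rfl fun x _ => expand F x, Finset.sum_comm]
      refine Finset.sum_congr rfl fun u _ => ?_
      rw [Finset.sum_comm]
      refine Finset.sum_congr rfl fun S _ => ?_
      rw [Finset.mul_sum]
    rw [h2, Finset.sum_div]
    refine Finset.sum_congr rfl fun u _ => ?_
    rw [Finset.sum_div]
    refine Finset.sum_congr rfl fun S _ => ?_
    rw [mul_div_assoc]
  rw [h1]
  unfold lf
  refine tendsto_finsetSum _ fun u _ => tendsto_finsetSum _ fun S _ => Tendsto.const_mul _ ?_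
  exact na_pure n (pA S) (pa S) (pb S) (pe S) fun i r hr => hW r (pA_sub S i hr)

/-- the tuples of different primes not dividing `D`, with product at most `X` -/
noncomputable def Oq (K D X : ℕ) : Finset (Fin K → ℕ) := (Ot K X).filter fun x => Om K D x

/-- the other tuples are few -/
theorem few (n : ℕ) {D : ℕ} (hD : D ≠ 0) :
    Tendsto (fun X : ℕ => (((Ot (n + 1) X).filter fun x => ¬ Om (n + 1) D x).card : ℝ) /
      ((Ot (n + 1) X).card : ℝ)) atTop (𝓝 0) := by
  have h1 : ∀ i : Fin (n + 1), Tendsto (fun X : ℕ =>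
      ((Os (Function.update (fun _ => pr X) i D.primeFactors) X).card : ℝ) /
      ((Ot (n + 1) X).card : ℝ)) atTop (𝓝 0) := by
    intro i
    refine rr n i (fun _ => D.primeFactors) ?_ (tendsto_const_nhds.div_atTop el_tendsto)
    filter_upwards [eventually_ge_atTop (D ^ 4)] with X hX t ht
    refine ⟨(Nat.prime_of_mem_primeFactors ht).one_lt.le, le_trans ?_ hX⟩
    exact Nat.pow_le_pow_left (Nat.le_of_dvd (Nat.pos_of_ne_zero hD)
      (Nat.dvd_of_mem_primeFactors ht)) 4
  have h2 : ∀ z : Fin (n + 1) × Fin (n + 1), Tendsto (na (n + 1) fun x =>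
      if z.1 ≠ z.2 ∧ x z.1 = x z.2 then (1 : ℝ) else 0) atTop (𝓝 0) := by
    intro z
    by_cases hz : z.1 = z.2
    · have h3 : (fun x : Fin (n + 1) → ℕ => if z.1 ≠ z.2 ∧ x z.1 = x z.2 then (1 : ℝ) else 0) =
          fun _ => 0 := by
        funext x
        rw [if_neg fun h => h.1 hz]
      rw [h3]
      unfold na
      simp only [Finset.sum_const_zero, zero_div]
      exact tendsto_const_nhds
    · refine two n (i := z.1) (j := z.2) hz _ (fun x => ?_) ?_
      · split_ifs
        · norm_num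
        · norm_num
      · have h3 : (fun x : Fin (n + 1) → ℕ => if z.1 ≠ z.2 ∧ x z.1 = x z.2 then (1 : ℝ) else 0) =
            fun x => if x z.1 = x z.2 then 1 else 0 := by
          funext x
          by_cases h4 : x z.1 = x z.2
          · rw [if_pos ⟨hz, h4⟩, if_pos h4]
          · rw [if_neg fun h => h4 h.2, if_neg h4]
        rw [h3]
        exact sm_diag hz
  have hlim := (tendsto_finsetSum (univ : Finset (Fin (n + 1))) fun i _ => h1 i).add
    (tendsto_finsetSum (univ : Finset (Fin (n + 1) × Fin (n + 1))) fun z _ => h2 z)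
  simp only [Finset.sum_const_zero, add_zero] at hlim
  refine squeeze_zero (fun X => by positivity) (fun X => ?_) hlim
  unfold na
  rw [← Finset.sum_div, ← Finset.sum_div, ← add_div]
  apply div_le_div_of_nonneg_right _ (Nat.cast_nonneg _)
  rw [Finset.sum_comm]
  have h3 : ((Ot (n + 1) X).filter fun x => ¬ Om (n + 1) D x) ⊆
      (univ : Finset (Fin (n + 1))).biUnion (fun i =>
        Os (Function.update (fun _ => pr X) i D.primeFactors) X) ∪
      (Ot (n + 1) X).filter fun x => ¬ Function.Injective x := by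
    intro x hx
    obtain ⟨g1, g2⟩ := Finset.mem_filter.1 hx
    rw [Finset.mem_union]
    by_cases hinj : Function.Injective x
    · left
      rw [Finset.mem_biUnion]
      have g1' := g1
      unfold Ot at g1'
      rw [mem_Os] at g1'
      have h4 : ∃ i, x i ∣ D := by
        by_contra hcon
        apply g2
        refine ⟨fun i => ⟨(mem_pr.1 (g1'.1 i)).2.1, (mem_pr.1 (g1'.1 i)).2.2, fun h => hcon ⟨i, h⟩⟩,
          hinj⟩
      obtain ⟨i, hi⟩ := h4
      refine ⟨i, Finset.mem_univ i, ?_⟩
      rw [mem_Os]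
      refine ⟨fun k => ?_, g1'.2⟩
      by_cases hk : k = i
      · subst hk
        rw [Function.update_self]
        exact Nat.mem_primeFactors.2 ⟨(mem_pr.1 (g1'.1 k)).2.1, hi, hD⟩
      · rw [Function.update_of_ne hk]
        exact g1'.1 k
    · right
      exact Finset.mem_filter.2 ⟨g1, hinj⟩
  have h4 := (Finset.card_le_card h3).trans (Finset.card_union_le _ _)
  have h5 : (((univ : Finset (Fin (n + 1))).biUnion (fun i =>
      Os (Function.update (fun _ => pr X) i D.primeFactors) X)).card : ℝ) ≤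
      ∑ i : Fin (n + 1), ((Os (Function.update (fun _ => pr X) i D.primeFactors) X).card : ℝ) := by
    exact_mod_cast Finset.card_biUnion_le
  have h6 : (((Ot (n + 1) X).filter fun x => ¬ Function.Injective x).card : ℝ) ≤
      ∑ x ∈ Ot (n + 1) X, ∑ z : Fin (n + 1) × Fin (n + 1),
        if z.1 ≠ z.2 ∧ x z.1 = x z.2 then (1 : ℝ) else 0 := by
    rw [card_as_sum, Finset.sum_filter]
    refine Finset.sum_le_sum fun x _ => ?_
    have h0 : ∀ z ∈ (univ : Finset (Fin (n + 1) × Fin (n + 1))),
        (0 : ℝ) ≤ if z.1 ≠ z.2 ∧ x z.1 = x z.2 then (1 : ℝ) else 0 := by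
      intro z _
      split_ifs
      · norm_num
      · exact le_rfl
    by_cases hinj : Function.Injective x
    · rw [if_neg (not_not.2 hinj)]
      exact Finset.sum_nonneg h0
    · rw [if_pos hinj]
      obtain ⟨i, j, h7, h8⟩ : ∃ i j, x i = x j ∧ i ≠ j := by
        by_contra hcon
        apply hinj
        intro i j h9
        by_contra h10
        exact hcon ⟨i, j, h9, h10⟩
      refine le_trans ?_ (Finset.single_le_sum h0 (Finset.mem_univ (i, j)))
      rw [if_pos ⟨h8, h7⟩]
  have h7 : (((Ot (n + 1) X).filter fun x => ¬ Om (n + 1) D x).card : ℝ) ≤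
      (((univ : Finset (Fin (n + 1))).biUnion (fun i =>
        Os (Function.update (fun _ => pr X) i D.primeFactors) X)).card : ℝ) +
      (((Ot (n + 1) X).filter fun x => ¬ Function.Injective x).card : ℝ) := by exact_mod_cast h4
  rw [Finset.sum_comm] at h6
  rw [Finset.sum_comm]
  linarith

/-- **the law over the tuples with product at most `X`** -/
theorem law_tuples (n : ℕ) {D : ℕ} (hD : D ≠ 0) {W : Finset ℕ}
    (hW : ∀ r ∈ W, r.Prime ∧ r % 4 = 1) (F : (Pl (n + 1) W → ZMod 2) → ℝ) (B : ℝ)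
    (hB : ∀ w, |F w| ≤ B) (f : (Fin (n + 1) → ℕ) → ℝ)
    (hf : ∀ x, Om (n + 1) D x → f x = F (bit W x)) :
    (∀ᶠ X : ℕ in atTop, 0 < (Oq (n + 1) D X).card) ∧
    Tendsto (fun X : ℕ => (∑ x ∈ Oq (n + 1) D X, f x) / ((Oq (n + 1) D X).card : ℝ)) atTop
      (𝓝 (lf F)) := by
  have h1 := na_fun n hW F
  have h2 := few n hD
  -- the share of the good tuples tends to one
  have h3 : Tendsto (fun X : ℕ => ((Oq (n + 1) D X).card : ℝ) / ((Ot (n + 1) X).card : ℝ)) atTop
      (𝓝 1) := by
    have h4 : Tendsto (fun X : ℕ => 1 - (((Ot (n + 1) X).filter fun x => ¬ Om (n + 1) D x).card : ℝ) /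
      ((Ot (n + 1) X).card : ℝ)) atTop (𝓝 (1 - 0)) := tendsto_const_nhds.sub h2
    rw [sub_zero] at h4
    refine h4.congr' ?_
    filter_upwards [ot_pos n] with X hX
    have h5 := Finset.card_filter_add_card_filter_not (s := Ot (n + 1) X)
      (p := fun x => Om (n + 1) D x)
    have h6 : ((Oq (n + 1) D X).card : ℝ) +
        (((Ot (n + 1) X).filter fun x => ¬ Om (n + 1) D x).card : ℝ) = (Ot (n + 1) X).card := by
      unfold Oq
      exact_mod_cast h5
    rw [← h6] at hX ⊢
    field_simp
    ring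
  have hpos : ∀ᶠ X : ℕ in atTop, 0 < (Oq (n + 1) D X).card := by
    filter_upwards [h3.eventually (lt_mem_nhds (by norm_num : (0 : ℝ) < 1)), ot_pos n] with X hX hX2
    have := (div_pos_iff_of_pos_right hX2).1 hX
    exact_mod_cast this
  refine ⟨hpos, ?_⟩
  have hB0 : 0 ≤ B := (abs_nonneg _).trans (hB 0)
  have h4 : Tendsto (fun X : ℕ => (∑ x ∈ Oq (n + 1) D X, f x) / ((Ot (n + 1) X).card : ℝ)) atTop
      (𝓝 (lf F)) := by
    have h5 : Tendsto (fun X : ℕ => na (n + 1) (fun x => F (bit W x)) X -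
        (∑ x ∈ Oq (n + 1) D X, f x) / ((Ot (n + 1) X).card : ℝ)) atTop (𝓝 0) := by
      rw [tendsto_zero_iff_abs_tendsto_zero]
      have h6 := h2.const_mul B
      rw [mul_zero] at h6
      refine squeeze_zero (fun X => abs_nonneg _) (fun X => ?_) h6
      show |na (n + 1) (fun x => F (bit W x)) X -
        (∑ x ∈ Oq (n + 1) D X, f x) / ((Ot (n + 1) X).card : ℝ)| ≤ _
      unfold na
      rw [← sub_div, abs_div, Nat.abs_cast, ← mul_div_assoc]
      apply div_le_div_of_nonneg_right _ (Nat.cast_nonneg _)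
      have h7 : ∑ x ∈ Oq (n + 1) D X, f x = ∑ x ∈ Oq (n + 1) D X, F (bit W x) :=
        Finset.sum_congr rfl fun x hx => hf x (Finset.mem_filter.1 hx).2
      rw [h7]
      unfold Oq
      rw [← Finset.sum_filter_add_sum_filter_not (Ot (n + 1) X) (fun x => Om (n + 1) D x),
        add_sub_cancel_left]
      refine (Finset.abs_sum_le_sum_abs _ _).trans ?_
      refine (Finset.sum_le_sum fun x _ => hB _).trans ?_
      rw [Finset.sum_const, nsmul_eq_mul, mul_comm]
    have h6 := h1.sub h5
    rw [sub_zero] at h6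
    refine h6.congr fun X => ?_
    ring
  have h5 := h4.div h3 one_ne_zero
  rw [div_one] at h5
  refine h5.congr' ?_
  filter_upwards [ot_pos n] with X hX
  show (∑ x ∈ Oq (n + 1) D X, f x) / ((Ot (n + 1) X).card : ℝ) /
    (((Oq (n + 1) D X).card : ℝ) / ((Ot (n + 1) X).card : ℝ)) = _
  rw [div_div_div_cancel_right₀ hX.ne']

end Pool.Agent.U687.NO
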