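import Pool.Agent.U687.NO.Fib
import Pool.Agent.Y405.CQ.MER
import Pool.Agent.Y302.CQ.CHE

/-!
# The number of tuples of primes with bounded product
-/

set_option autoImplicit false
set_option linter.unusedSectionVars false

open scoped Classical

namespace Pool.Agent.U687.NO

open Finset Filter Topology
open Pool.Agent.U687.Q2 (av Ca)

/-- the iterated logarithm -/
noncomputable def el (X : ℕ) : ℝ := Real.log (Real.log X)

theorem log_tendsto : Tendsto (fun X : ℕ => Real.log (X : ℝ)) atTop atTop :=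
  Real.tendsto_log_atTop.comp tendsto_natCast_atTop_atTop

theorem el_tendsto : Tendsto el atTop atTop := Real.tendsto_log_atTop.comp log_tendsto

theorem mer : ∃ C : ℝ, 0 ≤ C ∧ ∀ x : ℕ, 3 ≤ x → |RS (pr x) - 1 / 2 * el x| ≤ C := by
  obtain ⟨C, hC0, hC⟩ := Pool.Agent.Y405.CQ.mertens_ap 4 (by norm_num) 1 (by norm_num) (by norm_num)
  refine ⟨C, hC0, fun x hx => ?_⟩
  have h := hC x hx
  have h2 : Nat.totient 4 = 2 := by decide
  rw [h2] at h
  have e : RS (pr x) = ∑ p ∈ (Icc 1 x).filter (fun p => p.Prime ∧ p % 4 = 1), (1 : ℝ) / p := by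
    unfold RS pr
    refine Finset.sum_congr ?_ fun _ _ => rfl
    ext p
    constructor
    · intro hp
      have h1 : p ∈ Icc 1 x ∧ p.Prime ∧ p % 4 = 1 := Finset.mem_filter.1 hp
      exact Finset.mem_filter.2 h1
    · intro hp
      have h1 : p ∈ Icc 1 x ∧ p.Prime ∧ Ca p := Finset.mem_filter.1 hp
      exact Finset.mem_filter.2 h1
  rw [e]
  unfold el
  exact_mod_cast h

theorem che : ∃ c : ℝ, 0 < c ∧ ∃ Y₀ : ℕ, ∀ Y : ℕ, Y₀ ≤ Y → c * Y / Real.log Y ≤ ((pr Y).card : ℝ) := by
  obtain ⟨c, Y₀, hc, h⟩ := Pool.Agent.Y302.CQ.t_CHE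
  refine ⟨c, hc, Y₀, fun Y hY => (h Y hY 1 (by norm_num)).trans ?_⟩
  have h1 : ((range (Y + 1)).filter fun p => p.Prime ∧ p % 56 = 1 % 56) ⊆ pr Y := by
    intro p hp
    obtain ⟨h1, h2, h3⟩ := Finset.mem_filter.1 hp
    rw [Finset.mem_range] at h1
    refine mem_pr.2 ⟨by omega, h2, ?_⟩
    show p % 4 = 1
    omega
  exact_mod_cast Finset.card_le_card h1

/-- the tuples of primes `1` modulo `4` with product at most `X` -/
noncomputable def Ot (K X : ℕ) : Finset (Fin K → ℕ) := Os (fun _ : Fin K => pr X) X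

theorem prod_RS_upd {K : ℕ} (f : Fin K → Finset ℕ) (i : Fin K) (T : Finset ℕ) :
    ∏ k, RS (Function.update f i T k) = RS T * ∏ k ∈ univ.erase i, RS (f k) := by
  rw [← Finset.mul_prod_erase univ _ (Finset.mem_univ i), Function.update_self]
  congr 1
  refine Finset.prod_congr rfl fun k hk => ?_
  rw [Function.update_of_ne (Finset.ne_of_mem_erase hk)]

theorem low : ∃ c : ℝ, 0 < c ∧ ∃ X₀ : ℕ, ∀ n X Y : ℕ, X₀ ≤ X → Y ^ (2 * n) ≤ X → Y ≤ X →
    c * X / Real.log X * RS (pr Y) ^ n ≤ ((Ot (n + 1) X).card : ℝ) := by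
  obtain ⟨c, hc, Y₀, hche⟩ := che
  refine ⟨c / 2, by positivity, max (Y₀ * Y₀) 4, fun n X Y hX hY hYX => ?_⟩
  have hX1 : Y₀ * Y₀ ≤ X := (le_max_left _ _).trans hX
  have hX2 : 4 ≤ X := (le_max_right _ _).trans hX
  have hs1 : Y₀ ≤ Nat.sqrt X := Nat.le_sqrt.2 hX1
  have hs2 : 2 ≤ Nat.sqrt X := Nat.le_sqrt.2 (by omega)
  set S : Fin (n + 1) → Finset ℕ := Function.update (fun _ => pr Y) 0 (pr X) with hS
  have hsub : Os S X ⊆ Ot (n + 1) X := by
    intro x hx
    rw [mem_Os] at hx
    unfold Ot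
    rw [mem_Os]
    refine ⟨fun k => ?_, hx.2⟩
    have h1 := hx.1 k
    rw [hS] at h1
    by_cases hk : k = 0
    · subst hk
      rwa [Function.update_self] at h1
    · rw [Function.update_of_ne hk, mem_pr] at h1
      exact mem_pr.2 ⟨h1.1.trans hYX, h1.2⟩
  refine le_trans ?_ (by exact_mod_cast Finset.card_le_card hsub :
    ((Os S X).card : ℝ) ≤ ((Ot (n + 1) X).card : ℝ))
  rw [card_as_sum, fibO S 0 X]
  have hW : RS (pr Y) ^ n = ∏ k, RS (Function.update S 0 {1} k) := by
    rw [prod_RS_upd, RS_one, one_mul, hS]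
    have : ∀ k ∈ (univ : Finset (Fin (n + 1))).erase 0,
        RS (Function.update (fun _ => pr Y) 0 (pr X) k) = RS (pr Y) := by
      intro k hk
      rw [Function.update_of_ne (Finset.ne_of_mem_erase hk)]
    rw [Finset.prod_congr rfl this, Finset.prod_const, Finset.card_erase_of_mem (Finset.mem_univ _),
      Finset.card_univ, Fintype.card_fin, Nat.add_sub_cancel]
  rw [hW, ← sum_inv, Finset.mul_sum]
  refine Finset.sum_le_sum fun y hy => ?_
  have hSpos : ∀ k, ∀ p ∈ S k, 1 ≤ p := by
    intro k p hp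
    rw [hS] at hp
    by_cases hk : k = 0
    · subst hk
      rw [Function.update_self] at hp
      exact (mem_pr.1 hp).2.1.one_lt.le
    · rw [Function.update_of_ne hk] at hp
      exact (mem_pr.1 hp).2.1.one_lt.le
  have hm := pos_of_mem hSpos hy
  have hmY : ∏ k, y k ≤ Y ^ n := by
    rw [Fin.prod_univ_succ, one_of_mem hy, one_mul]
    refine (Finset.prod_le_pow_card (univ : Finset (Fin n)) _ Y fun k _ => ?_).trans (by simp)
    rw [Fintype.mem_piFinset] at hy
    have h1 := hy k.succ
    rw [Function.update_of_ne (Fin.succ_ne_zero k), hS, Function.update_of_ne (Fin.succ_ne_zero k),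
      mem_pr] at h1
    exact h1.1
  set m := ∏ k, y k with hmdef
  have hms : m ≤ Nat.sqrt X := by
    refine Nat.le_sqrt.2 (le_trans ?_ hY)
    rw [two_mul, pow_add]
    exact Nat.mul_le_mul hmY hmY
  have hZ : Nat.sqrt X ≤ X / m := by
    rw [Nat.le_div_iff_mul_le (by omega)]
    exact (Nat.mul_le_mul_left _ hms).trans (Nat.sqrt_le X)
  rw [← card_as_sum]
  have hsub2 : pr (X / m) ⊆ (S 0).filter fun p => p * m ≤ X := by
    intro p hp
    rw [mem_pr] at hp
    have h1 : p * m ≤ X := (Nat.le_div_iff_mul_le (by omega)).1 hp.1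
    refine Finset.mem_filter.2 ⟨?_, h1⟩
    rw [hS, Function.update_self]
    exact mem_pr.2 ⟨(Nat.le_mul_of_pos_right p (by omega)).trans h1, hp.2⟩
  refine le_trans ?_ ((hche (X / m) (hs1.trans hZ)).trans
    (by exact_mod_cast Finset.card_le_card hsub2))
  have hlt : (X : ℝ) / m < ((X / m : ℕ) : ℝ) + 1 := by
    have := Nat.lt_floor_add_one ((X : ℝ) / m)
    rwa [Nat.floor_div_natCast, Nat.floor_natCast] at this
  have hZ2 : (2 : ℝ) ≤ ((X / m : ℕ) : ℝ) := by exact_mod_cast hs2.trans hZ
  have hlogZ : 0 < Real.log ((X / m : ℕ) : ℝ) := Real.log_pos (by linarith)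
  have hlogX : Real.log ((X / m : ℕ) : ℝ) ≤ Real.log X :=
    Real.log_le_log (by linarith) (by exact_mod_cast Nat.div_le_self X m)
  have hmr : (0 : ℝ) < m := by exact_mod_cast (by omega : 0 < m)
  calc c / 2 * X / Real.log X * (1 / (m : ℝ)) = c * (X / m / 2) / Real.log X := by
        field_simp
    _ ≤ c * ((X / m : ℕ) : ℝ) / Real.log X := by
        apply div_le_div_of_nonneg_right _ (hlogZ.le.trans hlogX)
        apply mul_le_mul_of_nonneg_left _ hc.le
        linarith
    _ ≤ c * ((X / m : ℕ) : ℝ) / Real.log ((X / m : ℕ) : ℝ) := by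
        apply div_le_div_of_nonneg_left _ hlogZ hlogX
        positivity

/-- **the lower bound for the number of tuples** -/
theorem low' (n : ℕ) : ∃ c : ℝ, 0 < c ∧ ∀ᶠ X : ℕ in atTop,
    c * X / Real.log X * el X ^ n ≤ ((Ot (n + 1) X).card : ℝ) := by
  obtain ⟨c, hc, X₀, h⟩ := low
  obtain ⟨C, hC0, hC⟩ := mer
  refine ⟨c * (1 / 4) ^ n, by positivity, ?_⟩
  set M : ℝ := 2 * n + 1 with hM
  have hM1 : 1 ≤ M := by
    rw [hM]
    have : (0 : ℝ) ≤ n := Nat.cast_nonneg n
    linarith
  have hMp : 0 < M := by linarith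
  filter_upwards [eventually_ge_atTop (max X₀ 3), log_tendsto.eventually_ge_atTop (2 * M * 2),
    el_tendsto.eventually_ge_atTop (4 * (1 / 2 * Real.log (2 * M) + C))] with X hX hL hel
  have hX0 : X₀ ≤ X := (le_max_left _ _).trans hX
  have hX3 : 3 ≤ X := (le_max_right _ _).trans hX
  have hXr : (0 : ℝ) < X := by exact_mod_cast (by omega : 0 < X)
  have hLpos : 0 < Real.log X := by nlinarith
  set t : ℝ := Real.log X / M with ht
  have htL : t * M = Real.log X := by
    rw [ht]
    field_simp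
  have ht4 : 4 ≤ t := by
    rw [ht, le_div_iff₀ hMp]
    linarith
  set Y : ℕ := ⌊Real.exp t⌋₊ with hY
  have hYle : (Y : ℝ) ≤ Real.exp t := Nat.floor_le (Real.exp_pos t).le
  have hYge : Real.exp t < Y + 1 := Nat.lt_floor_add_one _
  have hexp4 : (4 : ℝ) ≤ Real.exp t := by
    have := Real.add_one_le_exp t
    linarith
  have hY3 : 3 ≤ Y := by
    have : (3 : ℝ) < Y + 1 := by linarith
    have h2 : (2 : ℝ) < Y := by linarith
    exact_mod_cast h2
  have hY1 : Y ^ (2 * n) ≤ X := by
    have h1 : ((Y ^ (2 * n) : ℕ) : ℝ) ≤ X := by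
      push_cast
      calc (Y : ℝ) ^ (2 * n) ≤ Real.exp t ^ (2 * n) := pow_le_pow_left₀ (Nat.cast_nonneg _) hYle _
        _ = Real.exp ((2 * n : ℕ) * t) := by rw [Real.exp_nat_mul]
        _ ≤ Real.exp (Real.log X) := by
            apply Real.exp_le_exp.2
            rw [← htL, hM]
            push_cast
            nlinarith
        _ = X := Real.exp_log hXr
    exact_mod_cast h1
  have hY2 : Y ≤ X := by
    have h1 : (Y : ℝ) ≤ X := by
      calc (Y : ℝ) ≤ Real.exp t := hYle
        _ ≤ Real.exp (Real.log X) := by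
            apply Real.exp_le_exp.2
            rw [← htL]
            nlinarith
        _ = X := Real.exp_log hXr
    exact_mod_cast h1
  refine le_trans ?_ (h n X Y hX0 hY1 hY2)
  have hlogY : Real.log X / (2 * M) ≤ Real.log Y := by
    have h1 : Real.exp (t / 2) ≤ Y := by
      have h2 : Real.exp (t / 2) * Real.exp (t / 2) = Real.exp t := by
        rw [← Real.exp_add]
        congr 1
        ring
      have h3 : 2 ≤ Real.exp (t / 2) := by
        have := Real.add_one_le_exp (t / 2)
        linarith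
      nlinarith
    have h2 := Real.log_le_log (Real.exp_pos _) h1
    rw [Real.log_exp, ht] at h2
    calc Real.log X / (2 * M) = Real.log X / M / 2 := by field_simp
      _ ≤ _ := h2
  have helY : el X - Real.log (2 * M) ≤ el Y := by
    unfold el
    rw [← Real.log_div hLpos.ne' (by positivity)]
    exact Real.log_le_log (by positivity) hlogY
  have hRS : 1 / 4 * el X ≤ RS (pr Y) := by
    have h1 := (abs_le.1 (hC Y hY3)).1
    linarith
  have hel0 : 0 ≤ el X := by
    have h1 : 0 ≤ Real.log (2 * M) := Real.log_nonneg (by linarith)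
    linarith
  calc c * (1 / 4) ^ n * X / Real.log X * el X ^ n =
        c * X / Real.log X * (1 / 4 * el X) ^ n := by
        rw [mul_pow]
        ring
    _ ≤ c * X / Real.log X * RS (pr Y) ^ n := by
        apply mul_le_mul_of_nonneg_left
        · exact pow_le_pow_left₀ (by positivity) hRS n
        · positivity

theorem RS_up : ∀ᶠ X : ℕ in atTop, RS (pr X) ≤ el X := by
  obtain ⟨C, hC0, hC⟩ := mer
  filter_upwards [eventually_ge_atTop 3, el_tendsto.eventually_ge_atTop (2 * C)] with X hX hel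
  have h1 := (abs_le.1 (hC X hX)).2
  linarith

/-- the logarithm over the root tends to zero -/
theorem log_sqrt : Tendsto (fun X : ℕ => Real.log X * Nat.sqrt X / X) atTop (𝓝 0) := by
  have h1 : Tendsto (fun x : ℝ => Real.log x / x ^ (1 / 2 : ℝ)) atTop (𝓝 0) :=
    (isLittleO_log_rpow_atTop (by norm_num : (0 : ℝ) < 1 / 2)).tendsto_div_nhds_zero
  refine squeeze_zero' ?_ ?_ (h1.comp tendsto_natCast_atTop_atTop)
  · filter_upwards with X
    exact div_nonneg (mul_nonneg (Real.log_natCast_nonneg X) (Nat.cast_nonneg _)) (Nat.cast_nonneg _)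
  · filter_upwards [eventually_ge_atTop 1] with X hX
    have hXr : (0 : ℝ) < X := by exact_mod_cast hX
    show _ ≤ Real.log X / (X : ℝ) ^ (1 / 2 : ℝ)
    rw [← Real.sqrt_eq_rpow]
    have h2 : (Nat.sqrt X : ℝ) ≤ Real.sqrt X := Real.nat_sqrt_le_real_sqrt
    have h3 : Real.sqrt X * Real.sqrt X = X := Real.mul_self_sqrt hXr.le
    have h4 : 0 < Real.sqrt X := Real.sqrt_pos.2 hXr
    rw [div_le_div_iff₀ hXr h4]
    have h5 := Real.log_natCast_nonneg X
    calc Real.log X * Nat.sqrt X * Real.sqrt X ≤ Real.log X * Real.sqrt X * Real.sqrt X := by gcongr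
      _ = Real.log X * X := by rw [mul_assoc, h3]

/-- **a coordinate in a small set** -/
theorem rr (n : ℕ) (i : Fin (n + 1)) (T : ℕ → Finset ℕ)
    (hT : ∀ᶠ X : ℕ in atTop, ∀ t ∈ T X, 1 ≤ t ∧ t ^ 4 ≤ X)
    (h : Tendsto (fun X => RS (T X) / el X) atTop (𝓝 0)) :
    Tendsto (fun X : ℕ => ((Os (Function.update (fun _ => pr X) i (T X)) X).card : ℝ) /
      ((Ot (n + 1) X).card : ℝ)) atTop (𝓝 0) := by
  obtain ⟨c, hc, hlow⟩ := low' n
  have hlim : Tendsto (fun X : ℕ => 1 / c * (Real.log X * Nat.sqrt X / X) +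
      4 * Real.log 4 / c * n * (RS (T X) / el X)) atTop (𝓝 0) := by
    have := (log_sqrt.const_mul (1 / c)).add (h.const_mul (4 * Real.log 4 / c * n))
    simpa using this
  refine squeeze_zero' ?_ ?_ hlim
  · filter_upwards with X
    positivity
  filter_upwards [hT, hlow, RS_up, el_tendsto.eventually_ge_atTop 1, eventually_ge_atTop 3]
    with X hTX hlX hRS hel hX3
  have hXr : (0 : ℝ) < X := by exact_mod_cast (by omega : 0 < X)
  have hL : 0 < Real.log X := Real.log_pos (by exact_mod_cast (by omega : 1 < X))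
  have help : 0 < el X := by linarith
  set S : Fin (n + 1) → Finset ℕ := Function.update (fun _ => pr X) i (T X) with hS
  have hSi : S i = T X := by rw [hS, Function.update_self]
  have hSk : ∀ k, k ≠ i → S k = pr X := fun k hk => by rw [hS, Function.update_of_ne hk]
  have hpos : ∀ k, ∀ p ∈ S k, 1 ≤ p := by
    intro k p hp
    by_cases hk : k = i
    · rw [hk, hSi] at hp
      exact (hTX p hp).1
    · rw [hSk k hk] at hp
      exact (mem_pr.1 hp).2.1.one_lt.le
  have hU := cntU (S := S) hpos (univ.erase i) (by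
    intro j hj p hp
    rw [hSk j (Finset.ne_of_mem_erase hj)] at hp
    exact (mem_pr.1 hp).2.1) (X := X) (by omega) (c := 1 / 4) (by norm_num) (by
    intro x hx hbig
    have hx' := mem_Os.1 hx
    have hxp : ∀ k, (0 : ℝ) < x k := fun k => by
      exact_mod_cast (by have := hpos k _ (hx'.1 k); omega : 0 < x k)
    have h1 : Real.log ((∏ k, x k : ℕ) : ℝ) = Real.log (x i) + ∑ j ∈ univ.erase i, Real.log (x j) := by
      push_cast
      rw [Real.log_prod (fun k _ => (hxp k).ne')]
      exact (Finset.add_sum_erase univ (fun k => Real.log ((x k : ℕ) : ℝ)) (Finset.mem_univ i)).symm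
    have h2 : 1 / 2 * Real.log X ≤ Real.log ((∏ k, x k : ℕ) : ℝ) := by
      have h3 : X < (∏ k, x k) * (∏ k, x k) := Nat.sqrt_lt.1 hbig
      have h4 : (X : ℝ) ≤ ((∏ k, x k : ℕ) : ℝ) * ((∏ k, x k : ℕ) : ℝ) := by exact_mod_cast h3.le
      have h5 := Real.log_le_log hXr h4
      have h6 : (0 : ℝ) < ((∏ k, x k : ℕ) : ℝ) := by
        push_cast
        exact Finset.prod_pos fun k _ => hxp k
      rw [Real.log_mul h6.ne' h6.ne'] at h5
      linarith
    have h3 : Real.log (x i) ≤ 1 / 4 * Real.log X := by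
      have h4 := hx'.1 i
      rw [hSi] at h4
      have h5 : ((x i : ℕ) : ℝ) ^ 4 ≤ X := by exact_mod_cast (hTX _ h4).2
      have h6 := Real.log_le_log (by have := hxp i; positivity) h5
      rw [Real.log_pow] at h6
      push_cast at h6
      linarith
    linarith) i
  have e1 : ∏ k, RS (Function.update S i {1} k) = RS (pr X) ^ n := by
    rw [prod_RS_upd, RS_one, one_mul, Finset.prod_congr rfl (fun k hk => by
      rw [hSk k (Finset.ne_of_mem_erase hk)]), Finset.prod_const,
      Finset.card_erase_of_mem (Finset.mem_univ _), Finset.card_univ, Fintype.card_fin,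
      Nat.add_sub_cancel]
  have e2 : ∀ j ∈ (univ : Finset (Fin (n + 1))).erase i,
      ∏ k, RS (Function.update S j {1} k) = RS (T X) * RS (pr X) ^ (n - 1) := by
    intro j hj
    have hji := Finset.ne_of_mem_erase hj
    rw [prod_RS_upd, RS_one, one_mul,
      ← Finset.mul_prod_erase (univ.erase j) _ (Finset.mem_erase.2 ⟨hji.symm, Finset.mem_univ i⟩), hSi]
    congr 1
    rw [Finset.prod_congr rfl (fun k hk => by
      rw [hSk k (Finset.ne_of_mem_erase hk)]), Finset.prod_const,
      Finset.card_erase_of_mem (Finset.mem_erase.2 ⟨hji.symm, Finset.mem_univ i⟩),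
      Finset.card_erase_of_mem (Finset.mem_univ _), Finset.card_univ, Fintype.card_fin,
      Nat.add_sub_cancel]
  rw [e1, Finset.sum_congr rfl e2, Finset.sum_const, nsmul_eq_mul,
    Finset.card_erase_of_mem (Finset.mem_univ _), Finset.card_univ, Fintype.card_fin,
    Nat.add_sub_cancel] at hU
  have hRS0 := RS_nonneg (pr X)
  have hT0 := RS_nonneg (T X)
  have hpn : RS (pr X) ^ n ≤ el X ^ n := pow_le_pow_left₀ hRS0 hRS n
  have hpn1 : (n : ℝ) * RS (pr X) ^ (n - 1) ≤ n * (el X ^ n / el X) := by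
    rcases Nat.eq_zero_or_pos n with h0 | h0
    · rw [h0]
      simp
    · apply mul_le_mul_of_nonneg_left _ (Nat.cast_nonneg n)
      refine (pow_le_pow_left₀ hRS0 hRS (n - 1)).trans (le_of_eq ?_)
      rw [eq_div_iff help.ne', pow_sub_one_mul (by omega)]
  have hden : 0 < c * X / Real.log X * el X ^ n := by positivity
  have hlog4 : 0 < Real.log 4 := Real.log_pos (by norm_num)
  calc ((Os S X).card : ℝ) / ((Ot (n + 1) X).card : ℝ) ≤
        ((Os S X).card : ℝ) / (c * X / Real.log X * el X ^ n) :=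
        div_le_div_of_nonneg_left (Nat.cast_nonneg _) hden hlX
    _ ≤ (Nat.sqrt X * el X ^ n + Real.log 4 * X / (1 / 4 * Real.log X) *
          (RS (T X) * (n * (el X ^ n / el X)))) / (c * X / Real.log X * el X ^ n) := by
        apply div_le_div_of_nonneg_right _ hden.le
        refine hU.trans (add_le_add ?_ ?_)
        · exact mul_le_mul_of_nonneg_left hpn (Nat.cast_nonneg _)
        · apply mul_le_mul_of_nonneg_left _ (by positivity)
          calc (n : ℝ) * (RS (T X) * RS (pr X) ^ (n - 1)) =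
                RS (T X) * (n * RS (pr X) ^ (n - 1)) := by ring
            _ ≤ _ := mul_le_mul_of_nonneg_left hpn1 hT0
    _ = _ := by
        have h1 : el X ^ n ≠ 0 := by positivity
        field_simp

end Pool.Agent.U687.NO
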