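import Pool.Agent.U687.NO.Bil

/-!
# Averages over tuples with bounded product: functions with a symbol of two coordinates
-/

set_option autoImplicit false
set_option linter.unusedSectionVars false

open scoped Classical

namespace Pool.Agent.U687.NO

open Finset Filter Topology
open Pool.Agent.U687.Q2 (av Ca)
open Pool.Agent.U687.JT (nr2 n47)

/-- splitting off two coordinates -/
theorem fib2 {K : ℕ} (S : Fin K → Finset ℕ) {i j : Fin K} (hij : i ≠ j) (Z : ℕ)
    (Φ : (Fin K → ℕ) → ℝ) : ∑ x ∈ Os S Z, Φ x =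
      ∑ y ∈ Fintype.piFinset (Function.update (Function.update S i {1}) j {1}),
        ∑ q ∈ S j, ∑ p ∈ (S i).filter (fun p => p * q * ∏ k, y k ≤ Z),
          Φ (Function.update (Function.update y j q) i p) := by
  unfold Os
  rw [Finset.sum_filter, fib S i, fib (Function.update S i {1}) j (fun y => ∑ p ∈ S i,
    if ∏ k, Function.update y i p k ≤ Z then Φ (Function.update y i p) else 0)]
  refine Finset.sum_congr rfl fun y hy => ?_
  have hyi : y i = 1 := by
    have h1 := (Fintype.mem_piFinset.1 hy) i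
    rw [Function.update_of_ne hij, Function.update_self] at h1
    exact Finset.mem_singleton.1 h1
  rw [Function.update_of_ne hij.symm]
  refine Finset.sum_congr rfl fun q _ => ?_
  rw [Finset.sum_filter]
  refine Finset.sum_congr rfl fun p _ => ?_
  have h2 : Function.update y j q i = 1 := by
    rw [Function.update_of_ne hij]
    exact hyi
  rw [prod_upd h2, prod_upd (one_of_mem hy), mul_assoc]

/-- the sums over two large coordinates are small -/
def Sm {K : ℕ} (i j : Fin K) (Φ : (Fin K → ℕ) → ℝ) : Prop :=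
  ∀ (X Z Lg : ℕ) (y : Fin K → ℕ), 1 ≤ Lg → Real.log X ≤ Lg →
    |∑ q ∈ Lpr X Lg, ∑ p ∈ (Lpr X Lg).filter (fun p => p * q ≤ Z),
      Φ (Function.update (Function.update y j q) i p)| ≤ 14 * (Z / (Lg : ℝ) ^ 2)

/-- the sets of the coordinates, two of them large -/
noncomputable def S2 {K : ℕ} (i j : Fin K) (X Lg : ℕ) (k : Fin K) : Finset ℕ :=
  if k = i ∨ k = j then Lpr X Lg else pr X

theorem Sm.main {K : ℕ} {i j : Fin K} {Φ : (Fin K → ℕ) → ℝ} (h : Sm i j Φ) (hij : i ≠ j)
    {X Lg : ℕ} (h1 : 1 ≤ Lg) (hL : Real.log X ≤ Lg) {t : ℝ} (ht : 1 ≤ t) (hR : RS (pr X) ≤ t) :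
    |∑ x ∈ Os (S2 i j X Lg) X, Φ x| ≤ 14 / (Lg : ℝ) ^ 2 * (X * t ^ K) := by
  have hLr : (0 : ℝ) < Lg := by exact_mod_cast h1
  rw [fib2 _ hij]
  have ei : S2 i j X Lg i = Lpr X Lg := if_pos (Or.inl rfl)
  have ej : S2 i j X Lg j = Lpr X Lg := if_pos (Or.inr rfl)
  rw [ei, ej]
  have hpos : ∀ k, ∀ p ∈ S2 i j X Lg k, 1 ≤ p := by
    intro k p hp
    unfold S2 at hp
    split_ifs at hp
    · exact (mem_Lpr.1 hp).1.2.1.one_lt.le
    · exact pr_pos' hp
  have hpos' : ∀ k, ∀ p ∈ Function.update (S2 i j X Lg) i {1} k, 1 ≤ p := by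
    intro k p hp
    by_cases hk : k = i
    · rw [hk, Function.update_self, Finset.mem_singleton] at hp
      rw [hp]
    · rw [Function.update_of_ne hk] at hp
      exact hpos k p hp
  refine (Finset.abs_sum_le_sum_abs _ _).trans ?_
  have h2 : ∀ y ∈ Fintype.piFinset (Function.update (Function.update (S2 i j X Lg) i {1}) j {1}),
      |∑ q ∈ Lpr X Lg, ∑ p ∈ (Lpr X Lg).filter (fun p => p * q * ∏ k, y k ≤ X),
        Φ (Function.update (Function.update y j q) i p)| ≤
      14 / (Lg : ℝ) ^ 2 * (X * (1 / ((∏ k, y k : ℕ) : ℝ))) := by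
    intro y hy
    have hm := pos_of_mem hpos' hy
    have h3 := h X (X / ∏ k, y k) Lg y h1 hL
    have h4 : ∀ q, (Lpr X Lg).filter (fun p => p * q * ∏ k, y k ≤ X) =
        (Lpr X Lg).filter (fun p => p * q ≤ X / ∏ k, y k) := by
      intro q
      refine Finset.filter_congr fun p _ => ?_
      rw [Nat.le_div_iff_mul_le (by omega)]
    rw [Finset.sum_congr rfl fun q _ => by rw [h4 q]]
    refine h3.trans ?_
    have h5 : ((X / ∏ k, y k : ℕ) : ℝ) ≤ (X : ℝ) / ((∏ k, y k : ℕ) : ℝ) := Nat.cast_div_le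
    calc 14 * (((X / ∏ k, y k : ℕ) : ℝ) / (Lg : ℝ) ^ 2) ≤
          14 * ((X : ℝ) / ((∏ k, y k : ℕ) : ℝ) / (Lg : ℝ) ^ 2) := by gcongr
      _ = _ := by ring
  refine (Finset.sum_le_sum h2).trans ?_
  rw [← Finset.mul_sum, ← Finset.mul_sum, sum_inv]
  apply mul_le_mul_of_nonneg_left _ (by positivity)
  apply mul_le_mul_of_nonneg_left _ (Nat.cast_nonneg _)
  have h6 : ∀ k ∈ (univ : Finset (Fin K)),
      RS (Function.update (Function.update (S2 i j X Lg) i {1}) j {1} k) ≤ t := by
    intro k _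
    by_cases hk : k = j
    · rw [hk, Function.update_self, RS_one]
      exact ht
    · rw [Function.update_of_ne hk]
      by_cases hk2 : k = i
      · rw [hk2, Function.update_self, RS_one]
        exact ht
      · rw [Function.update_of_ne hk2]
        unfold S2
        rw [if_neg (by tauto)]
        exact hR
  refine (Finset.prod_le_prod (fun k _ => RS_nonneg _) h6).trans ?_
  rw [Finset.prod_const, Finset.card_univ, Fintype.card_fin]

/-- the logarithm, rounded up -/
noncomputable def Lc (X : ℕ) : ℕ := ⌈Real.log X⌉₊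

/-- the small primes -/
noncomputable def Tw (X : ℕ) : Finset ℕ := (pr X).filter fun p => p ≤ (Lc X ^ 6) ^ 12

theorem Lc_le : ∀ᶠ X : ℕ in atTop, (2 : ℝ) ≤ Lc X ∧ (Lc X : ℝ) ≤ 2 * Real.log X := by
  filter_upwards [log_tendsto.eventually_ge_atTop 2] with X h
  have h1 : Real.log X ≤ Lc X := Nat.le_ceil _
  have h2 : (Lc X : ℝ) < Real.log X + 1 := Nat.ceil_lt_add_one (by linarith)
  exact ⟨by linarith, by linarith⟩

theorem Lc_pow (k : ℕ) : ∀ᶠ X : ℕ in atTop, Lc X ^ k ≤ X := by
  have h1 : ∀ᶠ x : ℝ in atTop, ‖Real.log x ^ k‖ ≤ 1 / 2 ^ k * ‖x‖ :=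
    (Real.isLittleO_pow_log_id_atTop (n := k)).def (by positivity)
  filter_upwards [Lc_le, tendsto_natCast_atTop_atTop.eventually h1] with X hL h2
  have hlog : 0 ≤ Real.log X := Real.log_natCast_nonneg X
  have h5 : ((Lc X ^ k : ℕ) : ℝ) ≤ X := by
    push_cast
    rw [Real.norm_of_nonneg (by positivity), Real.norm_of_nonneg (Nat.cast_nonneg _)] at h2
    calc (Lc X : ℝ) ^ k ≤ (2 * Real.log X) ^ k := pow_le_pow_left₀ (Nat.cast_nonneg _) hL.2 k
      _ = 2 ^ k * Real.log X ^ k := by rw [mul_pow]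
      _ ≤ 2 ^ k * (1 / 2 ^ k * X) := mul_le_mul_of_nonneg_left h2 (by positivity)
      _ = X := by
          rw [← mul_assoc, mul_one_div_cancel (by positivity), one_mul]
  exact_mod_cast h5

theorem Tw_small : ∀ᶠ X : ℕ in atTop, ∀ t ∈ Tw X, 1 ≤ t ∧ t ^ 4 ≤ X := by
  filter_upwards [Lc_pow (6 * 12 * 4)] with X h2 t ht
  obtain ⟨h3, h4⟩ := Finset.mem_filter.1 ht
  refine ⟨pr_pos' h3, ?_⟩
  calc t ^ 4 ≤ ((Lc X ^ 6) ^ 12) ^ 4 := Nat.pow_le_pow_left h4 4
    _ = Lc X ^ (6 * 12 * 4) := by rw [← pow_mul, ← pow_mul]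
    _ ≤ X := h2

theorem log_div_lim : Tendsto (fun t : ℝ => Real.log t / t) atTop (𝓝 0) :=
  Real.isLittleO_log_id_atTop.tendsto_div_nhds_zero

theorem Tw_lim : Tendsto (fun X => RS (Tw X) / el X) atTop (𝓝 0) := by
  obtain ⟨C, hC0, hC⟩ := mer
  have hlim : Tendsto (fun t : ℝ => (1 / 2 * Real.log 144 + C) / t + 1 / 2 * (Real.log t / t))
      atTop (𝓝 0) := by
    have h1 : Tendsto (fun t : ℝ => (1 / 2 * Real.log 144 + C) / t) atTop (𝓝 0) :=
      tendsto_const_nhds.div_atTop tendsto_id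
    have h2 := h1.add (log_div_lim.const_mul (1 / 2))
    simpa using h2
  refine squeeze_zero' ?_ ?_ (hlim.comp el_tendsto)
  · filter_upwards [el_tendsto.eventually_ge_atTop 0] with X hX
    exact div_nonneg (RS_nonneg _) hX
  filter_upwards [Lc_le, el_tendsto.eventually_ge_atTop 1, log_tendsto.eventually_ge_atTop 1]
    with X hL hel hlog
  have help : 0 < el X := by linarith
  have hlogp : 0 < Real.log X := by linarith
  set w : ℕ := (Lc X ^ 6) ^ 12 with hw
  have hL2 : 2 ≤ Lc X := by exact_mod_cast hL.1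
  have hw3 : 3 ≤ w := by
    rw [hw, ← pow_mul]
    calc 3 ≤ 2 ^ (6 * 12) := by norm_num
      _ ≤ Lc X ^ (6 * 12) := Nat.pow_le_pow_left hL2 _
  have h1 : RS (Tw X) ≤ RS (pr w) := by
    refine RS_mono fun p hp => ?_
    obtain ⟨h2, h3⟩ := Finset.mem_filter.1 hp
    exact mem_pr.2 ⟨h3, (mem_pr.1 h2).2⟩
  have h2 := (abs_le.1 (hC w hw3)).2
  have h3 : el w ≤ Real.log 144 + Real.log (el X) := by
    unfold el
    have h4 : Real.log (w : ℝ) = 72 * Real.log (Lc X) := by
      rw [hw, ← pow_mul]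
      push_cast
      rw [Real.log_pow]
      norm_num
    have h5 : Real.log (Lc X) ≤ 2 * el X := by
      have h6 : Real.log (Lc X) ≤ Real.log (2 * Real.log X) :=
        Real.log_le_log (by linarith [hL.1]) hL.2
      rw [Real.log_mul (by norm_num) hlogp.ne'] at h6
      have h7 : Real.log 2 ≤ 1 := by
        have := Real.log_two_lt_d9
        linarith
      unfold el at hel ⊢
      linarith
    have h6 : 0 < Real.log (Lc X) := Real.log_pos (by linarith [hL.1])
    rw [h4, ← Real.log_mul (by norm_num) (by unfold el at help; exact help.ne')]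
    apply Real.log_le_log (by positivity)
    unfold el at h5
    linarith
  show RS (Tw X) / el X ≤ (1 / 2 * Real.log 144 + C) / el X + 1 / 2 * (Real.log (el X) / el X)
  rw [← mul_div_assoc, ← add_div, div_le_div_iff_of_pos_right help]
  linarith

/-- **the average of a function with a symbol of two coordinates** -/
theorem two (n : ℕ) {i j : Fin (n + 1)} (hij : i ≠ j) (Φ : (Fin (n + 1) → ℕ) → ℝ)
    (hb : ∀ x, |Φ x| ≤ 1) (h : Sm i j Φ) : Tendsto (na (n + 1) Φ) atTop (𝓝 0) := by
  obtain ⟨c, hc, hlow⟩ := low' n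
  have hel : Tendsto (fun X : ℕ => el X / Real.log X) atTop (𝓝 0) :=
    log_div_lim.comp log_tendsto
  have hlim : Tendsto (fun X : ℕ => 14 / c * (el X / Real.log X) +
      (((Os (Function.update (fun _ => pr X) i (Tw X)) X).card : ℝ) / ((Ot (n + 1) X).card : ℝ) +
      ((Os (Function.update (fun _ => pr X) j (Tw X)) X).card : ℝ) / ((Ot (n + 1) X).card : ℝ)))
      atTop (𝓝 0) := by
    have := (hel.const_mul (14 / c)).add ((rr n i Tw Tw_small Tw_lim).add (rr n j Tw Tw_small Tw_lim))
    simpa using this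
  rw [tendsto_zero_iff_abs_tendsto_zero]
  refine squeeze_zero' ?_ ?_ hlim
  · filter_upwards with X
    exact abs_nonneg _
  filter_upwards [hlow, ot_pos n, RS_up, el_tendsto.eventually_ge_atTop 1, eventually_ge_atTop 3,
    log_tendsto.eventually_ge_atTop 1, Lc_le] with X hlX hO hRS hel1 hX3 hlog hLc
  have hXr : (0 : ℝ) < X := by exact_mod_cast (by omega : 0 < X)
  have help : 0 < el X := by linarith
  have hlogp : 0 < Real.log X := by linarith
  have hL : Real.log X ≤ Lc X := Nat.le_ceil _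
  have hL1 : 1 ≤ Lc X := by
    have : (1 : ℝ) ≤ Lc X := by linarith
    exact_mod_cast this
  show |na (n + 1) Φ X| ≤ _
  unfold na
  rw [abs_div, Nat.abs_cast, ← add_div]
  have hsub : Os (S2 i j X (Lc X)) X ⊆ Ot (n + 1) X := by
    intro x hx
    rw [mem_Os] at hx
    unfold Ot
    rw [mem_Os]
    refine ⟨fun k => ?_, hx.2⟩
    have h1 := hx.1 k
    unfold S2 at h1
    split_ifs at h1
    · exact mem_pr.2 (mem_Lpr.1 h1).1
    · exact h1
  have hrest : |∑ x ∈ Ot (n + 1) X \ Os (S2 i j X (Lc X)) X, Φ x| ≤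
      ((Os (Function.update (fun _ => pr X) i (Tw X)) X).card : ℝ) +
      ((Os (Function.update (fun _ => pr X) j (Tw X)) X).card : ℝ) := by
    refine (Finset.abs_sum_le_sum_abs _ _).trans ?_
    refine (Finset.sum_le_sum fun x _ => hb x).trans ?_
    rw [← card_as_sum]
    have h1 : Ot (n + 1) X \ Os (S2 i j X (Lc X)) X ⊆
        Os (Function.update (fun _ => pr X) i (Tw X)) X ∪
        Os (Function.update (fun _ => pr X) j (Tw X)) X := by
      intro x hx
      obtain ⟨h2, h3⟩ := Finset.mem_sdiff.1 hx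
      have h2' := h2
      unfold Ot at h2'
      rw [mem_Os] at h2'
      have key : ∀ l : Fin (n + 1), x l ≤ (Lc X ^ 6) ^ 12 →
          x ∈ Os (Function.update (fun _ => pr X) l (Tw X)) X := by
        intro l hl
        rw [mem_Os]
        refine ⟨fun k => ?_, h2'.2⟩
        by_cases hk : k = l
        · subst hk
          rw [Function.update_self]
          exact Finset.mem_filter.2 ⟨h2'.1 k, hl⟩
        · rw [Function.update_of_ne hk]
          exact h2'.1 k
      rw [Finset.mem_union]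
      by_contra hcon
      rw [not_or] at hcon
      apply h3
      rw [mem_Os]
      refine ⟨fun k => ?_, h2'.2⟩
      unfold S2
      split_ifs with hk
      · rw [mem_Lpr]
        refine ⟨mem_pr.1 (h2'.1 k), ?_⟩
        by_contra hlt
        rcases hk with hk | hk
        · exact hcon.1 (key i (by rw [← hk]; exact not_lt.1 hlt))
        · exact hcon.2 (key j (by rw [← hk]; exact not_lt.1 hlt))
      · exact h2'.1 k
    have h4 := (Finset.card_le_card h1).trans (Finset.card_union_le _ _)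
    exact_mod_cast h4
  have hmain := h.main hij hL1 hL hel1 hRS
  rw [← Finset.sum_sdiff hsub]
  have hden : 0 < c * X / Real.log X * el X ^ n := by positivity
  have hm2 : (14 / (Lc X : ℝ) ^ 2 * (X * el X ^ (n + 1))) / ((Ot (n + 1) X).card : ℝ) ≤
      14 / c * (el X / Real.log X) := by
    have hLp : (0 : ℝ) < Lc X := by exact_mod_cast hL1
    calc (14 / (Lc X : ℝ) ^ 2 * (X * el X ^ (n + 1))) / ((Ot (n + 1) X).card : ℝ) ≤
          (14 / (Lc X : ℝ) ^ 2 * (X * el X ^ (n + 1))) / (c * X / Real.log X * el X ^ n) :=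
          div_le_div_of_nonneg_left (by positivity) hden hlX
      _ = 14 / c * el X * (Real.log X / (Lc X : ℝ) ^ 2) := by
          rw [pow_succ (el X) n]
          have h1 : el X ^ n ≠ 0 := by positivity
          field_simp
      _ ≤ 14 / c * el X * (1 / Real.log X) := by
          apply mul_le_mul_of_nonneg_left _ (by positivity)
          rw [div_le_div_iff₀ (by positivity) hlogp, one_mul]
          nlinarith
      _ = _ := by ring
  calc |∑ x ∈ Ot (n + 1) X \ Os (S2 i j X (Lc X)) X, Φ x + ∑ x ∈ Os (S2 i j X (Lc X)) X, Φ x| /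
        ((Ot (n + 1) X).card : ℝ) ≤ ((((Os (Function.update (fun _ => pr X) i (Tw X)) X).card : ℝ) +
      ((Os (Function.update (fun _ => pr X) j (Tw X)) X).card : ℝ)) +
        14 / (Lc X : ℝ) ^ 2 * (X * el X ^ (n + 1))) / ((Ot (n + 1) X).card : ℝ) := by
        apply div_le_div_of_nonneg_right _ hO.le
        exact (abs_add_le _ _).trans (add_le_add hrest hmain)
    _ = (14 / (Lc X : ℝ) ^ 2 * (X * el X ^ (n + 1))) / ((Ot (n + 1) X).card : ℝ) +
        (((Os (Function.update (fun _ => pr X) i (Tw X)) X).card : ℝ) +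
        ((Os (Function.update (fun _ => pr X) j (Tw X)) X).card : ℝ)) /
        ((Ot (n + 1) X).card : ℝ) := by
        ring
    _ ≤ _ := by
        rw [add_div]
        exact add_le_add hm2 le_rfl

end Pool.Agent.U687.NO
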